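import Mathlib

/-!
# Derivations of context-free grammars with a counted number of steps
-/

set_option autoImplicit false

namespace Pool.Agent.K9h77.GF

open List

variable {T N : Type}

/-- One rewriting step with a rule of the set `R`. -/
def Stp (R : Set (ContextFreeRule T N)) (u v : List (Symbol T N)) : Prop :=
  ∃ r ∈ R, r.Rewrites u v

/-- Derivation with exactly `n` steps. -/
inductive DN (R : Set (ContextFreeRule T N)) :
    ℕ → List (Symbol T N) → List (Symbol T N) → Prop
  | refl (u : List (Symbol T N)) : DN R 0 u u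
  | step {n : ℕ} {u v w : List (Symbol T N)} (h : Stp R u v) (h' : DN R n v w) : DN R (n + 1) u w

/-- Derivation with some number of steps. -/
def Dr (R : Set (ContextFreeRule T N)) (u v : List (Symbol T N)) : Prop := ∃ n, DN R n u v

/-- A word of terminals as a string of symbols. -/
abbrev tm (N : Type) (w : List T) : List (Symbol T N) := w.map Symbol.terminal

theorem Stp.ctx {R : Set (ContextFreeRule T N)} {u v : List (Symbol T N)} (h : Stp R u v)
    (p q : List (Symbol T N)) : Stp R (p ++ u ++ q) (p ++ v ++ q) := by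
  obtain ⟨r, hr, h⟩ := h
  exact ⟨r, hr, (h.append_left p).append_right q⟩

theorem DN.ctx {R : Set (ContextFreeRule T N)} {n : ℕ} {u v : List (Symbol T N)}
    (h : DN R n u v) (p q : List (Symbol T N)) : DN R n (p ++ u ++ q) (p ++ v ++ q) := by
  induction h with
  | refl u => exact DN.refl _
  | step h _ ih => exact DN.step (h.ctx p q) ih

theorem DN.trans {R : Set (ContextFreeRule T N)} {n m : ℕ} {u v w : List (Symbol T N)}
    (h : DN R n u v) (h' : DN R m v w) : DN R (n + m) u w := by
  induction h with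
  | refl u => simpa using h'
  | step h _ ih =>
    rw [Nat.add_right_comm]
    exact DN.step h (ih h')

theorem DN.mono {R R' : Set (ContextFreeRule T N)} (hR : R ⊆ R') {n : ℕ}
    {u v : List (Symbol T N)} (h : DN R n u v) : DN R' n u v := by
  induction h with
  | refl u => exact DN.refl _
  | step h _ ih =>
    obtain ⟨r, hr, h⟩ := h
    exact DN.step ⟨r, hR hr, h⟩ ih

theorem Dr.refl {R : Set (ContextFreeRule T N)} (u : List (Symbol T N)) : Dr R u u :=
  ⟨0, DN.refl u⟩

theorem Dr.trans {R : Set (ContextFreeRule T N)} {u v w : List (Symbol T N)}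
    (h : Dr R u v) (h' : Dr R v w) : Dr R u w := by
  obtain ⟨n, h⟩ := h
  obtain ⟨m, h'⟩ := h'
  exact ⟨n + m, h.trans h'⟩

theorem Dr.ctx {R : Set (ContextFreeRule T N)} {u v : List (Symbol T N)}
    (h : Dr R u v) (p q : List (Symbol T N)) : Dr R (p ++ u ++ q) (p ++ v ++ q) := by
  obtain ⟨n, h⟩ := h
  exact ⟨n, h.ctx p q⟩

theorem Dr.mono {R R' : Set (ContextFreeRule T N)} (hR : R ⊆ R')
    {u v : List (Symbol T N)} (h : Dr R u v) : Dr R' u v := by
  obtain ⟨n, h⟩ := h
  exact ⟨n, h.mono hR⟩

theorem Dr.append {R : Set (ContextFreeRule T N)} {u v u' v' : List (Symbol T N)}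
    (h : Dr R u v) (h' : Dr R u' v') : Dr R (u ++ u') (v ++ v') := by
  have h1 := h.ctx [] u'
  have h2 := h'.ctx v []
  simp only [List.nil_append, List.append_nil] at h1 h2
  exact h1.trans h2

theorem Dr.rule {R : Set (ContextFreeRule T N)} {r : ContextFreeRule T N} (hr : r ∈ R) :
    Dr R [Symbol.nonterminal r.input] r.output :=
  ⟨1, DN.step ⟨r, hr, ContextFreeRule.Rewrites.input_output⟩ (DN.refl _)⟩

theorem dr_iff (g : ContextFreeGrammar T) (u v : List (Symbol T g.NT)) :
    g.Derives u v ↔ Dr (g.rules : Set (ContextFreeRule T g.NT)) u v := by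
  constructor
  · intro h
    induction h with
    | refl => exact Dr.refl _
    | tail _ h ih =>
      obtain ⟨r, hr, h⟩ := h
      exact ih.trans ⟨1, DN.step ⟨r, hr, h⟩ (DN.refl _)⟩
  · rintro ⟨n, h⟩
    induction h with
    | refl u => exact ContextFreeGrammar.Derives.refl _
    | step h _ ih =>
      obtain ⟨r, hr, h⟩ := h
      exact ContextFreeGrammar.Produces.trans_derives ⟨r, hr, h⟩ ih

theorem rewrites_append {r : ContextFreeRule T N} {u v w : List (Symbol T N)}
    (h : r.Rewrites (u ++ v) w) :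
    (∃ u', r.Rewrites u u' ∧ w = u' ++ v) ∨ (∃ v', r.Rewrites v v' ∧ w = u ++ v') := by
  induction u generalizing w with
  | nil => exact Or.inr ⟨w, h, rfl⟩
  | cons x u ih =>
    cases h with
    | head s => exact Or.inl ⟨r.output ++ u, ContextFreeRule.Rewrites.head u, by simp⟩
    | cons x h =>
      rcases ih h with ⟨u', h1, rfl⟩ | ⟨v', h1, rfl⟩
      · exact Or.inl ⟨x :: u', ContextFreeRule.Rewrites.cons x h1, rfl⟩
      · exact Or.inr ⟨v', h1, rfl⟩

theorem DN.split {R : Set (ContextFreeRule T N)} {n : ℕ} : ∀ {u v w : List (Symbol T N)},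
    DN R n (u ++ v) w → ∃ n1 n2 w1 w2, n1 + n2 = n ∧ w = w1 ++ w2 ∧ DN R n1 u w1 ∧
      DN R n2 v w2 := by
  induction n with
  | zero =>
    intro u v w h
    cases h
    exact ⟨0, 0, u, v, rfl, rfl, DN.refl _, DN.refl _⟩
  | succ n ih =>
    intro u v w h
    cases h with
    | step h h' =>
      obtain ⟨r, hr, h⟩ := h
      rcases rewrites_append h with ⟨u', h1, rfl⟩ | ⟨v', h1, rfl⟩
      · obtain ⟨n1, n2, w1, w2, h2, h3, h4, h5⟩ := ih h'
        exact ⟨n1 + 1, n2, w1, w2, by omega, h3, DN.step ⟨r, hr, h1⟩ h4, h5⟩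
      · obtain ⟨n1, n2, w1, w2, h2, h3, h4, h5⟩ := ih h'
        exact ⟨n1, n2 + 1, w1, w2, by omega, h3, h4, DN.step ⟨r, hr, h1⟩ h5⟩

theorem DN.nil {R : Set (ContextFreeRule T N)} {n : ℕ} {w : List (Symbol T N)}
    (h : DN R n [] w) : w = [] := by
  cases h with
  | refl => rfl
  | step h _ =>
    obtain ⟨r, _, h⟩ := h
    cases h

theorem DN.terminal {R : Set (ContextFreeRule T N)} {n : ℕ} {a : T} {w : List (Symbol T N)}
    (h : DN R n [Symbol.terminal a] w) : w = [Symbol.terminal a] := by
  cases h with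
  | refl => rfl
  | step h _ =>
    obtain ⟨r, _, h⟩ := h
    cases h with
    | cons _ h => cases h

theorem DN.head {R : Set (ContextFreeRule T N)} {n : ℕ} {A : N} {w : List (Symbol T N)}
    (h : DN R (n + 1) [Symbol.nonterminal A] w) :
    ∃ r ∈ R, r.input = A ∧ DN R n r.output w := by
  cases h with
  | step h h' =>
    obtain ⟨r, hr, h⟩ := h
    cases h with
    | head s => exact ⟨r, hr, rfl, by simpa using h'⟩
    | cons _ h => cases h

theorem DN.children {R : Set (ContextFreeRule T N)} : ∀ {γ : List (Symbol T N)} {n : ℕ}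
    {w : List (Symbol T N)}, DN R n γ w → ∃ ws : List (List (Symbol T N)), w = ws.flatten ∧
      List.Forall₂ (fun s w' => ∃ m ≤ n, DN R m [s] w') γ ws := by
  intro γ
  induction γ with
  | nil =>
    intro n w h
    exact ⟨[], by simpa using h.nil, List.Forall₂.nil⟩
  | cons s γ ih =>
    intro n w h
    obtain ⟨n1, n2, w1, w2, h1, h2, h3, h4⟩ := DN.split (u := [s]) (v := γ) h
    obtain ⟨ws, h5, h6⟩ := ih h4
    refine ⟨w1 :: ws, by simp [h2, h5], List.Forall₂.cons ⟨n1, by omega, h3⟩ ?_⟩
    exact h6.imp fun _ _ ⟨m, hm, h⟩ => ⟨m, by omega, h⟩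

/-- A string of terminals that is a concatenation consists of strings of terminals. -/
theorem tm_eq_append {w : List T} {u v : List (Symbol T N)} (h : tm N w = u ++ v) :
    ∃ w1 w2, w = w1 ++ w2 ∧ u = tm N w1 ∧ v = tm N w2 := by
  obtain ⟨l1, l2, h1, h2, h3⟩ := List.map_eq_append_iff.1 h
  exact ⟨l1, l2, h1, h2.symm, h3.symm⟩

theorem tm_inj {u v : List T} (h : tm N u = tm N v) : u = v :=
  List.map_injective_iff.2 (fun _ _ h => by injection h) h

theorem tm_eq_flatten {w : List T} {ws : List (List (Symbol T N))} (h : tm N w = ws.flatten) :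
    ∃ us : List (List T), w = us.flatten ∧ ws = us.map (tm N) := by
  induction ws generalizing w with
  | nil =>
    refine ⟨[], ?_, rfl⟩
    simpa using h
  | cons x ws ih =>
    rw [List.flatten_cons] at h
    obtain ⟨w1, w2, rfl, h1, h2⟩ := tm_eq_append h
    obtain ⟨us, h3, h4⟩ := ih h2.symm
    exact ⟨w1 :: us, by simp [h3], by simp [h1, h4]⟩

theorem DN.childrenT {R : Set (ContextFreeRule T N)} {γ : List (Symbol T N)} {n : ℕ}
    {w : List T} (h : DN R n γ (tm N w)) : ∃ us : List (List T), w = us.flatten ∧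
      List.Forall₂ (fun s u => ∃ m ≤ n, DN R m [s] (tm N u)) γ us := by
  obtain ⟨ws, h1, h2⟩ := h.children
  obtain ⟨us, h3, rfl⟩ := tm_eq_flatten h1
  refine ⟨us, h3, ?_⟩
  rw [List.forall₂_map_right_iff] at h2
  exact h2

theorem Dr.flatten {R : Set (ContextFreeRule T N)} {γ : List (Symbol T N)}
    {ws : List (List (Symbol T N))} (h : List.Forall₂ (fun s w => Dr R [s] w) γ ws) :
    Dr R γ ws.flatten := by
  induction h with
  | nil => exact Dr.refl _
  | cons h _ ih =>
    have := Dr.append h ih
    simpa using this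

theorem DN.splitT {R : Set (ContextFreeRule T N)} {n : ℕ} {u v : List (Symbol T N)} {w : List T}
    (h : DN R n (u ++ v) (tm N w)) : ∃ n1 n2 w1 w2, n1 + n2 = n ∧ w = w1 ++ w2 ∧
      DN R n1 u (tm N w1) ∧ DN R n2 v (tm N w2) := by
  obtain ⟨n1, n2, w1, w2, h1, h2, h3, h4⟩ := h.split
  obtain ⟨x1, x2, rfl, rfl, rfl⟩ := tm_eq_append h2
  exact ⟨n1, n2, x1, x2, h1, rfl, h3, h4⟩

/-! ### Languages of symbols and strings, soundness -/

/-- The language with one word. -/
def oneL (w : List T) : Language T := ({w} : Set (List T))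

theorem mem_oneL {x w : List T} : x ∈ oneL w ↔ x = w := Iff.rfl

theorem oneL_mul (u v : List T) : oneL u * oneL v = oneL (u ++ v) := by
  ext x
  rw [Language.mem_mul]
  constructor
  · rintro ⟨y, hy, z, hz, rfl⟩
    rw [mem_oneL] at hy hz
    rw [hy, hz]
    exact mem_oneL.2 rfl
  · intro hx
    rw [mem_oneL] at hx
    exact ⟨u, rfl, v, rfl, hx.symm⟩

theorem oneL_nil : oneL ([] : List T) = 1 := by
  ext x
  rw [mem_oneL, Language.mem_one]

theorem oneL_le {w : List T} {K : Language T} : oneL w ≤ K ↔ w ∈ K := by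
  constructor
  · intro h
    exact h (mem_oneL.2 rfl)
  · intro h x hx
    rw [mem_oneL.1 hx]
    exact h

/-- The language of a symbol when the nonterminals denote languages. -/
def symL (φ : N → Language T) : Symbol T N → Language T
  | Symbol.terminal a => oneL [a]
  | Symbol.nonterminal A => φ A

/-- The language of a string of symbols. -/
def strL (φ : N → Language T) (u : List (Symbol T N)) : Language T := (u.map (symL φ)).prod

theorem strL_append (φ : N → Language T) (u v : List (Symbol T N)) :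
    strL φ (u ++ v) = strL φ u * strL φ v := by
  simp [strL]

theorem strL_nil (φ : N → Language T) : strL φ ([] : List (Symbol T N)) = 1 := rfl

theorem strL_cons (φ : N → Language T) (s : Symbol T N) (v : List (Symbol T N)) :
    strL φ (s :: v) = symL φ s * strL φ v := by
  simp [strL]

theorem strL_tm (φ : N → Language T) (w : List T) : strL φ (tm N w) = oneL w := by
  induction w with
  | nil => rw [oneL_nil]; rfl
  | cons a w ih =>
    have h1 : strL φ (tm N (a :: w)) = symL φ (Symbol.terminal a) * strL φ (tm N w) := by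
      simp [strL]
    rw [h1, ih, symL, oneL_mul]
    rfl

theorem strL_singleton (φ : N → Language T) (s : Symbol T N) : strL φ [s] = symL φ s := by
  simp [strL]

theorem DN.sound {R : Set (ContextFreeRule T N)} {φ : N → Language T}
    (hR : ∀ r ∈ R, strL φ r.output ≤ φ r.input) {n : ℕ} {u v : List (Symbol T N)}
    (h : DN R n u v) : strL φ v ≤ strL φ u := by
  induction h with
  | refl u => exact le_refl _
  | step h _ ih =>
    obtain ⟨r, hr, h⟩ := h
    obtain ⟨p, q, rfl, rfl⟩ := h.exists_parts
    refine ih.trans ?_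
    rw [strL_append, strL_append, strL_append, strL_append, strL_singleton]
    exact mul_le_mul' (mul_le_mul' le_rfl (hR r hr)) le_rfl

theorem Dr.sound {R : Set (ContextFreeRule T N)} {φ : N → Language T}
    (hR : ∀ r ∈ R, strL φ r.output ≤ φ r.input) {A : N} {w : List T}
    (h : Dr R [Symbol.nonterminal A] (tm N w)) : w ∈ φ A := by
  obtain ⟨n, h⟩ := h
  have h1 := h.sound hR
  rw [strL_tm, strL_singleton, oneL_le] at h1
  exact h1

end Pool.Agent.K9h77.GF
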