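import Pool.Agent.K9h77.GF.Luk

/-!
# Blocks (complete binary trees) in words that are cut into pieces
-/

set_option autoImplicit false

namespace Pool.Agent.K9h77.GF

open List Classical

variable {T : Type}

/-- The word `u` has the block `tw f x m` at position `b`. -/
def Blk (f x : T) (m b : ℕ) (u : List T) : Prop :=
  ∃ α β, u = α ++ tw f x m ++ β ∧ α.length = b

/-- length of a block -/
def tl (m : ℕ) : ℕ := 2 ^ (m + 1) - 1

theorem tl_pos (m : ℕ) : 1 ≤ tl m := by
  have : 2 ^ 1 ≤ 2 ^ (m + 1) := Nat.pow_le_pow_right (by norm_num) (by omega)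
  simp only [tl]
  omega

theorem tl_succ (m : ℕ) : tl (m + 1) = 1 + tl m + tl m := by
  have h1 : 1 ≤ 2 ^ (m + 1) := Nat.one_le_two_pow
  simp only [tl]
  rw [pow_succ 2 (m + 1)]
  omega

theorem tl_mono {m m' : ℕ} (h : m ≤ m') : tl m ≤ tl m' := by
  have : 2 ^ (m + 1) ≤ 2 ^ (m' + 1) := Nat.pow_le_pow_right (by norm_num) (by omega)
  simp only [tl]
  omega

theorem three_le_tl {m : ℕ} (h : 1 ≤ m) : 3 ≤ tl m := by
  have h1 := tl_mono h
  have h2 : tl 1 = 3 := rfl
  omega

theorem len_tw (f x : T) (m : ℕ) : (tw f x m).length = tl m := length_tw f x m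

theorem Blk.le {f x : T} {m b : ℕ} {u : List T} (h : Blk f x m b u) : b + tl m ≤ u.length := by
  obtain ⟨α, β, rfl, rfl⟩ := h
  simp only [List.length_append, len_tw]
  omega

theorem Blk.halves {f x : T} {m b : ℕ} {u : List T} (h : Blk f x (m + 1) b u) :
    Blk f x m (b + 1) u ∧ Blk f x m (b + 1 + tl m) u := by
  obtain ⟨α, β, rfl, rfl⟩ := h
  constructor
  · exact ⟨α ++ [f], tw f x m ++ β, by simp [tw], by simp⟩
  · exact ⟨α ++ (f :: tw f x m), β, by simp [tw], by simp [len_tw]; omega⟩

theorem Blk.sub {f x : T} {m : ℕ} (k : ℕ) : ∀ {b : ℕ} {u : List T}, Blk f x (m + k) b u →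
    ∃ b', Blk f x m b' u ∧ b ≤ b' ∧ b' + tl m ≤ b + tl (m + k) := by
  induction k with
  | zero =>
    intro b u h
    exact ⟨b, h, le_refl _, le_refl _⟩
  | succ k ih =>
    intro b u h
    obtain ⟨b', h1, h2, h3⟩ := ih (Blk.halves (m := m + k) h).1
    refine ⟨b', h1, by omega, ?_⟩
    have := tl_succ (m + k)
    rw [show m + (k + 1) = m + k + 1 by ring]
    omega

theorem Blk.right {f x : T} {m b : ℕ} {z u : List T} (h : Blk f x m b (z ++ u))
    (hz : z.length ≤ b) : Blk f x m (b - z.length) u := by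
  obtain ⟨α, β, h1, rfl⟩ := h
  rw [List.append_assoc, List.append_eq_append_iff] at h1
  rcases h1 with ⟨a, h2, h3⟩ | ⟨c, h2, h3⟩
  · exact ⟨a, β, by rw [h3, List.append_assoc], by simp [h2]⟩
  · rw [h2, List.length_append] at hz
    have hc : c = [] := List.length_eq_zero_iff.1 (by omega)
    subst hc
    refine ⟨[], β, by simpa using h3.symm, ?_⟩
    simp only [List.append_nil] at h2
    simp [h2]

theorem Blk.left {f x : T} {m b : ℕ} {z u : List T} (h : Blk f x m b (z ++ u))
    (hz : b + tl m ≤ z.length) : Blk f x m b z := by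
  obtain ⟨α, β, h1, rfl⟩ := h
  rw [List.append_eq_append_iff] at h1
  rcases h1 with ⟨a, h2, h3⟩ | ⟨c, h2, h3⟩
  · have h4 := congrArg List.length h2
    simp only [List.length_append, len_tw] at h4
    have ha : a = [] := List.length_eq_zero_iff.1 (by omega)
    subst ha
    exact ⟨α, [], by simpa using h2.symm, rfl⟩
  · exact ⟨α, c, h2, rfl⟩

theorem Blk.mid {f x : T} {m b : ℕ} {p z q : List T} (h : Blk f x m b (p ++ z ++ q))
    (h1 : p.length ≤ b) (h2 : b + tl m ≤ p.length + z.length) : Blk f x m (b - p.length) z := by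
  rw [List.append_assoc] at h
  refine (h.right h1).left ?_
  omega

theorem pieces (f x : T) (m : ℕ) : ∀ (ws : List (List T)) (b : ℕ),
    Blk f x (m + ws.length) b ws.flatten → ∃ ws1 z ws2 b', ws = ws1 ++ z :: ws2 ∧
      Blk f x m b' z ∧ b ≤ ws1.flatten.length + b' ∧
      ws1.flatten.length + b' + tl m ≤ b + tl (m + ws.length) := by
  intro ws
  induction ws with
  | nil =>
    intro b h
    have h1 := h.le
    have h2 := tl_pos (m + ([] : List (List T)).length)
    simp only [List.flatten_nil, List.length_nil] at h1 h2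
    omega
  | cons z ws ih =>
    intro b h
    rw [List.flatten_cons] at h
    have hl : m + (z :: ws).length = m + ws.length + 1 := by simp; ring
    rw [hl] at h ⊢
    obtain ⟨h1, h2⟩ := h.halves
    have h3 := tl_succ (m + ws.length)
    rcases le_or_gt z.length (b + 1 + tl (m + ws.length)) with h4 | h4
    · obtain ⟨ws1, z', ws2, b', h5, h6, h7, h8⟩ := ih _ (h2.right h4)
      refine ⟨z :: ws1, z', ws2, b', by rw [h5]; rfl, h6, ?_, ?_⟩
      · rw [List.flatten_cons, List.length_append]
        omega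
      · rw [List.flatten_cons, List.length_append]
        omega
    · have h5 := h1.left (by omega)
      obtain ⟨b', h6, h7, h8⟩ := h5.sub
      refine ⟨[], z, ws, b', rfl, h6, ?_, ?_⟩
      · simp
        omega
      · simp
        omega

/-! ### Heights -/

/-- height at a position -/
noncomputable def hp (f x : T) (u : List T) (j : ℕ) : ℤ := ht f x (u.take j)

theorem hp_append {f x : T} (u v : List T) (j : ℕ) :
    hp f x (u ++ v) (u.length + j) = ht f x u + hp f x v j := by
  unfold hp
  rw [List.take_append, ht_append, List.take_of_length_le (by omega)]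
  congr 2
  rw [Nat.add_sub_cancel_left]

theorem hp_left {f x : T} (u v : List T) {j : ℕ} (h : j ≤ u.length) :
    hp f x (u ++ v) j = hp f x u j := by
  unfold hp
  rw [List.take_append_of_le_length h]

theorem hp_len {f x : T} (u : List T) : hp f x u u.length = ht f x u := by
  unfold hp
  rw [List.take_length]

theorem Blk.height {f x : T} (hfx : f ≠ x) {m b : ℕ} {u : List T} (h : Blk f x m b u) {j : ℕ}
    (h1 : b ≤ j) (h2 : j < b + tl m) : hp f x u b ≤ hp f x u j := by
  obtain ⟨α, β, rfl, rfl⟩ := h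
  obtain ⟨i, rfl⟩ : ∃ i, j = α.length + i := ⟨j - α.length, by omega⟩
  have hi : i < (tw f x m).length := by rw [len_tw]; omega
  rw [List.append_assoc, hp_append]
  have h3 := hp_append (f := f) (x := x) α (tw f x m ++ β) 0
  rw [Nat.add_zero] at h3
  rw [h3, hp_left _ _ hi.le]
  have h4 := ((luk_tw f x m).ht hfx).2 i hi
  have h5 : hp f x (tw f x m ++ β) 0 = 0 := by
    unfold hp
    rw [List.take_zero, ht_nil]
  rw [h5]
  unfold hp
  omega

/-- Two blocks `tw f x M` at positions `a1`, `a2`, with a deep valley `b` in between. -/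
structure Conf (f x : T) (u : List T) (a1 b a2 M : ℕ) (e : ℤ) : Prop where
  b1 : Blk f x M a1 u
  b2 : Blk f x M a2 u
  le1 : a1 + tl M ≤ b
  le2 : b ≤ a2
  h1 : hp f x u b = hp f x u a1 - 1 - e
  h2 : hp f x u a2 = hp f x u b + e

theorem tw_left (f x : T) (M e : ℕ) : ∃ rest,
    tw f x (M + e) = List.replicate e f ++ tw f x M ++ rest := by
  induction e with
  | zero => exact ⟨[], by simp⟩
  | succ e ih =>
    obtain ⟨rest, h⟩ := ih
    refine ⟨rest ++ tw f x (M + e), ?_⟩
    have h1 : tw f x (M + (e + 1)) = f :: (tw f x (M + e) ++ tw f x (M + e)) := rfl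
    rw [h1, List.replicate_succ]
    nth_rewrite 1 [h]
    simp

theorem ht_replicate {f x : T} (hfx : f ≠ x) (e : ℕ) : ht f x (List.replicate e f) = e := by
  induction e with
  | zero => simp [ht_nil]
  | succ e ih =>
    rw [List.replicate_succ, ht_cons_f hfx, ih]
    push_cast
    ring

theorem conf_of_blk {f x : T} (hfx : f ≠ x) {M e b0 : ℕ} {u : List T}
    (h : Blk f x (M + e + 1) b0 u) : ∃ a1 b a2, Conf f x u a1 b a2 M e := by
  obtain ⟨α, β, hu, -⟩ := h
  obtain ⟨rest, hr⟩ := tw_left f x M e
  have htw : tw f x (M + e + 1) = f :: (tw f x (M + e) ++ tw f x (M + e)) := rfl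
  have hhe : ht f x (tw f x (M + e)) = -1 := ((luk_tw f x (M + e)).ht hfx).1
  have hlr : (List.replicate e f : List T).length = e := List.length_replicate
  have e1 : u = (α ++ (f :: List.replicate e f)) ++ tw f x M ++
      (rest ++ tw f x (M + e) ++ β) := by
    rw [hu, htw]
    nth_rewrite 1 [hr]
    simp
  have e2 : u = (α ++ (f :: tw f x (M + e)) ++ List.replicate e f) ++ tw f x M ++
      (rest ++ β) := by
    rw [hu, htw]
    nth_rewrite 2 [hr]
    simp
  have e3 : u = (α ++ (f :: tw f x (M + e))) ++ (tw f x (M + e) ++ β) := by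
    rw [hu, htw]
    simp
  have hlen : (tw f x (M + e)).length = e + tl M + rest.length := by
    rw [hr]
    simp [len_tw]
    ring
  have key : ∀ p q : List T, u = p ++ q → hp f x u p.length = ht f x p := by
    intro p q h
    rw [h, hp_left _ _ (le_refl _), hp_len]
  refine ⟨(α ++ (f :: List.replicate e f)).length, (α ++ (f :: tw f x (M + e))).length,
    (α ++ (f :: tw f x (M + e)) ++ List.replicate e f).length, ⟨⟨_, _, e1, rfl⟩, ⟨_, _, e2, rfl⟩,
    ?_, ?_, ?_, ?_⟩⟩
  · simp only [List.length_append, List.length_cons, hlr, hlen]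
    omega
  · simp only [List.length_append]
    omega
  · rw [key _ _ e3, key _ _ (by rw [e1, List.append_assoc]), ht_append, ht_append,
      ht_cons_f hfx, ht_cons_f hfx, hhe, ht_replicate hfx]
    ring
  · rw [key _ _ e3, key _ _ (by rw [e2, List.append_assoc]), ht_append (f := f) (x := x)
      (α ++ (f :: tw f x (M + e))), ht_replicate hfx]

theorem Conf.mid {f x : T} {p z q : List T} {a1 b a2 M : ℕ} {e : ℤ}
    (h : Conf f x (p ++ z ++ q) a1 b a2 M e) (h1 : p.length ≤ a1)
    (h2 : a2 + tl M ≤ p.length + z.length) :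
    Conf f x z (a1 - p.length) (b - p.length) (a2 - p.length) M e := by
  have hl := h.le1
  have hl2 := h.le2
  have key : ∀ j, p.length ≤ j → j ≤ p.length + z.length →
      hp f x (p ++ z ++ q) j = ht f x p + hp f x z (j - p.length) := by
    intro j hj1 hj2
    rw [hp_left _ _ (by simp; omega)]
    have := hp_append (f := f) (x := x) p z (j - p.length)
    rw [show p.length + (j - p.length) = j by omega] at this
    exact this
  have k1 := key a1 h1 (by omega)
  have k2 := key b (by omega) (by omega)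
  have k3 := key a2 (by omega) (by omega)
  have c1 := h.h1
  have c2 := h.h2
  refine ⟨h.b1.mid h1 (by omega), h.b2.mid (by omega) h2, by omega, by omega, ?_, ?_⟩
  · omega
  · omega

theorem same_child {f x : T} (hfx : f ≠ x) (C : ℕ) {e : ℤ} (he : 2 * (C : ℤ) + 1 ≤ e)
    {M a1 b a2 : ℕ} {p z q : List T} (hconf : Conf f x (p ++ z ++ q) a1 b a2 M e)
    (hb : (∀ j, -(C : ℤ) ≤ ht f x (z.take j)) ∧ ht f x z ≤ C)
    (h1 : p.length < a1 + tl M) (h2 : a2 < p.length + z.length) :
    ∃ a1' b' a2', Conf f x z a1' b' a2' M e := by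
  have hl1 := hconf.le1
  have hl2 := hconf.le2
  have key : ∀ j, p.length ≤ j → j ≤ p.length + z.length →
      hp f x (p ++ z ++ q) j = ht f x p + hp f x z (j - p.length) := by
    intro j hj1 hj2
    rw [hp_left _ _ (by simp; omega)]
    have := hp_append (f := f) (x := x) p z (j - p.length)
    rw [show p.length + (j - p.length) = j by omega] at this
    exact this
  have kp := key p.length (le_refl _) (by omega)
  have kq := key (p.length + z.length) (by omega) (le_refl _)
  have kb := key b (by omega) (by omega)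
  have z0 : hp f x z (p.length - p.length) = 0 := by
    unfold hp
    rw [Nat.sub_self, List.take_zero, ht_nil]
  have z1 : hp f x z (p.length + z.length - p.length) = ht f x z := by
    rw [Nat.add_sub_cancel_left, hp_len]
  have z2 : -(C : ℤ) ≤ hp f x z (b - p.length) := hb.1 _
  rw [z0] at kp
  rw [z1] at kq
  have c1 := hconf.h1
  have c2 := hconf.h2
  rcases le_or_gt p.length a1 with hp1 | hp1
  · rcases le_or_gt (a2 + tl M) (p.length + z.length) with hq1 | hq1
    · exact ⟨_, _, _, hconf.mid hp1 hq1⟩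
    · exfalso
      have h7 := hconf.b2.height hfx (j := p.length + z.length) (by omega) hq1
      have h8 := hb.2
      omega
  · exfalso
    have h7 := hconf.b1.height hfx (j := p.length) (by omega) (by omega)
    omega

theorem childs {f x : T} (hfx : f ≠ x) (C : ℕ) {e : ℤ} (he : 2 * (C : ℤ) + 1 ≤ e) (m K : ℕ)
    (ws : List (List T)) (hK : ws.length ≤ K) {a1 b a2 : ℕ}
    (hconf : Conf f x ws.flatten a1 b a2 (m + K) e)
    (hb : ∀ ws1 z ws2, ws = ws1 ++ z :: ws2 →
      (∀ j, -(C : ℤ) ≤ ht f x (z.take j)) ∧ ht f x z ≤ C) :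
    (∃ ws1 z ws2 a1' b' a2', ws = ws1 ++ z :: ws2 ∧ Conf f x z a1' b' a2' (m + K) e) ∨
    (∃ ws1 z1 ws2 z2 ws3, ws = ws1 ++ z1 :: (ws2 ++ z2 :: ws3) ∧ (∃ c, Blk f x m c z1) ∧
      (∃ c, Blk f x m c z2)) := by
  obtain ⟨k, hk⟩ : ∃ k, m + K = m + ws.length + k := ⟨K - ws.length, by omega⟩
  have hB1 := hconf.b1
  have hB2 := hconf.b2
  have hl1 := hconf.le1
  have hl2 := hconf.le2
  rw [hk] at hB1 hB2
  obtain ⟨y1, hy1, hy2, hy3⟩ := hB1.sub
  obtain ⟨y2, hy4, hy5, hy6⟩ := hB2.sub
  obtain ⟨ws1, z, ws2, b1, h1, h2, h3, h4⟩ := pieces f x m ws y1 hy1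
  obtain ⟨ws1', z', ws2', b2, h1', h2', h3', h4'⟩ := pieces f x m ws y2 hy4
  rw [← hk] at hy3 hy6
  have ht1 := tl_pos m
  have hz := h2.le
  have hz' := h2'.le
  have hcmp := h1.symm.trans h1'
  rcases List.append_eq_append_iff.1 hcmp with ⟨a, h5, h6⟩ | ⟨c, h5, h6⟩
  · cases a with
    | cons y a =>
      right
      simp only [List.cons_append, List.cons.injEq] at h6
      obtain ⟨rfl, h6⟩ := h6
      exact ⟨ws1, z, a, z', ws2', by rw [h1, h6], ⟨b1, h2⟩, ⟨b2, h2'⟩⟩
    | nil =>
      left
      simp only [List.nil_append, List.cons.injEq] at h6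
      obtain ⟨rfl, rfl⟩ := h6
      simp only [List.append_nil] at h5
      subst h5
      have hflat : ws.flatten = ws1'.flatten ++ z ++ ws2.flatten := by
        rw [h1]
        simp
      rw [hflat] at hconf
      obtain ⟨a1', b', a2', h8⟩ := same_child hfx C he hconf (hb _ _ _ h1) (by omega) (by omega)
      exact ⟨_, z, _, a1', b', a2', h1, h8⟩
  · cases c with
    | nil =>
      left
      simp only [List.nil_append, List.cons.injEq] at h6
      obtain ⟨rfl, rfl⟩ := h6
      simp only [List.append_nil] at h5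
      subst h5
      have hflat : ws.flatten = ws1.flatten ++ z' ++ ws2'.flatten := by
        rw [h1]
        simp
      rw [hflat] at hconf
      obtain ⟨a1', b', a2', h8⟩ := same_child hfx C he hconf (hb _ _ _ h1) (by omega) (by omega)
      exact ⟨_, z', _, a1', b', a2', h1, h8⟩
    | cons y c =>
      exfalso
      simp only [List.cons_append, List.cons.injEq] at h6
      obtain ⟨rfl, h6⟩ := h6
      have h7 := congrArg (fun l : List (List T) => l.flatten.length) h5
      simp only [List.flatten_append, List.flatten_cons, List.length_append] at h7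
      omega

end Pool.Agent.K9h77.GF
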