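import Pool.Agent.K9h77.GF.Blocks

/-!
# Derivations of words with a large complete binary tree branch
-/

set_option autoImplicit false

namespace Pool.Agent.K9h77.GF

open List Classical

variable {T N : Type}

/-- The symbol `s` derives `u` within a derivation of `P u Q`, a word that starts with `f` and ends
with `x`. -/
structure Node (R : Set (ContextFreeRule T N)) (S : N) (f x : T) (s : Symbol T N)
    (P u Q : List T) : Prop where
  ctx : Dr R [Symbol.nonterminal S] (tm N P ++ [s] ++ tm N Q)
  der : Dr R [s] (tm N u)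
  hd : ∃ w1, P ++ u ++ Q = f :: w1
  ls : ∃ w2, P ++ u ++ Q = w2 ++ [x]

/-- heights bounded by `C` -/
def Bd (f x : T) (C : ℕ) (u : List T) : Prop :=
  (∀ j, -(C : ℤ) ≤ ht f x (u.take j)) ∧ ht f x u ≤ C

theorem Bd.mono {f x : T} {C C' : ℕ} (h : C ≤ C') {u : List T} (hb : Bd f x C u) :
    Bd f x C' u := by
  refine ⟨fun j => ?_, ?_⟩
  · have := hb.1 j
    omega
  · have := hb.2
    omega

theorem bd_nil (f x : T) (C : ℕ) : Bd f x C [] := by
  refine ⟨fun j => ?_, ?_⟩
  · rw [List.take_nil, ht_nil]
    omega
  · rw [ht_nil]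
    omega

theorem bd_type {R : Set (ContextFreeRule T N)} {S : N} {f x : T} (hfx : f ≠ x)
    (hLB : ∀ w : List T, w ≠ [] → Dr R [Symbol.nonterminal S] (tm N w) → w ∈ LB T)
    (s : Symbol T N) (b1 b2 : Prop) :
    ∃ C : ℕ, ∀ P u Q, Node R S f x s P u Q → (P = [] ↔ b1) → (Q = [] ↔ b2) → Bd f x C u := by
  by_cases h : ∃ P0 u0 Q0, Node R S f x s P0 u0 Q0 ∧ (P0 = [] ↔ b1) ∧ (Q0 = [] ↔ b2)
  · obtain ⟨P0, u0, Q0, h0, hP0, hQ0⟩ := h
    refine ⟨2 + (ht f x P0).natAbs + (ht f x Q0).natAbs, fun P u Q hn hP hQ => ?_⟩
    by_cases hu : u = []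
    · rw [hu]
      exact bd_nil _ _ _
    have hz : Dr R [Symbol.nonterminal S] (tm N (P0 ++ u ++ Q0)) := by
      have h1 := hn.der.ctx (tm N P0) (tm N Q0)
      have h2 := h0.ctx.trans h1
      simpa using h2
    have hz1 := hLB _ (by simp [hu]) hz
    have hhd : ∃ w1, P0 ++ u ++ Q0 = f :: w1 := by
      cases P0 with
      | nil =>
        have hP' : P = [] := hP.2 (hP0.1 rfl)
        obtain ⟨w1, h1⟩ := hn.hd
        rw [hP'] at h1
        cases u with
        | nil => exact absurd rfl hu
        | cons c u =>
          simp only [List.nil_append, List.cons_append, List.cons.injEq] at h1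
          exact ⟨u ++ Q0, by simp [h1.1]⟩
      | cons c P0 =>
        obtain ⟨w1, h1⟩ := h0.hd
        simp only [List.cons_append, List.cons.injEq] at h1
        exact ⟨P0 ++ u ++ Q0, by simp [h1.1]⟩
    have hls : ∃ w2, P0 ++ u ++ Q0 = w2 ++ [x] := by
      rcases List.eq_nil_or_concat Q0 with hq | ⟨Q0', c, hq⟩
      · have hQ' : Q = [] := hQ.2 (hQ0.1 hq)
        obtain ⟨w2, h1⟩ := hn.ls
        rw [hQ', List.append_nil] at h1
        rcases List.eq_nil_or_concat u with hu' | ⟨u', c, hu'⟩
        · exact absurd hu' hu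
        · rw [hu', List.concat_eq_append, ← List.append_assoc] at h1
          have h2 := List.append_inj_right' h1 rfl
          refine ⟨P0 ++ u', ?_⟩
          rw [hq, hu', List.concat_eq_append, ← h2]
          simp
      · obtain ⟨w2, h1⟩ := h0.ls
        rw [hq, List.concat_eq_append, ← List.append_assoc] at h1
        have h2 := List.append_inj_right' h1 rfl
        refine ⟨P0 ++ u ++ Q0', ?_⟩
        rw [hq, List.concat_eq_append, ← h2]
        simp
    obtain ⟨k1, k2, k3⟩ := LB_star hfx hz1 hhd hls
    refine ⟨fun j => ?_, ?_⟩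
    · rcases le_or_gt j u.length with hj | hj
      · have h4 := k3 (P0.length + j)
        rw [List.append_assoc, List.take_append, ht_append,
          List.take_of_length_le (by omega : P0.length ≤ P0.length + j),
          Nat.add_sub_cancel_left, List.take_append_of_le_length hj] at h4
        omega
      · have h4 := k3 (P0.length + u.length)
        rw [List.append_assoc, List.take_append, ht_append,
          List.take_of_length_le (by omega : P0.length ≤ P0.length + u.length),
          Nat.add_sub_cancel_left, List.take_append_of_le_length (le_refl _),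
          List.take_length] at h4
        rw [List.take_of_length_le hj.le]
        omega
    · rw [ht_append, ht_append] at k1
      omega
  · refine ⟨0, fun P u Q hn hP hQ => ?_⟩
    exact absurd ⟨P, u, Q, hn, hP, hQ⟩ h

theorem bd_symbol {R : Set (ContextFreeRule T N)} {S : N} {f x : T} (hfx : f ≠ x)
    (hLB : ∀ w : List T, w ≠ [] → Dr R [Symbol.nonterminal S] (tm N w) → w ∈ LB T)
    (s : Symbol T N) : ∃ C : ℕ, ∀ P u Q, Node R S f x s P u Q → Bd f x C u := by
  obtain ⟨C1, h1⟩ := bd_type hfx hLB s True True
  obtain ⟨C2, h2⟩ := bd_type hfx hLB s True False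
  obtain ⟨C3, h3⟩ := bd_type hfx hLB s False True
  obtain ⟨C4, h4⟩ := bd_type hfx hLB s False False
  refine ⟨C1 + C2 + C3 + C4, fun P u Q hn => ?_⟩
  by_cases hP : P = []
  · by_cases hQ : Q = []
    · exact (h1 P u Q hn (by simp [hP]) (by simp [hQ])).mono (by omega)
    · exact (h2 P u Q hn (by simp [hP]) (by simp [hQ])).mono (by omega)
  · by_cases hQ : Q = []
    · exact (h3 P u Q hn (by simp [hP]) (by simp [hQ])).mono (by omega)
    · exact (h4 P u Q hn (by simp [hP]) (by simp [hQ])).mono (by omega)

theorem bd_terminal {R : Set (ContextFreeRule T N)} {S : N} {f x : T} {c : T}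
    {P u Q : List T} (h : Node R S f x (Symbol.terminal c) P u Q) : Bd f x 1 u := by
  obtain ⟨n, h1⟩ := h.der
  have h2 := h1.terminal
  have h3 : u = [c] := tm_inj (N := N) (by rw [h2]; rfl)
  subst h3
  have h4 : ∀ v : List T, v.length ≤ 1 → -1 ≤ ht f x v ∧ ht f x v ≤ 1 := by
    intro v hv
    have h5 := List.count_le_length (a := f) (l := v)
    have h6 := List.count_le_length (a := x) (l := v)
    unfold ht
    omega
  refine ⟨fun j => ?_, ?_⟩
  · exact_mod_cast (h4 _ (by simp)).1
  · exact_mod_cast (h4 _ (by simp)).2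

theorem bd_all {R : Set (ContextFreeRule T N)} (hR : R.Finite) {S : N} {f x : T} (hfx : f ≠ x)
    (hLB : ∀ w : List T, w ≠ [] → Dr R [Symbol.nonterminal S] (tm N w) → w ∈ LB T) :
    ∃ C : ℕ, ∀ s P u Q, Node R S f x s P u Q → Bd f x C u := by
  choose C hC using fun A : N => bd_symbol hfx hLB (Symbol.nonterminal A)
  obtain ⟨B, hB⟩ := (hR.image (fun r => C r.input)).bddAbove
  refine ⟨max B 1, fun s P u Q hn => ?_⟩
  cases s with
  | terminal c => exact (bd_terminal hn).mono (le_max_right _ _)
  | nonterminal A =>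
    have hA : ∃ r ∈ R, r.input = A := by
      obtain ⟨n, h1⟩ := hn.der
      cases n with
      | zero =>
        exfalso
        generalize hw : tm N u = w at h1
        cases h1
        cases u with
        | nil => simp at hw
        | cons c u => simp at hw
      | succ n =>
        obtain ⟨r, hr, h2, -⟩ := h1.head
        exact ⟨r, hr, h2⟩
    obtain ⟨r, hr, hrA⟩ := hA
    refine (hC A P u Q hn).mono ?_
    have := hB ⟨r, hr, rfl⟩
    simp only [hrA] at this
    exact this.trans (le_max_left _ _)

theorem forall₂_append_right {α β : Type} {R : α → β → Prop} : ∀ {m₁ m₂ : List β} {l : List α},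
    List.Forall₂ R l (m₁ ++ m₂) →
    ∃ l₁ l₂, l = l₁ ++ l₂ ∧ List.Forall₂ R l₁ m₁ ∧ List.Forall₂ R l₂ m₂ := by
  intro m₁
  induction m₁ with
  | nil =>
    intro m₂ l h
    exact ⟨[], l, rfl, List.Forall₂.nil, h⟩
  | cons x m₁ ih =>
    intro m₂ l h
    cases h with
    | cons h1 h2 =>
      obtain ⟨l₁, l₂, rfl, h3, h4⟩ := ih h2
      exact ⟨_ :: l₁, l₂, rfl, List.Forall₂.cons h1 h3, h4⟩

theorem dr_flat {R : Set (ContextFreeRule T N)} {n : ℕ} {γ : List (Symbol T N)}
    {us : List (List T)} (h : List.Forall₂ (fun s u => ∃ m ≤ n, DN R m [s] (tm N u)) γ us) :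
    Dr R γ (tm N us.flatten) := by
  have h1 : List.Forall₂ (fun s w => Dr R [s] w) γ (us.map (tm N)) := by
    rw [List.forall₂_map_right_iff]
    exact h.imp fun _ _ ⟨m, _, h⟩ => ⟨m, h⟩
  have h2 := Dr.flatten h1
  have h3 : (us.map (tm N)).flatten = tm N us.flatten := by
    simp [List.map_flatten]
  rw [h3] at h2
  exact h2

/-- A child of a node is a node. -/
theorem Node.child {R : Set (ContextFreeRule T N)} {S : N} {f x : T} {s s' : Symbol T N}
    {P u Q u1 z u2 : List T} (hn : Node R S f x s P u Q) (hu : u = u1 ++ z ++ u2)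
    (h1 : Dr R [s] (tm N u1 ++ [s'] ++ tm N u2)) (h2 : Dr R [s'] (tm N z)) :
    Node R S f x s' (P ++ u1) z (u2 ++ Q) := by
  refine ⟨?_, h2, ?_, ?_⟩
  · have h3 := hn.ctx.trans (h1.ctx (tm N P) (tm N Q))
    simpa using h3
  · obtain ⟨w1, h3⟩ := hn.hd
    exact ⟨w1, by rw [← h3, hu]; simp⟩
  · obtain ⟨w1, h3⟩ := hn.ls
    exact ⟨w1, by rw [← h3, hu]; simp⟩

theorem nt_of_len {R : Set (ContextFreeRule T N)} {s : Symbol T N} {z : List T}
    (h : Dr R [s] (tm N z)) (hz : 2 ≤ z.length) : ∃ B, s = Symbol.nonterminal B := by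
  cases s with
  | nonterminal B => exact ⟨B, rfl⟩
  | terminal c =>
    exfalso
    obtain ⟨n, h⟩ := h
    have h1 := congrArg List.length h.terminal
    simp at h1
    omega

theorem branch {R R' : Set (ContextFreeRule T N)} (hR' : R' ⊆ R) {S : N} {f x : T}
    (hfx : f ≠ x) {K : ℕ} (hK : ∀ r ∈ R, r.output.length ≤ K) {C : ℕ}
    (hC : ∀ s P u Q, Node R S f x s P u Q → Bd f x C u) {e : ℤ} (he : 2 * (C : ℤ) + 1 ≤ e)
    {m : ℕ} (hm : 1 ≤ m) :
    ∀ (n : ℕ) (A : N) (P u Q : List T), Node R S f x (Symbol.nonterminal A) P u Q →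
      DN R' n [Symbol.nonterminal A] (tm N u) → ∀ a1 b a2, Conf f x u a1 b a2 (m + K) e →
      ∃ (B1 B2 : N) (p u1 q u2 r : List T), u = p ++ u1 ++ q ++ u2 ++ r ∧
        Dr R' [Symbol.nonterminal A] (tm N p ++ [Symbol.nonterminal B1] ++ tm N q ++
          [Symbol.nonterminal B2] ++ tm N r) ∧
        Dr R' [Symbol.nonterminal B1] (tm N u1) ∧ Dr R' [Symbol.nonterminal B2] (tm N u2) ∧
        (∃ c, Blk f x m c u1) ∧ (∃ c, Blk f x m c u2) := by
  intro n
  induction n using Nat.strong_induction_on with
  | _ n ih =>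
    intro A P u Q hn hd a1 b a2 hconf
    cases n with
    | zero =>
      exfalso
      generalize hw : tm N u = w at hd
      cases hd
      cases u with
      | nil => simp at hw
      | cons c u => simp at hw
    | succ n =>
      obtain ⟨r, hr, hrA, hd'⟩ := hd.head
      obtain ⟨us, hus, hf⟩ := hd'.childrenT
      have hrule : Dr R' [Symbol.nonterminal A] r.output := by
        rw [← hrA]
        exact Dr.rule hr
      have hlen : us.length ≤ K := by
        rw [← hf.length_eq]
        exact hK r (hR' hr)
      have hchild : ∀ us1 z us2, us = us1 ++ z :: us2 → ∃ s, (∃ m ≤ n, DN R' m [s] (tm N z)) ∧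
          Dr R' [Symbol.nonterminal A] (tm N us1.flatten ++ [s] ++ tm N us2.flatten) ∧
          Node R S f x s (P ++ us1.flatten) z (us2.flatten ++ Q) := by
        intro us1 z us2 h1
        rw [h1] at hf
        obtain ⟨l₁, l₂, h2, h3, h4⟩ := forall₂_append_right hf
        cases h4 with
        | @cons s _ l₂' _ h5 h6 =>
          have h7 : Dr R' [Symbol.nonterminal A] (tm N us1.flatten ++ [s] ++ tm N us2.flatten) := by
            refine hrule.trans ?_
            rw [h2]
            have h8 := ((dr_flat h3).append (Dr.refl [s])).append (dr_flat h6)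
            simpa using h8
          refine ⟨s, h5, h7, ?_⟩
          obtain ⟨k, _, h9⟩ := h5
          exact hn.child (by rw [hus, h1]; simp) (h7.mono hR') (Dr.mono hR' ⟨k, h9⟩)
      have hb : ∀ ws1 z ws2, us = ws1 ++ z :: ws2 →
          (∀ j, -(C : ℤ) ≤ ht f x (z.take j)) ∧ ht f x z ≤ C := by
        intro us1 z us2 h1
        obtain ⟨s, _, _, h2⟩ := hchild us1 z us2 h1
        exact hC s _ _ _ h2
      rw [hus] at hconf
      rcases childs hfx C he m K us hlen hconf hb with
        ⟨us1, z, us2, a1', b', a2', h1, h2⟩ | ⟨us1, z1, us2, z2, us3, h1, h2, h3⟩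
      · obtain ⟨s, ⟨k, hk, hdk⟩, h4, h5⟩ := hchild us1 z us2 h1
        have hz : 2 ≤ z.length := by
          have h6 := h2.b1.le
          have h7 := three_le_tl (show 1 ≤ m + K by omega)
          omega
        obtain ⟨B, rfl⟩ := nt_of_len ⟨k, hdk⟩ hz
        obtain ⟨B1, B2, p, u1, q, u2, r', g1, g2, g3, g4, g5, g6⟩ :=
          ih k (by omega) B _ z _ h5 hdk a1' b' a2' h2
        refine ⟨B1, B2, us1.flatten ++ p, u1, q, u2, r' ++ us2.flatten, ?_, ?_, g3, g4, g5, g6⟩
        · rw [hus, h1, g1]
          simp
        · have h8 := h4.trans (g2.ctx (tm N us1.flatten) (tm N us2.flatten))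
          simpa using h8
      · obtain ⟨c1, h2'⟩ := h2
        obtain ⟨c2, h3'⟩ := h3
        have h7 := three_le_tl hm
        have hl1 := h2'.le
        have hl2 := h3'.le
        rw [h1] at hf
        obtain ⟨l₁, l₂, g2, g3, g4⟩ := forall₂_append_right hf
        cases g4 with
        | @cons s1 _ l₂' _ g5 g6 =>
          obtain ⟨l₃, l₄, g7, g8, g9⟩ := forall₂_append_right g6
          cases g9 with
          | @cons s2 _ l₄' _ g10 g11 =>
            obtain ⟨k1, _, hk1⟩ := g5
            obtain ⟨k2, _, hk2⟩ := g10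
            obtain ⟨B1, rfl⟩ := nt_of_len ⟨k1, hk1⟩ (by omega : 2 ≤ z1.length)
            obtain ⟨B2, rfl⟩ := nt_of_len ⟨k2, hk2⟩ (by omega : 2 ≤ z2.length)
            refine ⟨B1, B2, us1.flatten, z1, us2.flatten, z2, us3.flatten, ?_, ?_, ⟨k1, hk1⟩,
              ⟨k2, hk2⟩, ⟨c1, h2'⟩, ⟨c2, h3'⟩⟩
            · rw [hus, h1]
              simp
            · refine hrule.trans ?_
              rw [g2, g7]
              have h8 := (((dr_flat g3).append (Dr.refl [Symbol.nonterminal B1])).append
                (dr_flat g8)).append ((Dr.refl [Symbol.nonterminal B2]).append (dr_flat g11))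
              simpa using h8

/-- The rules with left side in `F`. -/
def RF (R : Set (ContextFreeRule T N)) (F : Set N) : Set (ContextFreeRule T N) :=
  {r | r ∈ R ∧ r.input ∈ F}

theorem RF_sub (R : Set (ContextFreeRule T N)) (F : Set N) : RF R F ⊆ R := fun _ h => h.1

theorem RF_mono (R : Set (ContextFreeRule T N)) {F F' : Set N} (h : F ⊆ F') :
    RF R F ⊆ RF R F' := fun _ hr => ⟨hr.1, h hr.2⟩

theorem reach {R : Set (ContextFreeRule T N)} {F : Set N} {A : N} :
    ∀ (n : ℕ) (s : Symbol T N) (u : List T), DN (RF R F) n [s] (tm N u) →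
      Dr (RF R (F \ {A})) [s] (tm N u) ∨ ∃ p y q, u = p ++ y ++ q ∧
        Dr (RF R F) [s] (tm N p ++ [Symbol.nonterminal A] ++ tm N q) ∧
        Dr (RF R F) [Symbol.nonterminal A] (tm N y) := by
  intro n
  induction n using Nat.strong_induction_on with
  | _ n ih =>
    intro s u hd
    cases s with
    | terminal c =>
      left
      have h1 := hd.terminal
      rw [h1]
      exact Dr.refl _
    | nonterminal B =>
      by_cases hBA : B = A
      · right
        subst hBA
        exact ⟨[], u, [], by simp, Dr.refl _, ⟨n, hd⟩⟩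
      cases n with
      | zero =>
        exfalso
        generalize hw : tm N u = w at hd
        cases hd
        cases u with
        | nil => simp at hw
        | cons c u => simp at hw
      | succ n =>
        obtain ⟨r, hr, hrA, hd'⟩ := hd.head
        obtain ⟨us, hus, hf⟩ := hd'.childrenT
        have hrule : Dr (RF R F) [Symbol.nonterminal B] r.output := by
          rw [← hrA]
          exact Dr.rule hr
        by_cases hall : ∀ p ∈ List.zip r.output us, Dr (RF R (F \ {A})) [p.1] (tm N p.2)
        · left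
          have h1 : List.Forall₂ (fun s w => Dr (RF R (F \ {A})) [s] w) r.output
              (us.map (tm N)) := by
            rw [List.forall₂_map_right_iff, List.forall₂_iff_zip]
            exact ⟨hf.length_eq, fun {a b} hab => hall (a, b) hab⟩
          have h2 := Dr.flatten h1
          have h3 : (us.map (tm N)).flatten = tm N us.flatten := by
            simp [List.map_flatten]
          rw [h3, ← hus] at h2
          refine Dr.trans ?_ h2
          rw [← hrA]
          exact Dr.rule ⟨hr.1, hr.2, by simpa [hrA] using hBA⟩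
        · right
          push Not at hall
          obtain ⟨⟨s', z⟩, hmem, hnot⟩ := hall
          obtain ⟨i, hi, hget⟩ := List.getElem_of_mem hmem
          rw [List.length_zip] at hi
          rw [List.getElem_zip] at hget
          have hi1 : i < r.output.length := by omega
          have hi2 : i < us.length := by omega
          have e1 : us = us.take i ++ us[i] :: us.drop (i + 1) := by
            rw [List.getElem_cons_drop, List.take_append_drop]
          have hz : us[i] = z := (Prod.mk.inj hget).2
          have hs : r.output[i] = s' := (Prod.mk.inj hget).1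
          rw [hz] at e1
          have hf' := hf
          rw [e1] at hf'
          obtain ⟨l₁, l₂, g2, g3, g4⟩ := forall₂_append_right hf'
          cases g4 with
          | @cons s1 _ l₂' _ g5 g6 =>
            have hs1 : s1 = s' := by
              have hl : l₁.length = i := by
                rw [g3.length_eq, List.length_take]
                omega
              rw [← hs]
              simp [g2, hl]
            subst hs1
            obtain ⟨k, hk, hdk⟩ := g5
            rcases ih k (by omega) s1 z hdk with h1 | ⟨p, y, q, h1, h2, h3⟩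
            · exact absurd h1 hnot
            · refine ⟨(us.take i).flatten ++ p, y, q ++ (us.drop (i + 1)).flatten, ?_, ?_, h3⟩
              · conv_lhs => rw [hus, e1]
                rw [h1]
                simp
              · refine hrule.trans ?_
                rw [g2]
                have h8 := ((dr_flat g3).append h2).append (dr_flat g6)
                simpa using h8

/-- A derivation of a word with a huge block reproduces some nonterminal twice. -/
theorem reproduce {R : Set (ContextFreeRule T N)} {S : N} {f x : T}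
    (hfx : f ≠ x) {K : ℕ} (hK : ∀ r ∈ R, r.output.length ≤ K) {C : ℕ}
    (hC : ∀ s P u Q, Node R S f x s P u Q → Bd f x C u) {e : ℕ} (he : 2 * C + 1 ≤ e) :
    ∀ (k : ℕ) (F : Finset N), F.card ≤ k → ∀ (B : N) (P u Q : List T),
      Node R S f x (Symbol.nonterminal B) P u Q →
      Dr (RF R (F : Set N)) [Symbol.nonterminal B] (tm N u) →
      (∃ c, Blk f x ((K + e + 1) * k + 1) c u) →
      ∃ (X : N) (P1 y Q1 p q r : List T), P ++ u ++ Q = P1 ++ y ++ Q1 ∧ y ≠ [] ∧
        Dr R [Symbol.nonterminal S] (tm N P1 ++ [Symbol.nonterminal X] ++ tm N Q1) ∧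
        Dr R [Symbol.nonterminal X] (tm N p ++ [Symbol.nonterminal X] ++ tm N q ++
          [Symbol.nonterminal X] ++ tm N r) ∧
        Dr R [Symbol.nonterminal X] (tm N y) ∧
        (∀ c ∈ p ++ q ++ r, c ∈ y) := by
  intro k
  induction k with
  | zero =>
    intro F hF B P u Q hn hd hblk
    exfalso
    obtain ⟨n, hd⟩ := hd
    cases n with
    | zero =>
      generalize hw : tm N u = w at hd
      cases hd
      cases u with
      | nil => simp at hw
      | cons c u => simp at hw
    | succ n =>
      obtain ⟨r, hr, -, -⟩ := hd.head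
      have hF0 : F = ∅ := Finset.card_eq_zero.1 (by omega)
      have := hr.2
      simp [hF0] at this
  | succ k ih =>
    intro F hF B P u Q hn hd hblk
    obtain ⟨c, hblk⟩ := hblk
    obtain ⟨a1, b, a2, hconf⟩ := conf_of_blk hfx (M := ((K + e + 1) * k + 1) + K) (e := e)
      (b0 := c) (u := u) (by
        have h1 : (K + e + 1) * (k + 1) + 1 = ((K + e + 1) * k + 1) + K + e + 1 := by ring
        rw [← h1]
        exact hblk)
    have hBF : B ∈ F := by
      obtain ⟨n, hd⟩ := hd
      cases n with
      | zero =>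
        exfalso
        generalize hw : tm N u = w at hd
        cases hd
        cases u with
        | nil => simp at hw
        | cons c u => simp at hw
      | succ n =>
        obtain ⟨r, hr, hrB, -⟩ := hd.head
        have := hr.2
        rw [hrB] at this
        exact this
    have hsub := RF_sub R (F : Set N)
    obtain ⟨n, hdn⟩ := hd
    obtain ⟨B1, B2, p, u1, q, u2, r, h1, h2, h3, h4, h5, h6⟩ :=
      branch (R' := RF R (F : Set N)) hsub hfx hK hC
        (e := (e : ℤ)) (by exact_mod_cast he) (m := (K + e + 1) * k + 1) (by omega)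
        n B P u Q hn hdn a1 b a2 hconf
    have hcard : (F.erase B).card ≤ k := by
      rw [Finset.card_erase_of_mem hBF]
      omega
    have hset : ((F : Set N) \ {B}) = ((F.erase B : Finset N) : Set N) := by
      simp
    obtain ⟨n1, h3'⟩ := h3
    obtain ⟨n2, h4'⟩ := h4
    have hn1 : Node R S f x (Symbol.nonterminal B1) (P ++ p) u1 (q ++ u2 ++ r ++ Q) := by
      refine hn.child (u2 := q ++ u2 ++ r) (by rw [h1]; simp) ?_ (Dr.mono hsub ⟨n1, h3'⟩)
      have h7 := (h2.mono hsub).trans
        ((Dr.mono hsub ⟨n2, h4'⟩).ctx (tm N p ++ [Symbol.nonterminal B1] ++ tm N q) (tm N r))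
      simpa using h7
    have hn2 : Node R S f x (Symbol.nonterminal B2) (P ++ (p ++ u1 ++ q)) u2 (r ++ Q) := by
      refine hn.child (u2 := r) h1 ?_ (Dr.mono hsub ⟨n2, h4'⟩)
      have h7 := (h2.mono hsub).trans
        (by
          have h8 := ((Dr.mono hsub ⟨n1, h3'⟩).ctx (tm N p) (tm N q ++
            [Symbol.nonterminal B2] ++ tm N r))
          simpa using h8 : Dr R (tm N p ++ [Symbol.nonterminal B1] ++ tm N q ++
          [Symbol.nonterminal B2] ++ tm N r) (tm N (p ++ u1 ++ q) ++
            [Symbol.nonterminal B2] ++ tm N r))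
      exact h7
    rcases reach (A := B) n1 _ _ h3' with h7 | ⟨p1, y1, q1, h7, h8, h9⟩
    · rw [hset] at h7
      obtain ⟨X, P1, y, Q1, p', q', r', g1, g2⟩ := ih (F.erase B) hcard B1 _ _ _ hn1 h7 h5
      refine ⟨X, P1, y, Q1, p', q', r', ?_, g2⟩
      rw [← g1, h1]
      simp
    · rcases reach (A := B) n2 _ _ h4' with h7' | ⟨p2, y2, q2, h7', h8', h9'⟩
      · rw [hset] at h7'
        obtain ⟨X, P1, y, Q1, p', q', r', g1, g2⟩ := ih (F.erase B) hcard B2 _ _ _ hn2 h7' h6
        refine ⟨X, P1, y, Q1, p', q', r', ?_, g2⟩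
        rw [← g1, h1]
        simp
      · refine ⟨B, P, u, Q, p ++ p1, q1 ++ q ++ p2, q2 ++ r, rfl, ?_, hn.ctx, ?_, hn.der, ?_⟩
        · rintro rfl
          have := hblk.le
          have := tl_pos ((K + e + 1) * (k + 1) + 1)
          simp at *
          omega
        · have g1 := (h2.mono hsub).trans ((((Dr.refl (tm N p)).append (h8.mono hsub)).append
            (Dr.refl (tm N q))).append ((h8'.mono hsub).append (Dr.refl (tm N r))) |> fun h => by
              simpa using h)
          simpa using g1
        · intro c hc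
          rw [h1, h7, h7']
          simp only [List.mem_append] at hc ⊢
          tauto

end Pool.Agent.K9h77.GF
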