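import Pool.Agent.K9h77.GF.Base

/-!
# Corner languages of a context-free grammar

For symbols `s`, `Y` the left corner language is `{v | s ⇒* Y v}`, the right corner language is
`{v | s ⇒* v Y}`. A letter can be removed at either end of a word of one of these languages, the
rest being in a product of boundedly many of them.
-/

set_option autoImplicit false

namespace Pool.Agent.K9h77.GF

open List Classical

variable {T N : Type}

/-- A letter can be removed on the left. -/
def PeelL (X : Set (Language T)) (l : ℕ) (K : Language T) : Prop :=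
  ∀ (c : T) (v : List T), (c :: v) ∈ K → ∃ τ : List (Language T), (∀ ξ ∈ τ, ξ ∈ X) ∧
    τ.length ≤ l ∧ v ∈ τ.prod ∧ ∀ z ∈ τ.prod, (c :: z) ∈ K

/-- A letter can be removed on the right. -/
def PeelR (X : Set (Language T)) (l : ℕ) (K : Language T) : Prop :=
  ∀ (v : List T) (c : T), (v ++ [c]) ∈ K → ∃ τ : List (Language T), (∀ ξ ∈ τ, ξ ∈ X) ∧
    τ.length ≤ l ∧ v ∈ τ.prod ∧ ∀ z ∈ τ.prod, (z ++ [c]) ∈ K

/-- words derived from a symbol -/
def Lg (R : Set (ContextFreeRule T N)) (s : Symbol T N) : Language T :=
  {v : List T | Dr R [s] (tm N v)}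

/-- left corner language -/
def LC (R : Set (ContextFreeRule T N)) (s Y : Symbol T N) : Language T :=
  {v : List T | Dr R [s] ([Y] ++ tm N v)}

/-- right corner language -/
def RC (R : Set (ContextFreeRule T N)) (s Y : Symbol T N) : Language T :=
  {v : List T | Dr R [s] (tm N v ++ [Y])}

/-- The symbols of a grammar. -/
def Sy (R : Set (ContextFreeRule T N)) (S : N) : Set (Symbol T N) :=
  {s | (∃ c, s = Symbol.terminal c) ∨ s = Symbol.nonterminal S ∨
    ∃ r ∈ R, s ∈ r.output ∨ s = Symbol.nonterminal r.input}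

/-- The basic languages of a grammar. -/
def Xi (R : Set (ContextFreeRule T N)) (S : N) : Set (Language T) :=
  {K | (∃ s ∈ Sy R S, K = Lg R s) ∨ (∃ s ∈ Sy R S, ∃ Y ∈ Sy R S, K = LC R s Y) ∨
    (∃ s ∈ Sy R S, ∃ Y ∈ Sy R S, K = RC R s Y)}

theorem finite_Sy [Finite T] {R : Set (ContextFreeRule T N)} (hR : R.Finite) (S : N) :
    (Sy R S).Finite := by
  have h1 := Set.finite_range (fun c : T => (Symbol.terminal c : Symbol T N))
  have h2 : (⋃ r ∈ R, ({s | s ∈ r.output ∨ s = Symbol.nonterminal r.input} :
      Set (Symbol T N))).Finite := by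
    refine hR.biUnion fun r _ => ?_
    have h3 : ({s | s ∈ r.output} : Set (Symbol T N)).Finite := List.finite_toSet r.output
    exact h3.union (Set.finite_singleton _)
  refine (h1.union ((Set.finite_singleton (Symbol.nonterminal S)).union h2)).subset ?_
  rintro s (⟨c, rfl⟩ | rfl | ⟨r, hr, h⟩)
  · exact Or.inl ⟨c, rfl⟩
  · exact Or.inr (Or.inl rfl)
  · exact Or.inr (Or.inr (Set.mem_biUnion hr h))

theorem finite_Xi [Finite T] {R : Set (ContextFreeRule T N)} (hR : R.Finite) (S : N) :
    (Xi R S).Finite := by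
  have h := finite_Sy hR S
  refine ((h.image (Lg R)).union (((h.prod h).image (fun p => LC R p.1 p.2)).union
    ((h.prod h).image (fun p => RC R p.1 p.2)))).subset ?_
  rintro K (⟨s, hs, rfl⟩ | ⟨s, hs, Y, hY, rfl⟩ | ⟨s, hs, Y, hY, rfl⟩)
  · exact Or.inl ⟨s, hs, rfl⟩
  · exact Or.inr (Or.inl ⟨(s, Y), ⟨hs, hY⟩, rfl⟩)
  · exact Or.inr (Or.inr ⟨(s, Y), ⟨hs, hY⟩, rfl⟩)

theorem mem_Lg {R : Set (ContextFreeRule T N)} {s : Symbol T N} {v : List T} :
    v ∈ Lg R s ↔ Dr R [s] (tm N v) := Iff.rfl

theorem mem_LC {R : Set (ContextFreeRule T N)} {s Y : Symbol T N} {v : List T} :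
    v ∈ LC R s Y ↔ Dr R [s] ([Y] ++ tm N v) := Iff.rfl

theorem mem_RC {R : Set (ContextFreeRule T N)} {s Y : Symbol T N} {v : List T} :
    v ∈ RC R s Y ↔ Dr R [s] (tm N v ++ [Y]) := Iff.rfl

theorem Lg_terminal (R : Set (ContextFreeRule T N)) (c : T) :
    Lg R (Symbol.terminal c) = oneL [c] := by
  ext v
  rw [mem_Lg, mem_oneL]
  constructor
  · rintro ⟨n, h⟩
    exact tm_inj (N := N) (by rw [h.terminal]; rfl)
  · rintro rfl
    exact Dr.refl _

/-- Words derived from a string. -/
theorem mem_prod_Lg {R : Set (ContextFreeRule T N)} {γ : List (Symbol T N)} {v : List T} :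
    v ∈ (γ.map (Lg R)).prod ↔ Dr R γ (tm N v) := by
  induction γ generalizing v with
  | nil =>
    rw [List.map_nil, List.prod_nil, Language.mem_one]
    constructor
    · rintro rfl
      exact Dr.refl _
    · rintro ⟨n, h⟩
      exact tm_inj (N := N) (by rw [h.nil]; rfl)
  | cons s γ ih =>
    rw [List.map_cons, List.prod_cons, Language.mem_mul]
    constructor
    · rintro ⟨a, ha, b, hb, rfl⟩
      have h := Dr.append (mem_Lg.1 ha) (ih.1 hb)
      simpa using h
    · rintro ⟨n, h⟩
      obtain ⟨n1, n2, w1, w2, -, rfl, h3, h4⟩ := DN.splitT (u := [s]) (v := γ) h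
      exact ⟨w1, ⟨n1, h3⟩, w2, ih.2 ⟨n2, h4⟩, rfl⟩

/-- The symbol of a string from which the first letter of the derived string comes. -/
theorem first_sym {R : Set (ContextFreeRule T N)} {Y : Symbol T N} :
    ∀ (γ : List (Symbol T N)) (n : ℕ) (v : List T), DN R n γ ([Y] ++ tm N v) →
      ∃ γ1 s γ2 v1 v2 m, γ = γ1 ++ s :: γ2 ∧ m ≤ n ∧ Dr R γ1 [] ∧
        DN R m [s] ([Y] ++ tm N v1) ∧ Dr R γ2 (tm N v2) ∧ v = v1 ++ v2 := by
  intro γ
  induction γ with
  | nil =>
    intro n v h
    have := h.nil
    simp at this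
  | cons s γ ih =>
    intro n v h
    obtain ⟨n1, n2, w1, w2, h1, h2, h3, h4⟩ := DN.split (u := [s]) (v := γ) h
    cases w1 with
    | nil =>
      rw [List.nil_append] at h2
      rw [← h2] at h4
      obtain ⟨γ1, s', γ2, v1, v2, m, g1, g2, g3, g4, g5, g6⟩ := ih n2 v h4
      refine ⟨s :: γ1, s', γ2, v1, v2, m, by rw [g1]; rfl, by omega, ?_, g4, g5, g6⟩
      have h5 : Dr R [s] [] := ⟨n1, h3⟩
      simpa using h5.append g3
    | cons y w1 =>
      simp only [List.cons_append, List.nil_append, List.cons.injEq] at h2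
      obtain ⟨rfl, h2⟩ := h2
      obtain ⟨v1, v2, rfl, rfl, rfl⟩ := tm_eq_append h2
      exact ⟨[], s, γ, v1, v2, n1, rfl, by omega, Dr.refl _, h3, ⟨n2, h4⟩, rfl⟩

theorem sy_output {R : Set (ContextFreeRule T N)} {S : N} {r : ContextFreeRule T N}
    (hr : r ∈ R) {s : Symbol T N} (hs : s ∈ r.output) : s ∈ Sy R S :=
  Or.inr (Or.inr ⟨r, hr, Or.inl hs⟩)

theorem sy_input {R : Set (ContextFreeRule T N)} {S : N} {r : ContextFreeRule T N}
    (hr : r ∈ R) : Symbol.nonterminal r.input ∈ Sy R S :=
  Or.inr (Or.inr ⟨r, hr, Or.inr rfl⟩)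

theorem sy_tm {R : Set (ContextFreeRule T N)} {S : N} (c : T) : Symbol.terminal c ∈ Sy R S :=
  Or.inl ⟨c, rfl⟩

/-- bottom-up decomposition of a left corner derivation -/
theorem corner_up {R : Set (ContextFreeRule T N)} {Y : Symbol T N} :
    ∀ (n : ℕ) (s : Symbol T N) (v : List T), DN R n [s] ([Y] ++ tm N v) → v ≠ [] →
      ∃ (r : ContextFreeRule T N) (γ1 : List (Symbol T N)) (Y0 : Symbol T N)
        (γ2 : List (Symbol T N)) (y v' : List T), r ∈ R ∧ r.output = γ1 ++ Y0 :: γ2 ∧
        Dr R [Y0] [Y] ∧ Dr R γ1 [] ∧ Dr R γ2 (tm N y) ∧ y ≠ [] ∧ v = y ++ v' ∧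
        Dr R [s] ([Symbol.nonterminal r.input] ++ tm N v') := by
  intro n
  induction n using Nat.strong_induction_on with
  | _ n ih =>
    intro s v hd hv
    cases s with
    | terminal c =>
      exfalso
      have h1 := congrArg List.length hd.terminal
      simp at h1
      exact hv h1
    | nonterminal A =>
      cases n with
      | zero =>
        exfalso
        generalize hw : [Y] ++ tm N v = w at hd
        cases hd
        have h1 := congrArg List.length hw
        simp at h1
        exact hv h1
      | succ n =>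
        obtain ⟨r, hr, hrA, hd'⟩ := hd.head
        have hrule : Dr R [Symbol.nonterminal A] r.output := by
          rw [← hrA]
          exact Dr.rule hr
        obtain ⟨γ1, s', γ2, v1, v2, m, g1, g2, g3, g4, g5, g6⟩ := first_sym _ _ _ hd'
        by_cases hv1 : v1 = []
        · subst hv1
          refine ⟨r, γ1, s', γ2, v2, [], hr, g1, ⟨m, by simpa using g4⟩, g3, g5, ?_, ?_, ?_⟩
          · rw [g6] at hv
            simpa using hv
          · rw [g6]
            simp
          · rw [hrA]
            simpa using Dr.refl _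
        · obtain ⟨r', δ1, Y0, δ2, y, v', k1, k2, k3, k4, k5, k6, k7, k8⟩ :=
            ih m (by omega) s' v1 g4 hv1
          refine ⟨r', δ1, Y0, δ2, y, v' ++ v2, k1, k2, k3, k4, k5, k6, ?_, ?_⟩
          · rw [g6, k7]
            simp
          · refine hrule.trans ?_
            rw [g1]
            have h8 := (g3.append k8).append g5
            simpa using h8

theorem peelL_LC {R : Set (ContextFreeRule T N)} {S : N} {l : ℕ}
    (hl : ∀ r ∈ R, r.output.length + 3 ≤ l) {s Y : Symbol T N} (hs : s ∈ Sy R S) :
    PeelL (Xi R S) l (LC R s Y) := by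
  intro c v hv
  obtain ⟨n, hd⟩ := mem_LC.1 hv
  obtain ⟨r, γ1, Y0, γ2, y, v0, k1, k2, k3, k4, k5, k6, k7, k8⟩ :=
    corner_up n s (c :: v) hd (by simp)
  cases y with
  | nil => exact absurd rfl k6
  | cons c' y =>
    simp only [List.cons_append, List.cons.injEq] at k7
    obtain ⟨rfl, k7⟩ := k7
    obtain ⟨n', k5'⟩ := k5
    obtain ⟨δ1, t, δ2, x1, x2, m, g1, g2, g3, g4, g5, g6⟩ :=
      first_sym (Y := Symbol.terminal c) γ2 n' y (by simpa using k5')
    have ht : t ∈ r.output := by
      rw [k2, g1]
      simp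
    refine ⟨LC R t (Symbol.terminal c) :: (δ2.map (Lg R) ++
      [LC R s (Symbol.nonterminal r.input)]), ?_, ?_, ?_, ?_⟩
    · intro ξ hξ
      simp only [List.mem_cons, List.mem_append, List.mem_map, List.not_mem_nil, or_false] at hξ
      rcases hξ with rfl | ⟨d, hd, rfl⟩ | rfl
      · exact Or.inr (Or.inl ⟨t, sy_output k1 ht, _, sy_tm c, rfl⟩)
      · refine Or.inl ⟨d, sy_output k1 ?_, rfl⟩
        rw [k2, g1]
        simp [hd]
      · exact Or.inr (Or.inl ⟨s, hs, _, sy_input k1, rfl⟩)
    · have h1 := hl r k1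
      have h2 : δ2.length ≤ r.output.length := by
        rw [k2, g1]
        simp
        omega
      simp
      omega
    · rw [List.prod_cons, List.prod_append, List.prod_singleton, Language.mem_mul]
      refine ⟨x1, ?_, x2 ++ v0, ?_, ?_⟩
      · exact ⟨m, g4⟩
      · rw [Language.mem_mul]
        exact ⟨x2, mem_prod_Lg.2 g5, v0, k8, rfl⟩
      · rw [k7, g6]
        simp
    · intro z hz
      rw [List.prod_cons, List.prod_append, List.prod_singleton, Language.mem_mul] at hz
      obtain ⟨z1, hz1, z', hz', rfl⟩ := hz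
      rw [Language.mem_mul] at hz'
      obtain ⟨z2, hz2, z3, hz3, rfl⟩ := hz'
      rw [mem_LC] at hz1 hz3 ⊢
      rw [mem_prod_Lg] at hz2
      refine hz3.trans ?_
      have h1 : Dr R [Symbol.nonterminal r.input] r.output := Dr.rule k1
      rw [k2, g1] at h1
      have h2 := h1.trans ((k4.append k3).append ((g3.append hz1).append hz2) |> fun h => by
        simpa using h)
      have h3 := h2.append (Dr.refl (tm N z3))
      simpa using h3

/-! ### Reversal -/

/-- the reversed rules -/
def revR (R : Set (ContextFreeRule T N)) : Set (ContextFreeRule T N) := {r | r.reverse ∈ R}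

theorem revR_revR (R : Set (ContextFreeRule T N)) : revR (revR R) = R := by
  ext r
  simp [revR]

theorem DN.rev {R : Set (ContextFreeRule T N)} {n : ℕ} {u v : List (Symbol T N)}
    (h : DN R n u v) : DN (revR R) n u.reverse v.reverse := by
  induction h with
  | refl u => exact DN.refl _
  | step h _ ih =>
    obtain ⟨r, hr, h⟩ := h
    refine DN.step ⟨r.reverse, ?_, h.reverse⟩ ih
    show r.reverse.reverse ∈ R
    rw [ContextFreeRule.reverse_reverse]
    exact hr

theorem Dr.rev {R : Set (ContextFreeRule T N)} {u v : List (Symbol T N)}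
    (h : Dr R u v) : Dr (revR R) u.reverse v.reverse := by
  obtain ⟨n, h⟩ := h
  exact ⟨n, h.rev⟩

theorem Dr.rev_iff {R : Set (ContextFreeRule T N)} {u v : List (Symbol T N)} :
    Dr (revR R) u.reverse v.reverse ↔ Dr R u v := by
  constructor
  · intro h
    have h1 := h.rev
    rw [revR_revR] at h1
    simpa using h1
  · exact Dr.rev

theorem tm_reverse (v : List T) : (tm N v).reverse = tm N v.reverse := by
  simp

theorem Lg_rev (R : Set (ContextFreeRule T N)) (s : Symbol T N) :
    Lg (revR R) s = (Lg R s).reverse := by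
  ext v
  rw [Language.mem_reverse, mem_Lg, mem_Lg, ← Dr.rev_iff, revR_revR]
  simp

theorem LC_rev (R : Set (ContextFreeRule T N)) (s Y : Symbol T N) :
    LC (revR R) s Y = (RC R s Y).reverse := by
  ext v
  rw [Language.mem_reverse, mem_RC, mem_LC, ← Dr.rev_iff, revR_revR]
  simp

theorem RC_rev (R : Set (ContextFreeRule T N)) (s Y : Symbol T N) :
    RC (revR R) s Y = (LC R s Y).reverse := by
  ext v
  rw [Language.mem_reverse, mem_RC, mem_LC, ← Dr.rev_iff, revR_revR]
  simp

theorem Sy_rev (R : Set (ContextFreeRule T N)) (S : N) : Sy (revR R) S = Sy R S := by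
  have key : ∀ R : Set (ContextFreeRule T N), Sy (revR R) S ⊆ Sy R S := by
    intro R
    rintro s (h | h | ⟨r, hr, h⟩)
    · exact Or.inl h
    · exact Or.inr (Or.inl h)
    · refine Or.inr (Or.inr ⟨r.reverse, hr, ?_⟩)
      rcases h with h | h
      · left
        simpa [ContextFreeRule.reverse] using h
      · right
        exact h
  refine Set.Subset.antisymm (key R) ?_
  have := key (revR R)
  rwa [revR_revR] at this

theorem Xi_rev {R : Set (ContextFreeRule T N)} {S : N} {K : Language T}
    (h : K ∈ Xi (revR R) S) : K.reverse ∈ Xi R S := by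
  rcases h with ⟨s, hs, rfl⟩ | ⟨s, hs, Y, hY, rfl⟩ | ⟨s, hs, Y, hY, rfl⟩
  · rw [Sy_rev] at hs
    rw [Lg_rev, Language.reverse_reverse]
    exact Or.inl ⟨s, hs, rfl⟩
  · rw [Sy_rev] at hs hY
    rw [LC_rev, Language.reverse_reverse]
    exact Or.inr (Or.inr ⟨s, hs, Y, hY, rfl⟩)
  · rw [Sy_rev] at hs hY
    rw [RC_rev, Language.reverse_reverse]
    exact Or.inr (Or.inl ⟨s, hs, Y, hY, rfl⟩)

theorem prod_rev (τ : List (Language T)) :
    ((τ.map Language.reverse).reverse).prod = τ.prod.reverse := by
  induction τ with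
  | nil => simp
  | cons K τ ih =>
    rw [List.map_cons, List.reverse_cons, List.prod_append, ih, List.prod_singleton,
      List.prod_cons, Language.reverse_mul]

theorem peelR_of_rev {R : Set (ContextFreeRule T N)} {S : N} {l : ℕ} {K : Language T}
    (h : PeelL (Xi (revR R) S) l K.reverse) : PeelR (Xi R S) l K := by
  intro v c hv
  obtain ⟨τ, h1, h2, h3, h4⟩ := h c v.reverse (by
    rw [Language.mem_reverse]
    simpa using hv)
  refine ⟨(τ.map Language.reverse).reverse, ?_, by simpa using h2, ?_, ?_⟩
  · intro ξ hξ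
    simp only [List.mem_reverse, List.mem_map] at hξ
    obtain ⟨ξ', hξ', rfl⟩ := hξ
    exact Xi_rev (h1 ξ' hξ')
  · rw [prod_rev, Language.mem_reverse]
    exact h3
  · intro z hz
    rw [prod_rev, Language.mem_reverse] at hz
    have h5 := h4 _ hz
    rw [Language.mem_reverse] at h5
    simpa using h5

theorem peelL_of_rev {R : Set (ContextFreeRule T N)} {S : N} {l : ℕ} {K : Language T}
    (h : PeelR (Xi (revR R) S) l K.reverse) : PeelL (Xi R S) l K := by
  intro c v hv
  obtain ⟨τ, h1, h2, h3, h4⟩ := h v.reverse c (by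
    rw [Language.mem_reverse]
    simpa using hv)
  refine ⟨(τ.map Language.reverse).reverse, ?_, by simpa using h2, ?_, ?_⟩
  · intro ξ hξ
    simp only [List.mem_reverse, List.mem_map] at hξ
    obtain ⟨ξ', hξ', rfl⟩ := hξ
    exact Xi_rev (h1 ξ' hξ')
  · rw [prod_rev, Language.mem_reverse]
    exact h3
  · intro z hz
    rw [prod_rev, Language.mem_reverse] at hz
    have h5 := h4 _ hz
    rw [Language.mem_reverse] at h5
    simpa using h5

/-- The symbol of a string from which the last letter of the derived word comes. -/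
theorem last_sym {R : Set (ContextFreeRule T N)} {c : T} (γ : List (Symbol T N)) (v : List T)
    (h : Dr R γ (tm N (v ++ [c]))) :
    ∃ γ1 s γ2 v1 v2, γ = γ1 ++ s :: γ2 ∧ Dr R γ2 [] ∧
      Dr R [s] (tm N v2 ++ [Symbol.terminal c]) ∧ Dr R γ1 (tm N v1) ∧ v = v1 ++ v2 := by
  have h1 := h.rev
  obtain ⟨n, h1⟩ := h1
  obtain ⟨γ1, s, γ2, v1, v2, m, g1, g2, g3, g4, g5, g6⟩ :=
    first_sym (Y := Symbol.terminal c) γ.reverse n v.reverse (by simpa using h1)
  refine ⟨γ2.reverse, s, γ1.reverse, v2.reverse, v1.reverse, ?_, ?_, ?_, ?_, ?_⟩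
  · have := congrArg List.reverse g1
    simpa using this
  · have := g3.rev
    rw [revR_revR] at this
    simpa using this
  · have := g4.rev
    rw [revR_revR] at this
    exact ⟨m, by simpa using this⟩
  · have := g5.rev
    rw [revR_revR] at this
    simpa using this
  · have := congrArg List.reverse g6
    simpa using this

theorem peelR_LC {R : Set (ContextFreeRule T N)} {S : N} {l : ℕ}
    (hl : ∀ r ∈ R, r.output.length + 3 ≤ l) {Y : Symbol T N} (hY : Y ∈ Sy R S) :
    ∀ (n : ℕ) (s : Symbol T N) (v : List T) (c : T), DN R n [s] ([Y] ++ tm N (v ++ [c])) →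
      ∃ τ : List (Language T), (∀ ξ ∈ τ, ξ ∈ Xi R S) ∧
    τ.length ≤ l ∧ v ∈ τ.prod ∧ ∀ z ∈ τ.prod, (z ++ [c]) ∈ LC R s Y := by
  intro n
  induction n using Nat.strong_induction_on with
  | _ n ih =>
    intro s v c hd
    cases s with
    | terminal c' =>
      exfalso
      have h1 := congrArg List.length hd.terminal
      simp at h1
    | nonterminal A =>
      cases n with
      | zero =>
        exfalso
        generalize hw : [Y] ++ tm N (v ++ [c]) = w at hd
        cases hd
        have h1 := congrArg List.length hw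
        simp at h1
      | succ n =>
        obtain ⟨r, hr, hrA, hd'⟩ := hd.head
        have hrule : Dr R [Symbol.nonterminal A] r.output := by
          rw [← hrA]
          exact Dr.rule hr
        obtain ⟨γ1, s', γ2, v1, v2, m, g1, g2, g3, g4, g5, g6⟩ := first_sym _ _ _ hd'
        rcases List.eq_nil_or_concat v2 with hv2 | ⟨v2', c', hv2⟩
        · subst hv2
          rw [List.append_nil] at g6
          rw [← g6] at g4
          obtain ⟨τ, k1, k2, k3, k4⟩ := ih m (by omega) s' v c g4
          refine ⟨τ, k1, k2, k3, fun z hz => ?_⟩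
          have h1 := mem_LC.1 (k4 z hz)
          rw [mem_LC]
          refine hrule.trans ?_
          rw [g1]
          have h8 := (g3.append h1).append g5
          simpa using h8
        · rw [List.concat_eq_append] at hv2
          rw [hv2, ← List.append_assoc] at g6
          have hc : c = c' := by
            have := List.append_inj_right' g6 rfl
            simpa using this
          have hv : v = v1 ++ v2' := List.append_inj_left' g6 rfl
          subst hc
          rw [hv2] at g5
          obtain ⟨δ1, t, δ2, x1, x2, j1, j2, j3, j4, j5⟩ := last_sym _ _ g5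
          have hs' : s' ∈ r.output := by
            rw [g1]
            simp
          have ht : t ∈ r.output := by
            rw [g1, j1]
            simp
          refine ⟨LC R s' Y :: (δ1.map (Lg R) ++ [RC R t (Symbol.terminal c)]), ?_, ?_, ?_, ?_⟩
          · intro ξ hξ
            simp only [List.mem_cons, List.mem_append, List.mem_map, List.not_mem_nil,
              or_false] at hξ
            rcases hξ with rfl | ⟨d, hd, rfl⟩ | rfl
            · exact Or.inr (Or.inl ⟨s', sy_output hr hs', _, hY, rfl⟩)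
            · refine Or.inl ⟨d, sy_output hr ?_, rfl⟩
              rw [g1, j1]
              simp [hd]
            · exact Or.inr (Or.inr ⟨t, sy_output hr ht, _, sy_tm c, rfl⟩)
          · have h1 := hl r hr
            have h2 : δ1.length ≤ r.output.length := by
              rw [g1, j1]
              simp
              omega
            simp
            omega
          · rw [List.prod_cons, List.prod_append, List.prod_singleton, Language.mem_mul]
            refine ⟨v1, ⟨m, g4⟩, x1 ++ x2, ?_, ?_⟩
            · rw [Language.mem_mul]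
              exact ⟨x1, mem_prod_Lg.2 j4, x2, j3, rfl⟩
            · rw [hv, j5]
          · intro z hz
            rw [List.prod_cons, List.prod_append, List.prod_singleton, Language.mem_mul] at hz
            obtain ⟨z1, hz1, z', hz', rfl⟩ := hz
            rw [Language.mem_mul] at hz'
            obtain ⟨z2, hz2, z3, hz3, rfl⟩ := hz'
            rw [mem_LC] at hz1 ⊢
            rw [mem_RC] at hz3
            rw [mem_prod_Lg] at hz2
            refine hrule.trans ?_
            rw [g1, j1]
            have h8 := ((g3.append hz1).append hz2).append (hz3.append j2)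
            simpa using h8

/-- Letters can be removed at both ends of the words of the basic languages. -/
theorem peel_Xi {R : Set (ContextFreeRule T N)} {S : N} {l : ℕ}
    (hl : ∀ r ∈ R, r.output.length + 3 ≤ l) (hl1 : 1 ≤ l) {K : Language T} (hK : K ∈ Xi R S) :
    PeelL (Xi R S) l K ∧ PeelR (Xi R S) l K := by
  have hlr : ∀ r ∈ revR R, r.output.length + 3 ≤ l := by
    intro r hr
    have := hl r.reverse hr
    simpa [ContextFreeRule.reverse] using this
  rcases hK with ⟨s, hs, rfl⟩ | ⟨s, hs, Y, hY, rfl⟩ | ⟨s, hs, Y, hY, rfl⟩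
  · constructor
    · intro c v hv
      refine ⟨[LC R s (Symbol.terminal c)], ?_, by simpa using hl1, ?_, ?_⟩
      · intro ξ hξ
        rw [List.mem_singleton] at hξ
        subst hξ
        exact Or.inr (Or.inl ⟨s, hs, _, sy_tm c, rfl⟩)
      · rw [List.prod_singleton, mem_LC]
        exact hv
      · intro z hz
        rw [List.prod_singleton, mem_LC] at hz
        exact hz
    · intro v c hv
      refine ⟨[RC R s (Symbol.terminal c)], ?_, by simpa using hl1, ?_, ?_⟩
      · intro ξ hξ
        rw [List.mem_singleton] at hξ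
        subst hξ
        exact Or.inr (Or.inr ⟨s, hs, _, sy_tm c, rfl⟩)
      · rw [List.prod_singleton, mem_RC]
        rw [mem_Lg] at hv
        simpa using hv
      · intro z hz
        rw [List.prod_singleton, mem_RC] at hz
        rw [mem_Lg]
        simpa using hz
  · constructor
    · exact peelL_LC hl hs
    · intro v c hv
      obtain ⟨n, hd⟩ := mem_LC.1 hv
      exact peelR_LC hl hY n s v c hd
  · constructor
    · apply peelL_of_rev
      rw [← LC_rev]
      intro v c hv
      obtain ⟨n, hd⟩ := mem_LC.1 hv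
      exact peelR_LC hlr (by rw [Sy_rev]; exact hY) n s v c hd
    · apply peelR_of_rev
      rw [← LC_rev]
      exact peelL_LC hlr (by rw [Sy_rev]; exact hs)

end Pool.Agent.K9h77.GF
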