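import Pool.Agent.K9h77.GF.Base

/-!
# Grammar forms and strict interpretations: definitions and the projection of derivations
-/

set_option autoImplicit false

namespace Pool.Agent.K9h77.GF

open List

/-- `SymRel μT μN s' s` says that the letter `s'` belongs to `μ(s)`: terminals are assigned to
terminals by `μT`, nonterminals to nonterminals by `μN`. -/
def SymRel {T₁ T₂ N₁ N₂ : Type} (μT : T₂ → Finset T₁) (μN : N₂ → Finset N₁) :
    Symbol T₁ N₁ → Symbol T₂ N₂ → Prop
  | Symbol.terminal c, Symbol.terminal a => c ∈ μT a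
  | Symbol.nonterminal B', Symbol.nonterminal B => B' ∈ μN B
  | _, _ => False

/-- `G₁` is an s-interpretation of the grammar form `G₂` modulo the finite letter substitution
`μ = (μT, μN)`: distinct letters of `G₂` are sent to disjoint finite sets of letters of `G₁`,
terminals to sets of terminals and nonterminals to sets of nonterminals, every rule of `G₁` is
obtained from a rule `A → α` of `G₂` by choosing a letter of `μ(A)` and a word of `μ(α)`, and the
initial nonterminal of `G₁` belongs to `μ` of the initial nonterminal of `G₂`. -/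
structure IsSInterp {T₁ T₂ : Type} (G₁ : ContextFreeGrammar T₁) (G₂ : ContextFreeGrammar T₂)
    (μT : T₂ → Finset T₁) (μN : G₂.NT → Finset G₁.NT) : Prop where
  disjT : ∀ a b, a ≠ b → Disjoint (μT a) (μT b)
  disjN : ∀ A B, A ≠ B → Disjoint (μN A) (μN B)
  rules : ∀ r₁ ∈ G₁.rules, ∃ r₂ ∈ G₂.rules, r₁.input ∈ μN r₂.input ∧
    List.Forall₂ (SymRel μT μN) r₁.output r₂.output
  initial : G₁.initial ∈ μN G₂.initial

/-- The languages over the alphabet `T₁` in the s-grammatical family of the grammar form `G`: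
the languages of the s-interpretations of `G` with terminal alphabet `T₁`. -/
def sFamily {T : Type} (G : ContextFreeGrammar T) (T₁ : Type) : Set (Language T₁) :=
  {L | ∃ G₁ : ContextFreeGrammar T₁, (∃ μT μN, IsSInterp G₁ G μT μN) ∧ G₁.language = L}

/-- Two families of languages are the same up to the empty word: every language of each of them
has the same nonempty words as some language of the other. -/
def SameUpToEmpty {T₁ : Type} (F₁ F₂ : Set (Language T₁)) : Prop :=
  (∀ L ∈ F₁, ∃ L' ∈ F₂, ∀ w : List T₁, w ≠ [] → (w ∈ L ↔ w ∈ L')) ∧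
    (∀ L ∈ F₂, ∃ L' ∈ F₁, ∀ w : List T₁, w ≠ [] → (w ∈ L ↔ w ∈ L'))

/-- The grammar form `G` is context-free-s-complete: over every finite alphabet its
s-grammatical family is, up to the empty word, the family of all context-free languages. -/
def IsCFSComplete {T : Type} (G : ContextFreeGrammar T) : Prop :=
  ∀ (T₁ : Type) [Finite T₁], SameUpToEmpty (sFamily G T₁) {L | L.IsContextFree}

/-- The string `a ^ n` of terminals. -/
def rep {T : Type} (N : Type) (a : T) (n : ℕ) : List (Symbol T N) :=
  List.replicate n (Symbol.terminal a)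

/-- The nonterminal `X` is expansive over the letter `a`: it derives a string
`a ^ i X a ^ j X a ^ k` with two occurrences of itself, and it derives a nonempty word `a ^ p`. -/
def Expansive {T : Type} (G : ContextFreeGrammar T) (a : T) (X : G.NT) : Prop :=
  (∃ i j k, G.Derives [Symbol.nonterminal X]
    (rep G.NT a i ++ [Symbol.nonterminal X] ++ rep G.NT a j ++ [Symbol.nonterminal X] ++
      rep G.NT a k)) ∧
  ∃ p, 1 ≤ p ∧ G.Derives [Symbol.nonterminal X] (rep G.NT a p)

/-- The word `a ^ n` has a derivation in `G` in which a nonterminal that is expansive over `a`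
occurs: `S ⇒* a ^ s X a ^ t` and `X ⇒* a ^ m` with `s + m + t = n` and `X` expansive. -/
def ThroughExpansive {T : Type} (G : ContextFreeGrammar T) (a : T) (n : ℕ) : Prop :=
  ∃ (X : G.NT) (s m t : ℕ), s + m + t = n ∧ Expansive G a X ∧
    G.Derives [Symbol.nonterminal G.initial]
      (rep G.NT a s ++ [Symbol.nonterminal X] ++ rep G.NT a t) ∧
    G.Derives [Symbol.nonterminal X] (rep G.NT a m)

/-! ### Projection of derivations -/

section proj

variable {T₁ T₂ : Type} {G₁ : ContextFreeGrammar T₁} {G₂ : ContextFreeGrammar T₂}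
  {μT : T₂ → Finset T₁} {μN : G₂.NT → Finset G₁.NT}

theorem rep_eq {T N : Type} (a : T) (n : ℕ) : rep N a n = tm N (List.replicate n a) := by
  simp [rep]

theorem rep_append {T N : Type} (a : T) (n m : ℕ) : rep N a n ++ rep N a m = rep N a (n + m) := by
  simp [rep]

theorem symRel_nt {A' : G₁.NT} {s : Symbol T₂ G₂.NT}
    (h : SymRel μT μN (Symbol.nonterminal A') s) : ∃ A, s = Symbol.nonterminal A ∧ A' ∈ μN A := by
  cases s with
  | terminal a => exact absurd h (by simp [SymRel])
  | nonterminal A => exact ⟨A, rfl, h⟩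

theorem symRel_tm {c : T₁} {s : Symbol T₂ G₂.NT}
    (h : SymRel μT μN (Symbol.terminal c) s) : ∃ a, s = Symbol.terminal a ∧ c ∈ μT a := by
  cases s with
  | nonterminal a => exact absurd h (by simp [SymRel])
  | terminal A => exact ⟨A, rfl, h⟩

theorem IsSInterp.eqN (h : IsSInterp G₁ G₂ μT μN) {A' : G₁.NT} {A B : G₂.NT} (hA : A' ∈ μN A)
    (hB : A' ∈ μN B) : A = B := by
  by_contra hne
  exact Finset.disjoint_left.1 (h.disjN A B hne) hA hB

theorem IsSInterp.eqT (h : IsSInterp G₁ G₂ μT μN) {c : T₁} {a b : T₂} (hA : c ∈ μT a)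
    (hB : c ∈ μT b) : a = b := by
  by_contra hne
  exact Finset.disjoint_left.1 (h.disjT a b hne) hA hB

theorem forall₂_append_left {α β : Type} {R : α → β → Prop} {l₁ l₂ : List α} {m : List β}
    (h : List.Forall₂ R (l₁ ++ l₂) m) :
    ∃ m₁ m₂, m = m₁ ++ m₂ ∧ List.Forall₂ R l₁ m₁ ∧ List.Forall₂ R l₂ m₂ := by
  induction l₁ generalizing m with
  | nil => exact ⟨[], m, rfl, List.Forall₂.nil, h⟩
  | cons x l₁ ih =>
    cases h with
    | cons h1 h2 =>
      obtain ⟨m₁, m₂, rfl, h3, h4⟩ := ih h2
      exact ⟨_ :: m₁, m₂, rfl, List.Forall₂.cons h1 h3, h4⟩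

theorem forall₂_append {α β : Type} {R : α → β → Prop} {l₁ l₂ : List α} {m₁ m₂ : List β}
    (h : List.Forall₂ R l₁ m₁) (h' : List.Forall₂ R l₂ m₂) :
    List.Forall₂ R (l₁ ++ l₂) (m₁ ++ m₂) := by
  induction h with
  | nil => exact h'
  | cons h _ ih => exact List.Forall₂.cons h ih

theorem IsSInterp.proj (h : IsSInterp G₁ G₂ μT μN) {n : ℕ} {u v : List (Symbol T₁ G₁.NT)}
    (hd : DN (G₁.rules : Set (ContextFreeRule T₁ G₁.NT)) n u v) :
    ∀ {u' : List (Symbol T₂ G₂.NT)}, List.Forall₂ (SymRel μT μN) u u' →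
    ∃ v', List.Forall₂ (SymRel μT μN) v v' ∧
      DN (G₂.rules : Set (ContextFreeRule T₂ G₂.NT)) n u' v' := by
  induction hd with
  | refl u =>
    intro u' hu
    exact ⟨u', hu, DN.refl _⟩
  | step hs _ ih =>
    intro u' hu
    obtain ⟨r, hr, hrw⟩ := hs
    obtain ⟨p, q, rfl, rfl⟩ := hrw.exists_parts
    obtain ⟨x, q', rfl, hx, hq⟩ := forall₂_append_left hu
    obtain ⟨p', s, rfl, hp, hs⟩ := forall₂_append_left hx
    obtain ⟨r', hr', hin, hout⟩ := h.rules r hr
    cases hs with
    | cons h1 h2 =>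
      cases h2
      obtain ⟨A, rfl, hA⟩ := symRel_nt h1
      have hAe := h.eqN hA hin
      subst hAe
      obtain ⟨v', hv1, hv2⟩ := ih (forall₂_append (forall₂_append hp hout) hq)
      refine ⟨v', hv1, DN.step ⟨r', hr', ?_⟩ hv2⟩
      exact ContextFreeRule.rewrites_of_exists_parts r' p' q'

theorem IsSInterp.tm_class (h : IsSInterp G₁ G₂ μT μN) {a : T₂} {w : List T₁}
    (hw : ∀ c ∈ w, c ∈ μT a) {v : List (Symbol T₂ G₂.NT)}
    (hv : List.Forall₂ (SymRel μT μN) (tm G₁.NT w) v) : v = rep G₂.NT a w.length := by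
  induction w generalizing v with
  | nil =>
    cases hv
    rfl
  | cons c w ih =>
    cases hv with
    | cons h1 h2 =>
      obtain ⟨b, rfl, hb⟩ := symRel_tm h1
      have hab := h.eqT hb (hw c (by simp))
      subst hab
      rw [ih (fun c' hc' => hw c' (by simp [hc'])) h2]
      simp [rep, List.replicate_succ]

end proj

end Pool.Agent.K9h77.GF
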