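import Pool.Agent.K9h77.GF.Split
import Pool.Agent.K9h77.GF.Defs

/-!
# The interpretation whose nonterminals are labelled with languages
-/

set_option autoImplicit false

namespace Pool.Agent.K9h77.GF

open List Classical

section lab

variable {T T₁ : Type}

/-- Products of at most `N0` basic languages. -/
def KK (X : Set (Language T₁)) (N0 : ℕ) : Set (Language T₁) :=
  {K | ∃ τ : List (Language T₁), (∀ ξ ∈ τ, ξ ∈ X) ∧ τ.length ≤ N0 ∧ K = τ.prod}

theorem finite_KK {X : Set (Language T₁)} (hX : X.Finite) (N0 : ℕ) : (KK X N0).Finite := by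
  have hfin : Finite X := hX
  have h1 : {l : List X | l.length ≤ N0}.Finite := List.finite_length_le X N0
  refine (h1.image (fun l => (l.map Subtype.val).prod)).subset ?_
  rintro K ⟨τ, h2, h3, rfl⟩
  refine ⟨τ.attach.map (fun p => ⟨p.1, h2 p.1 p.2⟩), ?_, ?_⟩
  · simpa using h3
  · simp only [List.map_map]
    congr 1
    conv_rhs => rw [← List.attach_map_subtype_val τ]
    rfl

variable (G : ContextFreeGrammar T) (a : T) (X : Set (Language T₁)) (N0 : ℕ)

/-- labelled nonterminals -/
abbrev NTL : Type := G.NT × KK X N0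

/-- the language in the label -/
def phiL : NTL G X N0 → Language T₁ := fun p => p.2.1

/-- the terminals assigned to a terminal -/
noncomputable def muT [Finite T₁] (b : T) : Finset T₁ :=
  if b = a then (Set.finite_univ (α := T₁)).toFinset else ∅

/-- the labelled nonterminals assigned to a nonterminal -/
noncomputable def muN (hX : X.Finite) (A : G.NT) : Finset (NTL G X N0) :=
  (Set.Finite.prod (Set.finite_singleton A) ((Set.finite_univ_iff).2
    (show Finite (KK X N0) from finite_KK hX N0))).toFinset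

variable {G a X N0}

theorem mem_muT [Finite T₁] {b : T} {c : T₁} : c ∈ muT (T₁ := T₁) a b ↔ b = a := by
  unfold muT
  split_ifs with h
  · simp [h]
  · simp [h]

theorem mem_muN (hX : X.Finite) {A : G.NT} {p : NTL G X N0} :
    p ∈ muN G X N0 hX A ↔ p.1 = A := by
  unfold muN
  rw [Set.Finite.mem_toFinset]
  simp

variable (G a X N0)

/-- the labelled rules: all sound ones -/
def LR [Finite T₁] (hX : X.Finite) : Set (ContextFreeRule T₁ (NTL G X N0)) :=
  {ρ | ∃ r ∈ G.rules, ρ.input.1 = r.input ∧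
    List.Forall₂ (SymRel (muT (T₁ := T₁) a) (muN G X N0 hX)) ρ.output r.output ∧
    strL (phiL G X N0) ρ.output ≤ ρ.input.2.1}

variable {G a X N0}

theorem finite_fiber {T₂ N₁ N₂ : Type} (μT : T₂ → Finset T₁) (μN : N₂ → Finset N₁)
    (l : List (Symbol T₂ N₂)) :
    {l' : List (Symbol T₁ N₁) | List.Forall₂ (SymRel μT μN) l' l}.Finite := by
  induction l with
  | nil =>
    refine (Set.finite_singleton []).subset ?_
    intro l' h
    cases h
    rfl
  | cons s l ih =>
    have h1 : {s' : Symbol T₁ N₁ | SymRel μT μN s' s}.Finite := by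
      cases s with
      | terminal b =>
        refine ((μT b).finite_toSet.image Symbol.terminal).subset ?_
        intro s' hs'
        cases s' with
        | terminal c => exact ⟨c, hs', rfl⟩
        | nonterminal c => exact absurd hs' (by simp [SymRel])
      | nonterminal b =>
        refine ((μN b).finite_toSet.image Symbol.nonterminal).subset ?_
        intro s' hs'
        cases s' with
        | nonterminal c => exact ⟨c, hs', rfl⟩
        | terminal c => exact absurd hs' (by simp [SymRel])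
    refine (Set.Finite.image2 List.cons h1 ih).subset ?_
    intro l' h
    cases h with
    | cons h2 h3 => exact ⟨_, h2, _, h3, rfl⟩

theorem finite_LR [Finite T₁] (hX : X.Finite) : (LR G a X N0 hX).Finite := by
  have h1 : (⋃ r ∈ (G.rules : Set (ContextFreeRule T G.NT)),
      Set.image2 (fun (p : NTL G X N0) o => (⟨p, o⟩ : ContextFreeRule T₁ (NTL G X N0)))
        (muN G X N0 hX r.input : Set (NTL G X N0))
        {o | List.Forall₂ (SymRel (muT (T₁ := T₁) a) (muN G X N0 hX)) o r.output}).Finite := by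
    refine (G.rules.finite_toSet).biUnion fun r _ => ?_
    exact Set.Finite.image2 _ (Finset.finite_toSet _) (finite_fiber _ _ _)
  refine h1.subset ?_
  rintro ρ ⟨r, hr, h2, h3, -⟩
  refine Set.mem_biUnion (x := r) (by exact_mod_cast hr) ?_
  exact ⟨ρ.input, by exact_mod_cast (mem_muN hX).2 h2, ρ.output, h3, rfl⟩

/-- the labelled grammar -/
noncomputable abbrev LabG [Finite T₁] (G : ContextFreeGrammar T) (a : T) (X : Set (Language T₁))
    (N0 : ℕ) (hX : X.Finite) (K : KK X N0) : ContextFreeGrammar T₁ :=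
  ⟨NTL G X N0, (G.initial, K), (finite_LR (G := G) (a := a) (N0 := N0) hX).toFinset⟩

theorem LabG_rules [Finite T₁] (hX : X.Finite) (K : KK X N0) :
    (((LabG G a X N0 hX K).rules : Finset (ContextFreeRule T₁ (NTL G X N0))) :
      Set (ContextFreeRule T₁ (NTL G X N0))) = LR G a X N0 hX :=
  Set.Finite.coe_toFinset _

theorem LabG_interp [Finite T₁] (hX : X.Finite) (K : KK X N0) :
    IsSInterp (LabG G a X N0 hX K) G (muT a) (muN G X N0 hX) where
  disjT := by
    intro b b' hne
    rw [Finset.disjoint_left]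
    intro c hc hc'
    rw [mem_muT] at hc hc'
    exact hne (hc.trans hc'.symm)
  disjN := by
    intro A A' hne
    rw [Finset.disjoint_left]
    intro p hp hp'
    rw [mem_muN] at hp hp'
    exact hne (hp.symm.trans hp')
  rules := by
    intro ρ hρ
    have h1 : ρ ∈ LR G a X N0 hX := by
      rw [← LabG_rules hX K]
      exact_mod_cast hρ
    obtain ⟨r, hr, h2, h3, -⟩ := h1
    exact ⟨r, hr, (mem_muN hX).2 h2, h3⟩
  initial := (mem_muN hX).2 rfl

theorem LabG_sound [Finite T₁] (hX : X.Finite) {A : G.NT} {K : KK X N0} {w : List T₁}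
    (h : Dr (LR G a X N0 hX) [Symbol.nonterminal (A, K)] (tm _ w)) : w ∈ K.1 := by
  have h1 : ∀ ρ ∈ LR G a X N0 hX, strL (phiL G X N0) ρ.output ≤ phiL G X N0 ρ.input := by
    rintro ρ ⟨r, hr, h2, h3, h4⟩
    exact h4
  exact Dr.sound h1 h

/-- every segment of the string has a label -/
def Seg (δ : List (Symbol T₁ (NTL G X N0))) : Prop :=
  ∀ p m q, δ = p ++ m ++ q → strL (phiL G X N0) m ∈ KK X N0

theorem Seg.left {δ1 δ2 : List (Symbol T₁ (NTL G X N0))} (h : Seg (δ1 ++ δ2)) : Seg δ1 := by
  intro p m q hpm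
  exact h p m (q ++ δ2) (by rw [hpm]; simp)

theorem Seg.right {δ1 δ2 : List (Symbol T₁ (NTL G X N0))} (h : Seg (δ1 ++ δ2)) : Seg δ2 := by
  intro p m q hpm
  exact h (δ1 ++ p) m q (by rw [hpm]; simp)

theorem strL_wt {δ : List (Symbol T₁ (NTL G X N0))} {b : ℕ}
    (h : ∀ s ∈ δ, ∃ τ : List (Language T₁), (∀ ξ ∈ τ, ξ ∈ X) ∧ τ.length ≤ b ∧
      symL (phiL G X N0) s = τ.prod) :
    ∃ τ : List (Language T₁), (∀ ξ ∈ τ, ξ ∈ X) ∧ τ.length ≤ δ.length * b ∧
      strL (phiL G X N0) δ = τ.prod := by
  induction δ with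
  | nil => exact ⟨[], by simp, by simp, rfl⟩
  | cons s δ ih =>
    obtain ⟨τ, h1, h2, h3⟩ := ih (fun s' hs' => h s' (by simp [hs']))
    obtain ⟨τ', h4, h5, h6⟩ := h s (by simp)
    refine ⟨τ' ++ τ, ?_, ?_, ?_⟩
    · intro ξ hξ
      rw [List.mem_append] at hξ
      rcases hξ with hξ | hξ
      · exact h4 ξ hξ
      · exact h1 ξ hξ
    · rw [List.length_append, List.length_cons, Nat.add_mul, Nat.one_mul]
      omega
    · rw [strL_cons, h3, h6, List.prod_append]

theorem seg_of {δ : List (Symbol T₁ (NTL G X N0))} {b : ℕ}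
    (h : ∀ s ∈ δ, ∃ τ : List (Language T₁), (∀ ξ ∈ τ, ξ ∈ X) ∧ τ.length ≤ b ∧
      symL (phiL G X N0) s = τ.prod) (hb : δ.length * b ≤ N0) : Seg δ := by
  intro p m q hpm
  obtain ⟨τ, h1, h2, h3⟩ := strL_wt (δ := m) (b := b)
    (fun s hs => h s (by rw [hpm]; simp [hs]))
  refine ⟨τ, h1, h2.trans (le_trans (Nat.mul_le_mul_right b ?_) hb), h3⟩
  rw [hpm]
  simp
  omega

theorem forall₂_flatten_right {α β : Type} {R : α → β → Prop} {ws : List (List β)}
    {l : List α} (h : List.Forall₂ R l ws.flatten) :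
    ∃ ls : List (List α), l = ls.flatten ∧ List.Forall₂ (List.Forall₂ R) ls ws := by
  induction ws generalizing l with
  | nil =>
    cases h
    exact ⟨[], rfl, List.Forall₂.nil⟩
  | cons w ws ih =>
    rw [List.flatten_cons] at h
    have h' : ∀ {m₁ m₂ : List β} {l : List α}, List.Forall₂ R l (m₁ ++ m₂) →
        ∃ l₁ l₂, l = l₁ ++ l₂ ∧ List.Forall₂ R l₁ m₁ ∧ List.Forall₂ R l₂ m₂ := by
      intro m₁
      induction m₁ with
      | nil =>
        intro m₂ l h
        exact ⟨[], l, rfl, List.Forall₂.nil, h⟩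
      | cons x m₁ ih =>
        intro m₂ l h
        cases h with
        | cons h1 h2 =>
          obtain ⟨l₁, l₂, rfl, h3, h4⟩ := ih h2
          exact ⟨_ :: l₁, l₂, rfl, List.Forall₂.cons h1 h3, h4⟩
    obtain ⟨l₁, l₂, rfl, h1, h2⟩ := h' h
    obtain ⟨ls, rfl, h3⟩ := ih h2
    exact ⟨l₁ :: ls, by simp, List.Forall₂.cons h1 h3⟩

theorem lift_list [Finite T₁] (hX : X.Finite) {n : ℕ}
    (ih : ∀ m ≤ n, ∀ (s : Symbol T G.NT) (δ : List (Symbol T G.NT)),
      DN (G.rules : Set (ContextFreeRule T G.NT)) m [s] δ →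
      ∀ δ' : List (Symbol T₁ (NTL G X N0)),
      List.Forall₂ (SymRel (muT (T₁ := T₁) a) (muN G X N0 hX)) δ' δ → Seg δ' →
      ∃ s', SymRel (muT (T₁ := T₁) a) (muN G X N0 hX) s' s ∧
        symL (phiL G X N0) s' = strL (phiL G X N0) δ' ∧ Dr (LR G a X N0 hX) [s'] δ')
    {γ : List (Symbol T G.NT)} {ws : List (List (Symbol T G.NT))}
    (h : List.Forall₂ (fun s w => ∃ m ≤ n,
      DN (G.rules : Set (ContextFreeRule T G.NT)) m [s] w) γ ws) :
    ∀ δ' : List (Symbol T₁ (NTL G X N0)),
      List.Forall₂ (SymRel (muT (T₁ := T₁) a) (muN G X N0 hX)) δ' ws.flatten → Seg δ' →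
      ∃ γ', List.Forall₂ (SymRel (muT (T₁ := T₁) a) (muN G X N0 hX)) γ' γ ∧
        strL (phiL G X N0) γ' = strL (phiL G X N0) δ' ∧ Dr (LR G a X N0 hX) γ' δ' := by
  induction h with
  | nil =>
    intro δ' h1 _
    cases h1
    exact ⟨[], List.Forall₂.nil, rfl, Dr.refl _⟩
  | @cons s w γ ws h1 h2 ih2 =>
    intro δ' h3 h4
    obtain ⟨ls, rfl, h5⟩ := forall₂_flatten_right (ws := w :: ws) h3
    cases h5 with
    | @cons l1 _ ls' _ h6 h7 =>
      rw [List.flatten_cons] at h4
      obtain ⟨m, hm, hd⟩ := h1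
      obtain ⟨s', k1, k2, k3⟩ := ih m hm s w hd l1 h6 h4.left
      have h8 : List.Forall₂ (SymRel (muT (T₁ := T₁) a) (muN G X N0 hX)) ls'.flatten
          ws.flatten := by
        clear h2 ih2 h3 h4
        induction h7 with
        | nil => exact List.Forall₂.nil
        | cons h9 _ ih9 =>
          rw [List.flatten_cons, List.flatten_cons]
          exact forall₂_append h9 ih9
      obtain ⟨γ', k4, k5, k6⟩ := ih2 ls'.flatten h8 h4.right
      refine ⟨s' :: γ', List.Forall₂.cons k1 k4, ?_, ?_⟩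
      · rw [strL_cons, k2, k5, List.flatten_cons, strL_append]
      · rw [List.flatten_cons]
        have := k3.append k6
        simpa using this

/-- Lifting of derivations to the labelled grammar. -/
theorem lift [Finite T₁] (hX : X.Finite) : ∀ (n : ℕ) (s : Symbol T G.NT)
    (δ : List (Symbol T G.NT)), DN (G.rules : Set (ContextFreeRule T G.NT)) n [s] δ →
      ∀ δ' : List (Symbol T₁ (NTL G X N0)),
      List.Forall₂ (SymRel (muT (T₁ := T₁) a) (muN G X N0 hX)) δ' δ → Seg δ' →
      (∃ s', SymRel (muT (T₁ := T₁) a) (muN G X N0 hX) s' s ∧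
        symL (phiL G X N0) s' = strL (phiL G X N0) δ' ∧ Dr (LR G a X N0 hX) [s'] δ') ∧
      (∀ A, s = Symbol.nonterminal A → 1 ≤ n → ∀ K : KK X N0,
        strL (phiL G X N0) δ' ≤ K.1 → Dr (LR G a X N0 hX) [Symbol.nonterminal (A, K)] δ') := by
  intro n
  induction n using Nat.strong_induction_on with
  | _ n ih =>
    intro s δ hd δ' hδ hseg
    have triv : δ = [s] → ∃ s', SymRel (muT (T₁ := T₁) a) (muN G X N0 hX) s' s ∧
        symL (phiL G X N0) s' = strL (phiL G X N0) δ' ∧ Dr (LR G a X N0 hX) [s'] δ' := by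
      rintro rfl
      cases hδ with
      | cons h1 h2 =>
        cases h2
        exact ⟨_, h1, (strL_singleton _ _).symm, Dr.refl _⟩
    cases n with
    | zero =>
      cases hd
      exact ⟨triv rfl, fun _ _ h => by omega⟩
    | succ n =>
      cases s with
      | terminal b =>
        exact ⟨triv hd.terminal, fun _ h => by simp at h⟩
      | nonterminal A =>
        obtain ⟨r, hr, hrA, hd'⟩ := hd.head
        obtain ⟨ws, rfl, hf⟩ := hd'.children
        obtain ⟨γ', h1, h2, h3⟩ := lift_list (G := G) (a := a) (N0 := N0) hX (n := n)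
          (fun m hm s δ hd δ' hδ hseg => (ih m (by omega) s δ hd δ' hδ hseg).1) hf δ' hδ hseg
        have key : ∀ K : KK X N0, strL (phiL G X N0) δ' ≤ K.1 →
            Dr (LR G a X N0 hX) [Symbol.nonterminal (A, K)] δ' := by
          intro K hK
          refine Dr.trans ?_ h3
          refine Dr.rule (r := ⟨(A, K), γ'⟩) ⟨r, by exact_mod_cast hr, hrA.symm, h1, ?_⟩
          rw [h2]
          exact hK
        refine ⟨⟨Symbol.nonterminal (A, ⟨strL (phiL G X N0) δ', hseg [] δ' [] (by simp)⟩), ?_,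
          rfl, key _ (le_refl _)⟩, ?_⟩
        · exact (mem_muN hX).2 rfl
        · intro A' hA' _ K hK
          injection hA' with hA'
          subst hA'
          exact key K hK

end lab

end Pool.Agent.K9h77.GF
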