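import Pool.Agent.K9h77.GF.Defs

/-!
# Lukasiewicz words and the test language
-/

set_option autoImplicit false

namespace Pool.Agent.K9h77.GF

open List Classical

variable {T : Type}

/-- Lukasiewicz words (Polish notation of binary trees), `f` binary, `x` a leaf. -/
inductive Luk (f x : T) : List T → Prop
  | base : Luk f x [x]
  | node {u v : List T} (hu : Luk f x u) (hv : Luk f x v) : Luk f x (f :: (u ++ v))

/-- The complete binary tree of depth `m`. -/
def tw (f x : T) : ℕ → List T
  | 0 => [x]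
  | m + 1 => f :: (tw f x m ++ tw f x m)

theorem luk_tw (f x : T) (m : ℕ) : Luk f x (tw f x m) := by
  induction m with
  | zero => exact Luk.base
  | succ m ih => exact Luk.node ih ih

theorem length_tw (f x : T) (m : ℕ) : (tw f x m).length = 2 ^ (m + 1) - 1 := by
  induction m with
  | zero => rfl
  | succ m ih =>
    simp only [tw, List.length_cons, List.length_append, ih]
    have : 1 ≤ 2 ^ (m + 1) := Nat.one_le_two_pow
    omega

/-- The height `#f - #x`. -/
noncomputable def ht (f x : T) (u : List T) : ℤ := (u.count f : ℤ) - u.count x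

theorem ht_nil (f x : T) : ht f x [] = 0 := by simp [ht]

theorem ht_append (f x : T) (u v : List T) : ht f x (u ++ v) = ht f x u + ht f x v := by
  simp only [ht, List.count_append]
  push_cast
  ring

theorem ht_f {f x : T} (hfx : f ≠ x) : ht f x [f] = 1 := by
  simp [ht, hfx]

theorem ht_x {f x : T} (hfx : f ≠ x) : ht f x [x] = -1 := by
  simp [ht, hfx.symm]

theorem ht_cons_f {f x : T} (hfx : f ≠ x) (u : List T) : ht f x (f :: u) = 1 + ht f x u := by
  rw [← ht_f hfx, ← ht_append]
  rfl

theorem Luk.ht {f x : T} (hfx : f ≠ x) {w : List T} (h : Luk f x w) :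
    GF.ht f x w = -1 ∧ ∀ j < w.length, 0 ≤ GF.ht f x (w.take j) := by
  induction h with
  | base =>
    refine ⟨ht_x hfx, fun j hj => ?_⟩
    have : j = 0 := by simpa using hj
    subst this
    simp [ht_nil]
  | @node u v _ _ ihu ihv =>
    refine ⟨?_, fun j hj => ?_⟩
    · rw [ht_cons_f hfx, ht_append, ihu.1, ihv.1]
      norm_num
    · cases j with
      | zero => simp [ht_nil]
      | succ j =>
        rw [List.take_succ_cons, ht_cons_f hfx, List.take_append, ht_append]
        simp only [List.length_cons, List.length_append] at hj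
        rcases lt_or_ge j u.length with h1 | h1
        · have h2 : j - u.length = 0 := by omega
          rw [h2, List.take_zero, ht_nil]
          have := ihu.2 j h1
          omega
        · rw [List.take_of_length_le h1, ihu.1]
          have := ihv.2 (j - u.length) (by omega)
          omega

theorem Luk.last {f x : T} {w : List T} (h : Luk f x w) : ∃ v, w = v ++ [x] := by
  induction h with
  | base => exact ⟨[], rfl⟩
  | @node u v _ _ _ ihv =>
    obtain ⟨v', rfl⟩ := ihv
    exact ⟨f :: (u ++ v'), by simp⟩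

theorem Luk.head {f x : T} {w : List T} (h : Luk f x w) : w = [x] ∨ ∃ v, w = f :: v := by
  cases h with
  | base => exact Or.inl rfl
  | @node u v _ _ => exact Or.inr ⟨u ++ v, rfl⟩

theorem Luk.mem {f x : T} {w : List T} (h : Luk f x w) : ∀ c ∈ w, c = f ∨ c = x := by
  induction h with
  | base =>
    intro c hc
    exact Or.inr (by simpa using hc)
  | @node u v _ _ ihu ihv =>
    intro c hc
    simp only [List.mem_cons, List.mem_append] at hc
    rcases hc with h | h | h
    · exact Or.inl h
    · exact ihu c h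
    · exact ihv c h

/-- The test language. -/
def LB (T : Type) : Language T :=
  {w | (∃ f x : T, f ≠ x ∧ (Luk f x w ∨ ∃ v, Luk f x v ∧ w = v ++ [x])) ∨
    ∃ (f : T) (n : ℕ), 1 ≤ n ∧ w = List.replicate n f}

theorem mem_LB {w : List T} : w ∈ LB T ↔
    (∃ f x : T, f ≠ x ∧ (Luk f x w ∨ ∃ v, Luk f x v ∧ w = v ++ [x])) ∨
    ∃ (f : T) (n : ℕ), 1 ≤ n ∧ w = List.replicate n f := Iff.rfl

theorem LB_star {f x : T} (hfx : f ≠ x) {w : List T} (h : w ∈ LB T) (h1 : ∃ w1, w = f :: w1)
    (h2 : ∃ w2, w = w2 ++ [x]) :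
    ht f x w ≤ -1 ∧ -2 ≤ ht f x w ∧ ∀ j, -2 ≤ ht f x (w.take j) := by
  obtain ⟨w1, hw1⟩ := h1
  obtain ⟨w2, hw2⟩ := h2
  have key : Luk f x w ∨ ∃ v, Luk f x v ∧ w = v ++ [x] := by
    rcases mem_LB.1 h with ⟨f', x', hne, h3⟩ | ⟨f', n, hn, h3⟩
    · rcases h3 with h3 | ⟨v, h3, h4⟩
      · obtain ⟨v, hv⟩ := h3.last
        have hx : x = x' := by
          have h5 := hw2.symm.trans hv
          have := List.append_inj_right' h5 rfl
          simpa using this
        rcases h3.head with h5 | ⟨v', h5⟩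
        · exfalso
          rw [hw1] at h5
          have : f = x' := by simpa using (List.cons.inj h5).1
          exact hfx (this.trans hx.symm)
        · have hf : f = f' := by
            rw [hw1] at h5
            exact (List.cons.inj h5).1
          subst hf hx
          exact Or.inl h3
      · have hx : x = x' := by
          have h5 := hw2.symm.trans h4
          have := List.append_inj_right' h5 rfl
          simpa using this
        rcases h3.head with h5 | ⟨v', h5⟩
        · exfalso
          rw [h5] at h4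
          rw [hw1] at h4
          have : f = x' := (List.cons.inj h4).1
          exact hfx (this.trans hx.symm)
        · have hf : f = f' := by
            rw [hw1, h5] at h4
            exact (List.cons.inj h4).1
          subst hf hx
          exact Or.inr ⟨v, h3, h4⟩
    · exfalso
      have h5 : f ∈ w := by rw [hw1]; simp
      have h6 : x ∈ w := by rw [hw2]; simp
      rw [h3] at h5 h6
      exact hfx ((List.eq_of_mem_replicate h5).trans (List.eq_of_mem_replicate h6).symm)
  have aux : ∀ v, Luk f x v → ∀ j, -1 ≤ ht f x (v.take j) := by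
    intro v hv j
    have h3 := hv.ht hfx
    rcases lt_or_ge j v.length with h4 | h4
    · have := h3.2 j h4
      omega
    · rw [List.take_of_length_le h4, h3.1]
  rcases key with h3 | ⟨v, h3, rfl⟩
  · have h4 := (h3.ht hfx).1
    refine ⟨by omega, by omega, fun j => ?_⟩
    have := aux w h3 j
    omega
  · have h4 := (h3.ht hfx).1
    have h5 : ht f x (v ++ [x]) = -2 := by
      rw [ht_append, h4, ht_x hfx]
      norm_num
    refine ⟨by omega, by omega, fun j => ?_⟩
    rcases le_or_gt j v.length with h6 | h6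
    · rw [List.take_append_of_le_length h6]
      have := aux v h3 j
      omega
    · rw [List.take_of_length_le (by simp; omega), h5]

/-! ### The test language is context-free -/

section cf

/-- rules of the grammar for the test language -/
def lbRules (T : Type) : Set (ContextFreeRule T (Option (T ⊕ (T × T)))) :=
  {r | (∃ f, r = ⟨none, [Symbol.nonterminal (some (Sum.inl f))]⟩) ∨
    (∃ f, r = ⟨some (Sum.inl f), [Symbol.terminal f]⟩) ∨
    (∃ f, r = ⟨some (Sum.inl f), [Symbol.terminal f, Symbol.nonterminal (some (Sum.inl f))]⟩) ∨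
    (∃ p : T × T, p.1 ≠ p.2 ∧ r = ⟨none, [Symbol.nonterminal (some (Sum.inr p))]⟩) ∨
    (∃ p : T × T, p.1 ≠ p.2 ∧
      r = ⟨none, [Symbol.nonterminal (some (Sum.inr p)), Symbol.terminal p.2]⟩) ∨
    (∃ p : T × T, r = ⟨some (Sum.inr p), [Symbol.terminal p.2]⟩) ∨
    (∃ p : T × T, r = ⟨some (Sum.inr p), [Symbol.terminal p.1,
      Symbol.nonterminal (some (Sum.inr p)), Symbol.nonterminal (some (Sum.inr p))]⟩)}

theorem finite_lbRules [Finite T] : (lbRules T).Finite := by
  have h1 := Set.finite_range (fun f : T => (⟨none, [Symbol.nonterminal (some (Sum.inl f))]⟩ :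
    ContextFreeRule T (Option (T ⊕ (T × T)))))
  have h2 := Set.finite_range (fun f : T => (⟨some (Sum.inl f), [Symbol.terminal f]⟩ :
    ContextFreeRule T (Option (T ⊕ (T × T)))))
  have h3 := Set.finite_range (fun f : T =>
    (⟨some (Sum.inl f), [Symbol.terminal f, Symbol.nonterminal (some (Sum.inl f))]⟩ :
    ContextFreeRule T (Option (T ⊕ (T × T)))))
  have h4 := Set.finite_range (fun p : T × T =>
    (⟨none, [Symbol.nonterminal (some (Sum.inr p))]⟩ :
    ContextFreeRule T (Option (T ⊕ (T × T)))))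
  have h5 := Set.finite_range (fun p : T × T =>
    (⟨none, [Symbol.nonterminal (some (Sum.inr p)), Symbol.terminal p.2]⟩ :
    ContextFreeRule T (Option (T ⊕ (T × T)))))
  have h6 := Set.finite_range (fun p : T × T =>
    (⟨some (Sum.inr p), [Symbol.terminal p.2]⟩ :
    ContextFreeRule T (Option (T ⊕ (T × T)))))
  have h7 := Set.finite_range (fun p : T × T =>
    (⟨some (Sum.inr p), [Symbol.terminal p.1,
      Symbol.nonterminal (some (Sum.inr p)), Symbol.nonterminal (some (Sum.inr p))]⟩ :
    ContextFreeRule T (Option (T ⊕ (T × T)))))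
  refine (h1.union (h2.union (h3.union (h4.union (h5.union (h6.union h7)))))).subset ?_
  rintro r (⟨f, rfl⟩ | ⟨f, rfl⟩ | ⟨f, rfl⟩ | ⟨p, -, rfl⟩ | ⟨p, -, rfl⟩ | ⟨p, rfl⟩ | ⟨p, rfl⟩)
  · exact Or.inl ⟨f, rfl⟩
  · exact Or.inr (Or.inl ⟨f, rfl⟩)
  · exact Or.inr (Or.inr (Or.inl ⟨f, rfl⟩))
  · exact Or.inr (Or.inr (Or.inr (Or.inl ⟨p, rfl⟩)))
  · exact Or.inr (Or.inr (Or.inr (Or.inr (Or.inl ⟨p, rfl⟩))))
  · exact Or.inr (Or.inr (Or.inr (Or.inr (Or.inr (Or.inl ⟨p, rfl⟩)))))
  · exact Or.inr (Or.inr (Or.inr (Or.inr (Or.inr (Or.inr ⟨p, rfl⟩)))))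

/-- languages of the nonterminals -/
def lbPhi (T : Type) : Option (T ⊕ (T × T)) → Language T
  | none => LB T
  | some (Sum.inl f) => {w | ∃ n, 1 ≤ n ∧ w = List.replicate n f}
  | some (Sum.inr p) => {w | Luk p.1 p.2 w}

theorem lb_sound : ∀ r ∈ lbRules T, strL (lbPhi T) r.output ≤ lbPhi T r.input := by
  rintro r (⟨f, rfl⟩ | ⟨f, rfl⟩ | ⟨f, rfl⟩ | ⟨p, hp, rfl⟩ | ⟨p, hp, rfl⟩ | ⟨p, rfl⟩ | ⟨p, rfl⟩)
  · rw [strL_singleton]
    rintro w ⟨n, hn, rfl⟩
    exact Or.inr ⟨f, n, hn, rfl⟩
  · rw [strL_singleton]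
    intro w hw
    have hw' : w = [f] := hw
    exact ⟨1, le_refl _, by simpa using hw'⟩
  · rw [strL_cons, strL_singleton]
    rintro w ⟨u, hu, v, ⟨n, hn, rfl⟩, rfl⟩
    have hu' : u = [f] := hu
    subst hu'
    exact ⟨n + 1, by omega, by simp [List.replicate_succ]⟩
  · rw [strL_singleton]
    intro w hw
    exact Or.inl ⟨p.1, p.2, hp, Or.inl hw⟩
  · rw [strL_cons, strL_singleton]
    rintro w ⟨u, hu, v, hv, rfl⟩
    have hv' : v = [p.2] := hv
    subst hv'
    exact Or.inl ⟨p.1, p.2, hp, Or.inr ⟨u, hu, rfl⟩⟩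
  · rw [strL_singleton]
    intro w hw
    have hw' : w = [p.2] := hw
    subst hw'
    exact Luk.base
  · rw [strL_cons, strL_cons, strL_singleton]
    rintro w ⟨u, hu, v, ⟨v1, hv1, v2, hv2, rfl⟩, rfl⟩
    have hu' : u = [p.1] := hu
    subst hu'
    have h1 : Luk p.1 p.2 v1 := hv1
    have h2 : Luk p.1 p.2 v2 := hv2
    have h3 : Luk p.1 p.2 (p.1 :: (v1 ++ v2)) := Luk.node h1 h2
    exact h3

theorem lb_luk {f x : T} {w : List T} (h : Luk f x w) :
    Dr (lbRules T) [Symbol.nonterminal (some (Sum.inr (f, x)))] (tm _ w) := by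
  induction h with
  | base =>
    exact Dr.rule (r := ⟨some (Sum.inr (f, x)), [Symbol.terminal x]⟩)
      (Or.inr (Or.inr (Or.inr (Or.inr (Or.inr (Or.inl ⟨(f, x), rfl⟩))))))
  | @node u v _ _ ihu ihv =>
    have h1 : Dr (lbRules T) [Symbol.nonterminal (some (Sum.inr (f, x)))] _ :=
      Dr.rule (r := ⟨some (Sum.inr (f, x)), [Symbol.terminal f,
      Symbol.nonterminal (some (Sum.inr (f, x))), Symbol.nonterminal (some (Sum.inr (f, x)))]⟩)
      (Or.inr (Or.inr (Or.inr (Or.inr (Or.inr (Or.inr ⟨(f, x), rfl⟩))))))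
    refine h1.trans ?_
    have h2 := ((Dr.refl (R := lbRules T) [Symbol.terminal f]).append (ihu.append ihv))
    simpa using h2

theorem lb_unary (f : T) (n : ℕ) :
    Dr (lbRules T) [Symbol.nonterminal (some (Sum.inl f))] (tm _ (List.replicate (n + 1) f)) := by
  induction n with
  | zero =>
    exact Dr.rule (r := ⟨some (Sum.inl f), [Symbol.terminal f]⟩) (Or.inr (Or.inl ⟨f, rfl⟩))
  | succ n ih =>
    have h1 : Dr (lbRules T) [Symbol.nonterminal (some (Sum.inl f))] _ :=
      Dr.rule (r := ⟨some (Sum.inl f), [Symbol.terminal f,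
      Symbol.nonterminal (some (Sum.inl f))]⟩) (Or.inr (Or.inr (Or.inl ⟨f, rfl⟩)))
    refine h1.trans ?_
    have h2 := (Dr.refl (R := lbRules T) [Symbol.terminal f]).append ih
    rw [List.replicate_succ]
    simpa using h2

theorem LB_cf [Finite T] : (LB T).IsContextFree := by
  refine ⟨⟨Option (T ⊕ (T × T)), none, (finite_lbRules (T := T)).toFinset⟩, ?_⟩
  ext w
  rw [ContextFreeGrammar.mem_language_iff, dr_iff]
  have e : (((finite_lbRules (T := T)).toFinset : Finset _) :
      Set (ContextFreeRule T (Option (T ⊕ (T × T))))) = lbRules T := Set.Finite.coe_toFinset _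
  constructor
  · intro h
    have h' : Dr (lbRules T) [Symbol.nonterminal none] (tm _ w) := by
      rw [← e]
      exact h
    exact h'.sound lb_sound
  · intro h
    have h' : Dr (lbRules T) [Symbol.nonterminal none] (tm _ w) := by
      rcases mem_LB.1 h with ⟨f, x, hne, h1 | ⟨v, h1, rfl⟩⟩ | ⟨f, n, hn, rfl⟩
      · have h2 : Dr (lbRules T) [Symbol.nonterminal none] _ :=
          Dr.rule (r := ⟨none, [Symbol.nonterminal (some (Sum.inr (f, x)))]⟩)
            (Or.inr (Or.inr (Or.inr (Or.inl ⟨(f, x), hne, rfl⟩))))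
        exact h2.trans (lb_luk h1)
      · have h2 : Dr (lbRules T) [Symbol.nonterminal none] _ :=
          Dr.rule (r := ⟨none, [Symbol.nonterminal (some (Sum.inr (f, x))), Symbol.terminal x]⟩)
            (Or.inr (Or.inr (Or.inr (Or.inr (Or.inl ⟨(f, x), hne, rfl⟩)))))
        refine h2.trans ?_
        have h3 := (lb_luk h1).append (Dr.refl [Symbol.terminal x])
        simpa using h3
      · obtain ⟨m, rfl⟩ : ∃ m, n = m + 1 := ⟨n - 1, by omega⟩
        have h2 : Dr (lbRules T) [Symbol.nonterminal none] _ :=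
          Dr.rule (r := ⟨none, [Symbol.nonterminal (some (Sum.inl f))]⟩) (Or.inl ⟨f, rfl⟩)
        exact h2.trans (lb_unary f m)
    rw [← e] at h'
    exact h'

end cf

end Pool.Agent.K9h77.GF
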