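import Pool.Agent.K9h77.GF.Branch

/-!
# Necessity of the conditions
-/

set_option autoImplicit false

namespace Pool.Agent.K9h77.GF

open List Classical

/-! ### Periodicity -/

section period

variable {T : Type} {G : ContextFreeGrammar T} {a : T}

theorem expansive_period {X : G.NT} (h : Expansive G a X) : ∃ D, 1 ≤ D ∧
    ∀ m, G.Derives [Symbol.nonterminal X] (rep G.NT a m) →
      G.Derives [Symbol.nonterminal X] (rep G.NT a (m + D)) := by
  obtain ⟨⟨i, j, k, h1⟩, p, hp, h2⟩ := h
  refine ⟨i + j + p + k, by omega, fun m hm => ?_⟩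
  rw [dr_iff] at h1 h2 hm ⊢
  refine h1.trans ?_
  have h3 := ((((Dr.refl (rep G.NT a i)).append hm).append (Dr.refl (rep G.NT a j))).append
    h2).append (Dr.refl (rep G.NT a k))
  have h4 : rep G.NT a i ++ rep G.NT a m ++ rep G.NT a j ++ rep G.NT a p ++ rep G.NT a k =
      rep G.NT a (m + (i + j + p + k)) := by
    rw [rep_append, rep_append, rep_append, rep_append]
    congr 1
    ring
  rw [h4] at h3
  exact h3

theorem expansive_input {X : G.NT} (h : Expansive G a X) :
    ∃ r ∈ G.rules, r.input = X := by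
  obtain ⟨-, p, hp, h2⟩ := h
  rw [dr_iff] at h2
  obtain ⟨n, h2⟩ := h2
  cases n with
  | zero =>
    exfalso
    generalize hw : rep G.NT a p = w at h2
    cases h2
    cases p with
    | zero => omega
    | succ p => simp [rep, List.replicate_succ] at hw
  | succ n =>
    obtain ⟨r, hr, h3, -⟩ := h2.head
    exact ⟨r, hr, h3⟩

theorem uniform_period (G : ContextFreeGrammar T) (a : T) : ∃ D, 1 ≤ D ∧ ∀ X : G.NT,
    Expansive G a X → ∀ m, G.Derives [Symbol.nonterminal X] (rep G.NT a m) →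
      ∀ t, G.Derives [Symbol.nonterminal X] (rep G.NT a (m + D * t)) := by
  have h1 : ∀ X : G.NT, ∃ D, 1 ≤ D ∧ (Expansive G a X → ∀ m,
      G.Derives [Symbol.nonterminal X] (rep G.NT a m) →
      G.Derives [Symbol.nonterminal X] (rep G.NT a (m + D))) := by
    intro X
    by_cases h : Expansive G a X
    · obtain ⟨D, hD, h2⟩ := expansive_period h
      exact ⟨D, hD, fun _ => h2⟩
    · exact ⟨1, le_refl _, fun h' => absurd h' h⟩
  choose D hD hD2 using h1
  refine ⟨∏ X ∈ G.rules.image (fun r => r.input), D X, ?_, ?_⟩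
  · exact Nat.one_le_iff_ne_zero.2 (Finset.prod_ne_zero_iff.2 fun X _ => by
      have := hD X
      omega)
  · intro X hX
    obtain ⟨r, hr, hrX⟩ := expansive_input hX
    have hmem : X ∈ G.rules.image (fun r => r.input) := Finset.mem_image.2 ⟨r, hr, hrX⟩
    obtain ⟨c, hc⟩ := Finset.dvd_prod_of_mem D hmem
    have h3 : ∀ t m, G.Derives [Symbol.nonterminal X] (rep G.NT a m) →
        G.Derives [Symbol.nonterminal X] (rep G.NT a (m + D X * t)) := by
      intro t
      induction t with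
      | zero =>
        intro m hm
        simpa using hm
      | succ t ih =>
        intro m hm
        have h4 := hD2 X hX _ (ih m hm)
        rw [show m + D X * (t + 1) = m + D X * t + D X by ring]
        exact h4
    intro m hm t
    rw [hc, mul_assoc]
    exact h3 _ m hm

theorem through_period (G : ContextFreeGrammar T) (a : T) : ∃ D, 1 ≤ D ∧ ∀ n,
    ThroughExpansive G a n → ∀ t, ThroughExpansive G a (n + D * t) := by
  obtain ⟨D, hD, h⟩ := uniform_period G a
  refine ⟨D, hD, fun n hn t => ?_⟩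
  obtain ⟨X, s, m, t', h1, h2, h3, h4⟩ := hn
  exact ⟨X, s, m + D * t, t', by omega, h2, h3, h X h2 m h4 t⟩

theorem through_or (G : ContextFreeGrammar T) (a : T) :
    (∃ n₀, ∀ n ≥ n₀, ThroughExpansive G a n) ∨
    ∃ D r, 1 ≤ D ∧ ∀ t, ¬ ThroughExpansive G a (r + D * t) := by
  obtain ⟨D, hD, h⟩ := through_period G a
  by_cases hall : ∀ r < D, ∃ t, ThroughExpansive G a (r + D * t)
  · left
    choose! f hf using hall
    obtain ⟨B, hB⟩ := ((Finset.range D).image (fun r => r + D * f r)).bddAbove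
    refine ⟨B, fun n hn => ?_⟩
    have hr : n % D < D := Nat.mod_lt _ (by omega)
    have h1 := hf (n % D) hr
    have h2 : n % D + D * f (n % D) ≤ n := by
      refine le_trans (hB ?_) hn
      simp only [Finset.coe_image, Finset.coe_range, Set.mem_image, Set.mem_Iio]
      exact ⟨n % D, hr, rfl⟩
    have h3 : n % D + D * (n / D) = n := Nat.mod_add_div n D
    have h4 : f (n % D) ≤ n / D := by
      by_contra hcon
      push Not at hcon
      have h5 : D * (n / D) < D * f (n % D) := Nat.mul_lt_mul_of_pos_left hcon (by omega)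
      omega
    obtain ⟨t, ht⟩ : ∃ t, n / D = f (n % D) + t := ⟨n / D - f (n % D), by omega⟩
    have h5 := h _ h1 t
    have h6 : n % D + D * f (n % D) + D * t = n := by
      conv_rhs => rw [← h3, ht]
      ring
    rw [h6] at h5
    exact h5
  · right
    push Not at hall
    obtain ⟨r, hr, h1⟩ := hall
    exact ⟨D, r, hD, h1⟩

end period

/-! ### Test words -/

/-- the word `(f x) ^ j x` -/
def pad {T : Type} (f x : T) : ℕ → List T
  | 0 => [x]
  | j + 1 => f :: ([x] ++ pad f x j)

theorem luk_pad {T : Type} (f x : T) (j : ℕ) : Luk f x (pad f x j) := by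
  induction j with
  | zero => exact Luk.base
  | succ j ih => exact Luk.node Luk.base ih

theorem length_pad {T : Type} (f x : T) (j : ℕ) : (pad f x j).length = 2 * j + 1 := by
  induction j with
  | zero => rfl
  | succ j ih =>
    simp only [pad, List.length_cons, List.length_append, ih, List.length_nil]
    omega

theorem exists_test {T : Type} {f x : T} (hfx : f ≠ x) (M n : ℕ) (hn : tl M + 3 ≤ n) :
    ∃ W : List T, W ∈ LB T ∧ W.length = n ∧ (∃ w1, W = f :: w1) ∧ (∃ w2, W = w2 ++ [x]) ∧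
      (∃ c, Blk f x M c W) ∧ ∀ c ∈ W, c = f ∨ c = x := by
  obtain ⟨j, hj⟩ : ∃ j, n = tl M + 2 + 2 * j ∨ n = tl M + 3 + 2 * j := by
    rcases Nat.even_or_odd (n - (tl M + 2)) with ⟨j, hj⟩ | ⟨j, hj⟩
    · exact ⟨j, Or.inl (by omega)⟩
    · exact ⟨j, Or.inr (by omega)⟩
  have hluk : Luk f x (f :: (tw f x M ++ pad f x j)) := Luk.node (luk_tw f x M) (luk_pad f x j)
  rcases hj with hj | hj
  · refine ⟨f :: (tw f x M ++ pad f x j), Or.inl ⟨f, x, hfx, Or.inl hluk⟩, ?_, ⟨_, rfl⟩,
      hluk.last, ⟨1, [f], pad f x j, by simp, rfl⟩, hluk.mem⟩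
    simp only [List.length_cons, List.length_append, len_tw, length_pad]
    omega
  · refine ⟨f :: (tw f x M ++ pad f x j) ++ [x], Or.inl ⟨f, x, hfx, Or.inr ⟨_, hluk, rfl⟩⟩, ?_,
      ⟨tw f x M ++ pad f x j ++ [x], by simp⟩, ⟨_, rfl⟩,
      ⟨1, [f], pad f x j ++ [x], by simp, rfl⟩, ?_⟩
    · simp only [List.length_cons, List.length_append, len_tw, length_pad, List.length_nil]
      omega
    · intro c hc
      rw [List.mem_append] at hc
      rcases hc with hc | hc
      · exact hluk.mem c hc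
      · exact Or.inr (by simpa using hc)

/-! ### Necessity -/

section nec

variable {T T₁ : Type} {G : ContextFreeGrammar T} {G₁ : ContextFreeGrammar T₁}
  {μT : T → Finset T₁} {μN : G.NT → Finset G₁.NT}

theorem proj1 (hI : IsSInterp G₁ G μT μN) {a : T} {X : G₁.NT} {A : G.NT} (hX : X ∈ μN A)
    {w : List T₁} (hw : ∀ c ∈ w, c ∈ μT a)
    (h : Dr (G₁.rules : Set _) [Symbol.nonterminal X] (tm G₁.NT w)) :
    G.Derives [Symbol.nonterminal A] (rep G.NT a w.length) := by
  obtain ⟨n, h⟩ := h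
  obtain ⟨v', h1, h2⟩ := hI.proj h (u' := [Symbol.nonterminal A])
    (List.Forall₂.cons hX List.Forall₂.nil)
  rw [hI.tm_class hw h1] at h2
  rw [dr_iff]
  exact ⟨n, h2⟩

theorem proj2 (hI : IsSInterp G₁ G μT μN) {a : T} {X Y : G₁.NT} {A : G.NT} (hX : X ∈ μN A)
    {p q : List T₁} (hp : ∀ c ∈ p, c ∈ μT a) (hq : ∀ c ∈ q, c ∈ μT a)
    (h : Dr (G₁.rules : Set _) [Symbol.nonterminal X]
      (tm G₁.NT p ++ [Symbol.nonterminal Y] ++ tm G₁.NT q)) :
    ∃ B, Y ∈ μN B ∧ G.Derives [Symbol.nonterminal A]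
      (rep G.NT a p.length ++ [Symbol.nonterminal B] ++ rep G.NT a q.length) := by
  obtain ⟨n, h⟩ := h
  obtain ⟨v', h1, h2⟩ := hI.proj h (u' := [Symbol.nonterminal A])
    (List.Forall₂.cons hX List.Forall₂.nil)
  obtain ⟨v1, v2, rfl, h3, h4⟩ := forall₂_append_left h1
  obtain ⟨v3, v4, rfl, h5, h6⟩ := forall₂_append_left h3
  cases h6 with
  | cons h7 h8 =>
    cases h8
    obtain ⟨B, rfl, hB⟩ := symRel_nt h7
    rw [hI.tm_class hp h5, hI.tm_class hq h4] at h2
    refine ⟨B, hB, ?_⟩
    rw [dr_iff]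
    exact ⟨n, h2⟩

theorem proj3 (hI : IsSInterp G₁ G μT μN) {a : T} {X : G₁.NT} {A : G.NT} (hX : X ∈ μN A)
    {p q r : List T₁} (hp : ∀ c ∈ p, c ∈ μT a) (hq : ∀ c ∈ q, c ∈ μT a)
    (hr : ∀ c ∈ r, c ∈ μT a)
    (h : Dr (G₁.rules : Set _) [Symbol.nonterminal X]
      (tm G₁.NT p ++ [Symbol.nonterminal X] ++ tm G₁.NT q ++ [Symbol.nonterminal X] ++
        tm G₁.NT r)) :
    G.Derives [Symbol.nonterminal A]
      (rep G.NT a p.length ++ [Symbol.nonterminal A] ++ rep G.NT a q.length ++
        [Symbol.nonterminal A] ++ rep G.NT a r.length) := by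
  obtain ⟨n, h⟩ := h
  obtain ⟨v', h1, h2⟩ := hI.proj h (u' := [Symbol.nonterminal A])
    (List.Forall₂.cons hX List.Forall₂.nil)
  obtain ⟨v1, v2, rfl, h3, h4⟩ := forall₂_append_left h1
  obtain ⟨v3, v4, rfl, h5, h6⟩ := forall₂_append_left h3
  obtain ⟨v5, v6, rfl, h7, h8⟩ := forall₂_append_left h5
  obtain ⟨v7, v8, rfl, h9, h10⟩ := forall₂_append_left h7
  cases h6 with
  | cons h11 h12 =>
    cases h12
    cases h10 with
    | cons h13 h14 =>
      cases h14
      obtain ⟨B, rfl, hB⟩ := symRel_nt h11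
      obtain ⟨B', rfl, hB'⟩ := symRel_nt h13
      have e1 := hI.eqN hX hB
      have e2 := hI.eqN hX hB'
      subst e1
      subst e2
      rw [hI.tm_class hp h9, hI.tm_class hq h8, hI.tm_class hr h4] at h2
      rw [dr_iff]
      exact ⟨n, h2⟩

theorem necessity [Finite T] (h : IsCFSComplete G) :
    ∃ a : T, (∀ n, 1 ≤ n → List.replicate n a ∈ G.language) ∧
      ∃ n₀, ∀ n ≥ n₀, ThroughExpansive G a n := by
  obtain ⟨L, ⟨G₁, ⟨μT, μN, hI⟩, hL0⟩, hL⟩ := (h (Option T)).2 (LB (Option T)) LB_cf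
  have hin : ∀ w : List (Option T), w ≠ [] → (Dr (G₁.rules : Set _)
      [Symbol.nonterminal G₁.initial] (tm G₁.NT w) ↔ w ∈ LB (Option T)) := by
    intro w hw
    rw [hL w hw, ← hL0, ContextFreeGrammar.mem_language_iff, dr_iff]
  have hcl : ∀ c : Option T, ∃ a, c ∈ μT a := by
    intro c
    have h1 : [c] ∈ LB (Option T) := Or.inr ⟨c, 1, le_refl _, rfl⟩
    obtain ⟨n, h2⟩ := (hin [c] (by simp)).2 h1
    obtain ⟨v', h3, -⟩ := hI.proj h2 (u' := [Symbol.nonterminal G.initial])
      (List.Forall₂.cons hI.initial List.Forall₂.nil)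
    cases h3 with
    | cons h4 h5 =>
      obtain ⟨a, -, ha⟩ := symRel_tm h4
      exact ⟨a, ha⟩
  choose cl hcl using hcl
  have := Fintype.ofFinite T
  obtain ⟨f, x, hfx, hfxa⟩ := Fintype.exists_ne_map_eq_of_card_lt cl
    (by rw [Fintype.card_option]; omega)
  have hf : f ∈ μT (cl f) := hcl f
  have hx : x ∈ μT (cl f) := by rw [hfxa]; exact hcl x
  refine ⟨cl f, ?_, ?_⟩
  · intro n hn
    have h1 : List.replicate n f ∈ LB (Option T) := Or.inr ⟨f, n, hn, rfl⟩
    have h2 := (hin _ (by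
      intro h3
      have := congrArg List.length h3
      simp at this
      omega)).2 h1
    have h3 := proj1 hI hI.initial (a := cl f) (by
      intro c hc
      rw [List.eq_of_mem_replicate hc]
      exact hf) h2
    rw [ContextFreeGrammar.mem_language_iff]
    rw [List.length_replicate, rep_eq] at h3
    exact h3
  · rcases through_or G (cl f) with h1 | ⟨D, r, hD, h1⟩
    · exact h1
    exfalso
    have hLB : ∀ w : List (Option T), w ≠ [] → Dr (G₁.rules : Set _)
        [Symbol.nonterminal G₁.initial] (tm G₁.NT w) → w ∈ LB (Option T) :=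
      fun w hw hd => (hin w hw).1 hd
    obtain ⟨C, hC⟩ := bd_all (G₁.rules.finite_toSet) hfx hLB
    obtain ⟨K, hK⟩ := ((G₁.rules.finite_toSet).image (fun r => r.output.length)).bddAbove
    have hK' : ∀ r ∈ (G₁.rules : Set (ContextFreeRule (Option T) G₁.NT)), r.output.length ≤ K :=
      fun r hr => hK ⟨r, hr, rfl⟩
    set F : Finset G₁.NT := G₁.rules.image (fun r => r.input) with hF
    have hRF : RF (G₁.rules : Set (ContextFreeRule (Option T) G₁.NT)) (F : Set G₁.NT) =
        (G₁.rules : Set (ContextFreeRule (Option T) G₁.NT)) := by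
      ext r
      constructor
      · exact fun h => h.1
      · intro h
        refine ⟨h, ?_⟩
        rw [hF]
        exact_mod_cast Finset.mem_image.2 ⟨r, by exact_mod_cast h, rfl⟩
    set M := (K + (2 * C + 1) + 1) * F.card + 1 with hM
    have hn : tl M + 3 ≤ r + D * (tl M + 3) := by
      have : tl M + 3 ≤ D * (tl M + 3) := Nat.le_mul_of_pos_left _ (by omega)
      omega
    obtain ⟨W, hW1, hW2, hW3, hW4, hW5, hW6⟩ := exists_test hfx M _ hn
    have hWne : W ≠ [] := by
      rintro rfl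
      simp at hW2
      have := tl_pos M
      omega
    have hWd := (hin W hWne).2 hW1
    have hnode : Node (G₁.rules : Set _) G₁.initial f x (Symbol.nonterminal G₁.initial) [] W [] :=
      ⟨Dr.refl _, hWd, by simpa using hW3, by simpa using hW4⟩
    obtain ⟨X, P1, y, Q1, p, q, r', g1, g2, g3, g4, g5, g6⟩ :=
      reproduce hfx hK' hC (e := 2 * C + 1) (le_refl _) F.card F (le_refl _) G₁.initial [] W []
        hnode (by rw [hRF]; exact hWd) hW5
    rw [List.nil_append, List.append_nil] at g1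
    have hW7 : ∀ c ∈ W, c ∈ μT (cl f) := by
      intro c hc
      rcases hW6 c hc with rfl | rfl
      · exact hf
      · exact hx
    have hP1 : ∀ c ∈ P1, c ∈ μT (cl f) := fun c hc => hW7 c (by rw [g1]; simp [hc])
    have hy : ∀ c ∈ y, c ∈ μT (cl f) := fun c hc => hW7 c (by rw [g1]; simp [hc])
    have hQ1 : ∀ c ∈ Q1, c ∈ μT (cl f) := fun c hc => hW7 c (by rw [g1]; simp [hc])
    obtain ⟨A, hA, k1⟩ := proj2 hI hI.initial hP1 hQ1 g3
    have k2 := proj3 hI hA (fun c hc => hy c (g6 c (by simp [hc])))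
      (fun c hc => hy c (g6 c (by simp [hc]))) (fun c hc => hy c (g6 c (by simp [hc]))) g4
    have k3 := proj1 hI hA hy g5
    refine h1 (tl M + 3) ⟨A, P1.length, y.length, Q1.length, ?_, ⟨⟨_, _, _, k2⟩, y.length, ?_, k3⟩,
      k1, k3⟩
    · rw [← hW2, g1]
      simp
      omega
    · exact List.length_pos_of_ne_nil g2

end nec

end Pool.Agent.K9h77.GF
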