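import Pool.Agent.K9h77.GF.Corner

/-!
# Splitting words of products of basic languages
-/

set_option autoImplicit false

namespace Pool.Agent.K9h77.GF

open List Classical

variable {T : Type}

/-- A family of languages in which letters can be removed at both ends. -/
structure Basic (X : Set (Language T)) (l : ℕ) : Prop where
  peelL : ∀ K ∈ X, PeelL X l K
  peelR : ∀ K ∈ X, PeelR X l K
  one : ∀ c : T, oneL [c] ∈ X
  pos : 1 ≤ l

theorem mem_prod_cons {K : Language T} {σ : List (Language T)} {w : List T} :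
    w ∈ (K :: σ).prod ↔ ∃ a ∈ K, ∃ b ∈ σ.prod, a ++ b = w := by
  rw [List.prod_cons, Language.mem_mul]

theorem mem_prod_append {σ τ : List (Language T)} {w : List T} :
    w ∈ (σ ++ τ).prod ↔ ∃ a ∈ σ.prod, ∃ b ∈ τ.prod, a ++ b = w := by
  rw [List.prod_append, Language.mem_mul]

theorem mem_prod_nil {w : List T} : w ∈ ([] : List (Language T)).prod ↔ w = [] := by
  rw [List.prod_nil, Language.mem_one]

theorem peelL1 {X : Set (Language T)} {l : ℕ} (hX : Basic X l) (c : T) :
    ∀ (σ : List (Language T)), (∀ ξ ∈ σ, ξ ∈ X) → ∀ v, (c :: v) ∈ σ.prod →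
      ∃ τ : List (Language T), (∀ ξ ∈ τ, ξ ∈ X) ∧ τ.length ≤ σ.length + l ∧ v ∈ τ.prod ∧
        ∀ z ∈ τ.prod, (c :: z) ∈ σ.prod := by
  intro σ
  induction σ with
  | nil =>
    intro _ v hv
    rw [mem_prod_nil] at hv
    simp at hv
  | cons K σ ih =>
    intro hσ v hv
    rw [mem_prod_cons] at hv
    obtain ⟨a, ha, b, hb, hab⟩ := hv
    cases a with
    | nil =>
      rw [List.nil_append] at hab
      subst hab
      obtain ⟨τ, h1, h2, h3, h4⟩ := ih (fun ξ hξ => hσ ξ (by simp [hξ])) v hb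
      refine ⟨τ, h1, by simp; omega, h3, fun z hz => ?_⟩
      rw [mem_prod_cons]
      exact ⟨[], ha, _, h4 z hz, rfl⟩
    | cons c' a =>
      simp only [List.cons_append, List.cons.injEq] at hab
      obtain ⟨rfl, rfl⟩ := hab
      obtain ⟨τ, h1, h2, h3, h4⟩ := hX.peelL K (hσ K (by simp)) c' a ha
      refine ⟨τ ++ σ, ?_, by simp; omega, ?_, fun z hz => ?_⟩
      · intro ξ hξ
        rw [List.mem_append] at hξ
        rcases hξ with hξ | hξ
        · exact h1 ξ hξ
        · exact hσ ξ (by simp [hξ])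
      · rw [mem_prod_append]
        exact ⟨a, h3, b, hb, rfl⟩
      · rw [mem_prod_append] at hz
        obtain ⟨z1, hz1, z2, hz2, rfl⟩ := hz
        rw [mem_prod_cons]
        exact ⟨_, h4 z1 hz1, z2, hz2, rfl⟩

theorem peelR1 {X : Set (Language T)} {l : ℕ} (hX : Basic X l) (c : T) :
    ∀ (σ : List (Language T)), (∀ ξ ∈ σ, ξ ∈ X) → ∀ v, (v ++ [c]) ∈ σ.prod →
      ∃ τ : List (Language T), (∀ ξ ∈ τ, ξ ∈ X) ∧ τ.length ≤ σ.length + l ∧ v ∈ τ.prod ∧
        ∀ z ∈ τ.prod, (z ++ [c]) ∈ σ.prod := by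
  intro σ
  induction σ using List.reverseRecOn with
  | nil =>
    intro _ v hv
    rw [mem_prod_nil] at hv
    simp at hv
  | append_singleton σ K ih =>
    intro hσ v hv
    rw [mem_prod_append] at hv
    obtain ⟨a, ha, b, hb, hab⟩ := hv
    rw [List.prod_singleton] at hb
    rcases List.eq_nil_or_concat b with hb0 | ⟨b', c', hb0⟩
    · subst hb0
      rw [List.append_nil] at hab
      subst hab
      obtain ⟨τ, h1, h2, h3, h4⟩ := ih (fun ξ hξ => hσ ξ (by simp [hξ])) v ha
      refine ⟨τ, h1, by simp; omega, h3, fun z hz => ?_⟩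
      rw [mem_prod_append]
      exact ⟨_, h4 z hz, [], by rwa [List.prod_singleton], by simp⟩
    · rw [List.concat_eq_append] at hb0
      subst hb0
      rw [← List.append_assoc] at hab
      have hc : c' = c := by
        have := List.append_inj_right' hab rfl
        simpa using this
      have hv' : a ++ b' = v := List.append_inj_left' hab rfl
      subst hc
      subst hv'
      obtain ⟨τ, h1, h2, h3, h4⟩ := hX.peelR K (hσ K (by simp)) b' c' hb
      refine ⟨σ ++ τ, ?_, by simp; omega, ?_, fun z hz => ?_⟩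
      · intro ξ hξ
        rw [List.mem_append] at hξ
        rcases hξ with hξ | hξ
        · exact hσ ξ (by simp [hξ])
        · exact h1 ξ hξ
      · rw [mem_prod_append]
        exact ⟨a, ha, b', h3, rfl⟩
      · rw [mem_prod_append] at hz
        obtain ⟨z1, hz1, z2, hz2, rfl⟩ := hz
        rw [mem_prod_append]
        exact ⟨z1, hz1, _, by rw [List.prod_singleton]; exact h4 z2 hz2, by simp⟩

theorem peelLs {X : Set (Language T)} {l : ℕ} (hX : Basic X l) (u : List T) :
    ∀ (σ : List (Language T)), (∀ ξ ∈ σ, ξ ∈ X) → ∀ v, (u ++ v) ∈ σ.prod →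
      ∃ τ : List (Language T), (∀ ξ ∈ τ, ξ ∈ X) ∧ τ.length ≤ σ.length + l * u.length ∧
        v ∈ τ.prod ∧ ∀ z ∈ τ.prod, (u ++ z) ∈ σ.prod := by
  induction u with
  | nil =>
    intro σ hσ v hv
    exact ⟨σ, hσ, by simp, hv, fun z hz => hz⟩
  | cons c u ih =>
    intro σ hσ v hv
    obtain ⟨τ, h1, h2, h3, h4⟩ := peelL1 hX c σ hσ (u ++ v) hv
    obtain ⟨τ', h5, h6, h7, h8⟩ := ih τ h1 v h3
    refine ⟨τ', h5, ?_, h7, fun z hz => h4 _ (h8 z hz)⟩
    rw [List.length_cons, Nat.mul_add, Nat.mul_one]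
    omega

theorem peelRs {X : Set (Language T)} {l : ℕ} (hX : Basic X l) (u : List T) :
    ∀ (σ : List (Language T)), (∀ ξ ∈ σ, ξ ∈ X) → ∀ v, (v ++ u) ∈ σ.prod →
      ∃ τ : List (Language T), (∀ ξ ∈ τ, ξ ∈ X) ∧ τ.length ≤ σ.length + l * u.length ∧
        v ∈ τ.prod ∧ ∀ z ∈ τ.prod, (z ++ u) ∈ σ.prod := by
  induction u using List.reverseRecOn with
  | nil =>
    intro σ hσ v hv
    exact ⟨σ, hσ, by simp, by simpa using hv, fun z hz => by simpa using hz⟩
  | append_singleton u c ih =>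
    intro σ hσ v hv
    rw [← List.append_assoc] at hv
    obtain ⟨τ, h1, h2, h3, h4⟩ := peelR1 hX c σ hσ (v ++ u) hv
    obtain ⟨τ', h5, h6, h7, h8⟩ := ih τ h1 v h3
    refine ⟨τ', h5, ?_, h7, fun z hz => ?_⟩
    · rw [List.length_append, List.length_singleton, Nat.mul_add, Nat.mul_one]
      omega
    · rw [← List.append_assoc]
      exact h4 _ (h8 z hz)

/-- a word as a list of one-letter languages -/
def sing (u : List T) : List (Language T) := u.map (fun c => oneL [c])

theorem sing_prod (u : List T) : (sing u).prod = oneL u := by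
  induction u with
  | nil => rw [oneL_nil]; rfl
  | cons c u ih =>
    rw [sing, List.map_cons, List.prod_cons]
    rw [sing] at ih
    rw [ih, oneL_mul]
    rfl

theorem sing_mem {X : Set (Language T)} {l : ℕ} (hX : Basic X l) (u : List T) :
    ∀ ξ ∈ sing u, ξ ∈ X := by
  intro ξ hξ
  simp only [sing, List.mem_map] at hξ
  obtain ⟨c, _, rfl⟩ := hξ
  exact hX.one c

theorem sing_length (u : List T) : (sing u).length = u.length := by simp [sing]

/-- Moving the cut. -/
theorem recut {X : Set (Language T)} {l : ℕ} (hX : Basic X l) (r : ℕ)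
    {τ1 τ2 : List (Language T)} (h1 : ∀ ξ ∈ τ1, ξ ∈ X) (h2 : ∀ ξ ∈ τ2, ξ ∈ X) {v1 v2 : List T}
    (hv1 : v1 ∈ τ1.prod) (hv2 : v2 ∈ τ2.prod) (c : ℕ) (hc : c ≤ v1.length + v2.length)
    (hc1 : v1.length ≤ c + r) (hc2 : c ≤ v1.length + r) :
    ∃ (ρ1 ρ2 : List (Language T)) (a b : List T), (∀ ξ ∈ ρ1, ξ ∈ X) ∧ (∀ ξ ∈ ρ2, ξ ∈ X) ∧
      ρ1.length ≤ τ1.length + l * r ∧ ρ2.length ≤ τ2.length + l * r ∧ v1 ++ v2 = a ++ b ∧
      a.length = c ∧ a ∈ ρ1.prod ∧ b ∈ ρ2.prod ∧
      ∀ z1 ∈ ρ1.prod, ∀ z2 ∈ ρ2.prod, (z1 ++ z2) ∈ (τ1 ++ τ2).prod := by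
  have hl := hX.pos
  rcases le_or_gt c v1.length with h | h
  · obtain ⟨ρ1, k1, k2, k3, k4⟩ := peelRs hX (v1.drop c) τ1 h1 (v1.take c)
      (by rw [List.take_append_drop]; exact hv1)
    have hlen : (v1.drop c).length ≤ r := by
      rw [List.length_drop]
      omega
    have hm : l * (v1.drop c).length ≤ l * r := Nat.mul_le_mul_left _ hlen
    have hm2 : (v1.drop c).length ≤ l * r :=
      hlen.trans (Nat.le_mul_of_pos_left r (by omega))
    refine ⟨ρ1, sing (v1.drop c) ++ τ2, v1.take c, v1.drop c ++ v2, k1, ?_, by omega, ?_, ?_,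
      by simp [h], k3, ?_, ?_⟩
    · intro ξ hξ
      rw [List.mem_append] at hξ
      rcases hξ with hξ | hξ
      · exact sing_mem hX _ ξ hξ
      · exact h2 ξ hξ
    · rw [List.length_append, sing_length]
      omega
    · rw [← List.append_assoc, List.take_append_drop]
    · rw [mem_prod_append]
      exact ⟨v1.drop c, by rw [sing_prod]; exact mem_oneL.2 rfl, v2, hv2, rfl⟩
    · intro z1 hz1 z2 hz2
      rw [mem_prod_append] at hz2
      obtain ⟨y, hy, z2', hz2', rfl⟩ := hz2
      rw [sing_prod, mem_oneL] at hy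
      subst hy
      rw [mem_prod_append]
      exact ⟨_, k4 z1 hz1, z2', hz2', by simp⟩
  · have hc3 : c - v1.length ≤ v2.length := by omega
    obtain ⟨ρ2, k1, k2, k3, k4⟩ := peelLs hX (v2.take (c - v1.length)) τ2 h2
      (v2.drop (c - v1.length)) (by rw [List.take_append_drop]; exact hv2)
    have hlen : (v2.take (c - v1.length)).length ≤ r := by
      rw [List.length_take]
      omega
    have hm : l * (v2.take (c - v1.length)).length ≤ l * r := Nat.mul_le_mul_left _ hlen
    have hm2 : (v2.take (c - v1.length)).length ≤ l * r :=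
      hlen.trans (Nat.le_mul_of_pos_left r (by omega))
    refine ⟨τ1 ++ sing (v2.take (c - v1.length)), ρ2, v1 ++ v2.take (c - v1.length),
      v2.drop (c - v1.length), ?_, k1, ?_, by omega, ?_, ?_, ?_, k3, ?_⟩
    · intro ξ hξ
      rw [List.mem_append] at hξ
      rcases hξ with hξ | hξ
      · exact h1 ξ hξ
      · exact sing_mem hX _ ξ hξ
    · rw [List.length_append, sing_length]
      omega
    · rw [List.append_assoc, List.take_append_drop]
    · rw [List.length_append, List.length_take]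
      omega
    · rw [mem_prod_append]
      exact ⟨v1, hv1, _, by rw [sing_prod]; exact mem_oneL.2 rfl, rfl⟩
    · intro z1 hz1 z2 hz2
      rw [mem_prod_append] at hz1
      obtain ⟨z1', hz1', y, hy, rfl⟩ := hz1
      rw [sing_prod, mem_oneL] at hy
      subst hy
      rw [mem_prod_append]
      exact ⟨z1', hz1', _, k4 z2 hz2, by simp⟩

/-- The choice of the position of the cut. -/
theorem exists_cut (D e n1 j : ℕ) (hD : 1 ≤ D) (a L : ℕ) (ha : a ≤ L)
    (hL : 2 * (n1 + D + j) ≤ L) :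
    ∃ c, D ∣ c + e ∧ n1 ≤ c ∧ c + j + n1 ≤ L ∧ a ≤ c + (n1 + j + 2 * D) ∧
      c ≤ a + (n1 + j + 2 * D) := by
  set b := min (max a n1) (L - j - n1 - D) with hb
  have h1 : n1 ≤ b := by omega
  have h2 : b + D + j + n1 ≤ L := by omega
  have hmod : ∃ t < D, D ∣ b + t + e := by
    refine ⟨(D - (b + e) % D) % D, Nat.mod_lt _ (by omega), ?_⟩
    have h3 : (b + e) % D < D := Nat.mod_lt _ (by omega)
    by_cases h4 : (b + e) % D = 0
    · rw [h4, Nat.sub_zero, Nat.mod_self]
      exact Nat.dvd_of_mod_eq_zero (by simpa using h4)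
    · rw [Nat.mod_eq_of_lt (by omega : D - (b + e) % D < D)]
      have h5 : b + (D - (b + e) % D) + e = D * ((b + e) / D) + D := by
        have := Nat.div_add_mod (b + e) D
        omega
      rw [h5]
      exact Dvd.dvd.add (Dvd.intro _ rfl) (dvd_refl D)
  obtain ⟨t, ht, hd⟩ := hmod
  exact ⟨b + t, hd, by omega, by omega, by omega, by omega⟩

/-- Splitting a long word. -/
theorem split_word {X : Set (Language T)} {l : ℕ} (hX : Basic X l) (i j k D n1 : ℕ)
    (hD : 1 ≤ D) : ∃ B0 N2 : ℕ, ∀ B, B0 ≤ B → ∀ σ : List (Language T), (∀ ξ ∈ σ, ξ ∈ X) →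
      σ.length ≤ B → ∀ w ∈ σ.prod, N2 ≤ w.length →
      ∃ (w1 w' w2 w'' w3 : List T) (σ' σ'' : List (Language T)),
        w = w1 ++ w' ++ w2 ++ w'' ++ w3 ∧ w1.length = i ∧ w2.length = j ∧ w3.length = k ∧
        D ∣ w'.length + (i + j + k) ∧ n1 ≤ w'.length ∧ n1 ≤ w''.length ∧
        (∀ ξ ∈ σ', ξ ∈ X) ∧ (∀ ξ ∈ σ'', ξ ∈ X) ∧ σ'.length ≤ B ∧ σ''.length ≤ B ∧
        w' ∈ σ'.prod ∧ w'' ∈ σ''.prod ∧
        ∀ z' ∈ σ'.prod, ∀ z'' ∈ σ''.prod, (w1 ++ z' ++ w2 ++ z'' ++ w3) ∈ σ.prod := by
  refine ⟨2 * (l * (n1 + j + 2 * D) + l * j + 1) + l * (i + k) + 2,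
    2 * (n1 + D + j) + i + k, ?_⟩
  intro B hB σ hσ hσB w hw hN
  -- remove `i` letters on the left and `k` letters on the right
  have e1 : w = w.take i ++ w.drop i := (List.take_append_drop i w).symm
  obtain ⟨τ0, a1, a2, a3, a4⟩ := peelLs hX (w.take i) σ hσ (w.drop i) (by rw [← e1]; exact hw)
  have hi : (w.take i).length = i := by
    rw [List.length_take]
    omega
  rw [hi] at a2
  set w0 := w.drop i with hw0
  have hw0l : w0.length = w.length - i := List.length_drop
  have e2 : w0 = w0.take (w0.length - k) ++ w0.drop (w0.length - k) :=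
    (List.take_append_drop _ w0).symm
  have hk : (w0.drop (w0.length - k)).length = k := by
    rw [List.length_drop]
    omega
  obtain ⟨τ, b1, b2, b3, b4⟩ := peelRs hX (w0.drop (w0.length - k)) τ0 a1
    (w0.take (w0.length - k)) (by rw [← e2]; exact a3)
  rw [hk] at b2
  set w00 := w0.take (w0.length - k) with hw00
  have hw00l : w00.length = w.length - i - k := by
    rw [hw00, List.length_take]
    omega
  -- halve
  set h := τ.length / 2 with hh
  have e3 : τ = τ.take h ++ τ.drop h := (List.take_append_drop h τ).symm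
  rw [e3, mem_prod_append] at b3
  obtain ⟨v1, hv1, v2, hv2, hv⟩ := b3
  have hlen := congrArg List.length hv
  rw [List.length_append] at hlen
  obtain ⟨c, c1, c2, c3, c4, c5⟩ := exists_cut D (i + j + k) n1 j hD v1.length w00.length
    (by omega) (by omega)
  have hτ1 : ∀ ξ ∈ τ.take h, ξ ∈ X := fun ξ hξ => b1 ξ (List.mem_of_mem_take hξ)
  have hτ2 : ∀ ξ ∈ τ.drop h, ξ ∈ X := fun ξ hξ => b1 ξ (List.mem_of_mem_drop hξ)
  obtain ⟨ρ1, ρ2, a, b, d1, d2, d3, d4, d5, d6, d7, d8, d9⟩ :=
    recut hX (n1 + j + 2 * D) hτ1 hτ2 hv1 hv2 c (by omega) (by omega) (by omega)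
  have hbl : b.length = w00.length - c := by
    have := congrArg List.length d5
    rw [List.length_append, List.length_append] at this
    omega
  -- remove `j` letters
  have e4 : b = b.take j ++ b.drop j := (List.take_append_drop j b).symm
  have hj : (b.take j).length = j := by
    rw [List.length_take]
    omega
  obtain ⟨ρ3, f1, f2, f3, f4⟩ := peelLs hX (b.take j) ρ2 d2 (b.drop j)
    (by rw [← e4]; exact d8)
  rw [hj] at f2
  have ht1 : (τ.take h).length ≤ h := by
    rw [List.length_take]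
    omega
  have ht2 : (τ.drop h).length ≤ h + 1 := by
    rw [List.length_drop]
    omega
  have hτB : τ.length ≤ B + l * (i + k) := by
    have : l * (i + k) = l * i + l * k := by ring
    omega
  have hle : h ≤ (B + l * (i + k)) / 2 := Nat.div_le_div_right hτB
  refine ⟨w.take i, a, b.take j, b.drop j, w0.drop (w0.length - k), ρ1, ρ3, ?_, hi, hj, hk,
    by rw [d6]; exact c1, by rw [d6]; exact c2, ?_, d1, f1, ?_, ?_, d7, f3, ?_⟩
  · have g1 : w00 = a ++ b := hv.symm.trans d5
    calc w = w.take i ++ w0 := e1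
      _ = w.take i ++ (w00 ++ w0.drop (w0.length - k)) := by rw [← e2]
      _ = w.take i ++ ((a ++ b) ++ w0.drop (w0.length - k)) := by rw [g1]
      _ = w.take i ++ ((a ++ (b.take j ++ b.drop j)) ++ w0.drop (w0.length - k)) := by
          rw [← e4]
      _ = _ := by simp only [List.append_assoc]
  · rw [List.length_drop]
    omega
  · omega
  · omega
  · intro z' hz' z'' hz''
    have g2 := d9 z' hz' _ (f4 z'' hz'')
    rw [← e3] at g2
    have g3 := a4 _ (b4 _ g2)
    simpa only [List.append_assoc] using g3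

end Pool.Agent.K9h77.GF
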