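import Pool.Agent.K9h77.GF.Lab
import Pool.Agent.K9h77.GF.Nec

/-!
# Sufficiency of the conditions
-/

set_option autoImplicit false

namespace Pool.Agent.K9h77.GF

open List Classical

section suf

variable {T T₁ : Type} {G : ContextFreeGrammar T} {a : T} {X : Set (Language T₁)} {N0 : ℕ}

theorem rel_tm [Finite T₁] (hX : X.Finite) (w : List T₁) :
    List.Forall₂ (SymRel (muT (T₁ := T₁) a) (muN G X N0 hX)) (tm _ w) (rep G.NT a w.length) := by
  induction w with
  | nil => exact List.Forall₂.nil
  | cons c w ih => exact List.Forall₂.cons (mem_muT.2 rfl) ih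

theorem rel_nt [Finite T₁] (hX : X.Finite) (A : G.NT) (K : KK X N0) :
    List.Forall₂ (SymRel (muT (T₁ := T₁) a) (muN G X N0 hX))
      [Symbol.nonterminal (A, K)] [Symbol.nonterminal A] :=
  List.Forall₂.cons ((mem_muN hX).2 rfl) List.Forall₂.nil

theorem wt_tm {l : ℕ} (hB : Basic X l) {w : List T₁} {s : Symbol T₁ (NTL G X N0)}
    (hs : s ∈ tm (NTL G X N0) w) {b : ℕ} (hb : 1 ≤ b) :
    ∃ τ : List (Language T₁), (∀ ξ ∈ τ, ξ ∈ X) ∧ τ.length ≤ b ∧
      symL (phiL G X N0) s = τ.prod := by
  simp only [tm, List.mem_map] at hs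
  obtain ⟨c, _, rfl⟩ := hs
  refine ⟨[oneL [c]], ?_, by simpa using hb, ?_⟩
  · intro ξ hξ
    rw [List.mem_singleton] at hξ
    subst hξ
    exact hB.one c
  · rw [List.prod_singleton]
    rfl

theorem seg_tm {l : ℕ} (hB : Basic X l) {w : List T₁} (hw : w.length ≤ N0) :
    Seg (G := G) (X := X) (N0 := N0) (tm _ w) :=
  seg_of (b := 1) (fun _ hs => wt_tm hB hs (le_refl 1)) (by simpa using hw)

theorem steps_pos {R : Set (ContextFreeRule T G.NT)} {n : ℕ} {A : G.NT} {m : ℕ}
    (h : DN R n [Symbol.nonterminal A] (rep G.NT a m)) : 1 ≤ n := by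
  cases n with
  | zero =>
    exfalso
    generalize hw : rep G.NT a m = w at h
    cases h
    cases m with
    | zero => simp [rep] at hw
    | succ m => simp [rep, List.replicate_succ] at hw
  | succ n => omega

theorem lift_word [Finite T₁] (hX : X.Finite) {l : ℕ} (hB : Basic X l) {A : G.NT} {w : List T₁}
    (hd : Dr (G.rules : Set (ContextFreeRule T G.NT)) [Symbol.nonterminal A]
      (rep G.NT a w.length)) (hw : w.length ≤ N0) (K : KK X N0) (hK : w ∈ K.1) :
    Dr (LR G a X N0 hX) [Symbol.nonterminal (A, K)] (tm _ w) := by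
  obtain ⟨n, hd⟩ := hd
  refine (lift hX n _ _ hd (tm _ w) (rel_tm hX w) (seg_tm hB hw)).2 A rfl (steps_pos hd) K ?_
  rw [strL_tm, oneL_le]
  exact hK

/-- Words of products of basic languages are derived by an expansive nonterminal. -/
theorem normal_form [Finite T₁] (hX : X.Finite) {l : ℕ} (hB : Basic X l) {A : G.NT}
    {i j k : ℕ} (hA : Dr (G.rules : Set (ContextFreeRule T G.NT)) [Symbol.nonterminal A]
      (rep G.NT a i ++ [Symbol.nonterminal A] ++ rep G.NT a j ++ [Symbol.nonterminal A] ++
        rep G.NT a k)) {D n1 m : ℕ} (hD : 1 ≤ D)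
    (hN : ∀ n ≥ n1, (D ∣ n + (i + j + k) ∨ n % D = m % D) →
      Dr (G.rules : Set (ContextFreeRule T G.NT)) [Symbol.nonterminal A] (rep G.NT a n)) (b : ℕ) :
    ∃ B M, b ≤ B ∧ ∀ N0, M ≤ N0 → ∀ (w : List T₁) (σ : List (Language T₁)), (∀ ξ ∈ σ, ξ ∈ X) →
      σ.length ≤ B → w ∈ σ.prod → n1 ≤ w.length →
      (D ∣ w.length + (i + j + k) ∨ w.length % D = m % D) → ∀ K : KK X N0, σ.prod ≤ K.1 →
      Dr (LR G a X N0 hX) [Symbol.nonterminal (A, K)] (tm _ w) := by
  obtain ⟨B0, N2, hsplit⟩ := split_word hB i j k D (n1 + 1) hD
  refine ⟨max B0 b, N2 + (i + j + k + 2) * (max B0 b + 1), le_max_right _ _, ?_⟩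
  intro N0 hM w
  induction hlen : w.length using Nat.strong_induction_on generalizing w with
  | _ len ih =>
    intro σ hσ hσB hw hn1 hres K hK
    subst hlen
    rcases lt_or_ge w.length N2 with h | h
    · exact lift_word hX hB (hN _ hn1 hres) (by omega) K (hK hw)
    · obtain ⟨w1, w', w2, w'', w3, σ', σ'', h1, h2, h3, h4, h5, h6, h7, h8, h9, h10, h11, h12,
        h13, h14⟩ := hsplit (max B0 b) (le_max_left _ _) σ hσ hσB w hw h
      have hN0 : max B0 b ≤ N0 := by
        have : max B0 b + 1 ≤ (i + j + k + 2) * (max B0 b + 1) :=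
          Nat.le_mul_of_pos_left _ (by omega)
        omega
      set K' : KK X N0 := ⟨σ'.prod, σ', h8, h10.trans hN0, rfl⟩ with hK'
      set K'' : KK X N0 := ⟨σ''.prod, σ'', h9, h11.trans hN0, rfl⟩ with hK''
      have hlenw := congrArg List.length h1
      simp only [List.length_append] at hlenw
      obtain ⟨n, hA'⟩ := hA
      have hn : 1 ≤ n := by
        cases n with
        | zero =>
          exfalso
          generalize hw' : rep G.NT a i ++ [Symbol.nonterminal A] ++ rep G.NT a j ++
            [Symbol.nonterminal A] ++ rep G.NT a k = v at hA'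
          cases hA'
          have := congrArg List.length hw'
          simp at this
          omega
        | succ n => omega
      have hrel : List.Forall₂ (SymRel (muT (T₁ := T₁) a) (muN G X N0 hX))
          (tm _ w1 ++ [Symbol.nonterminal (A, K')] ++ tm _ w2 ++
            [Symbol.nonterminal (A, K'')] ++ tm _ w3)
          (rep G.NT a i ++ [Symbol.nonterminal A] ++ rep G.NT a j ++ [Symbol.nonterminal A] ++
            rep G.NT a k) := by
        have r1 := rel_tm (G := G) (a := a) (N0 := N0) hX w1
        have r2 := rel_tm (G := G) (a := a) (N0 := N0) hX w2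
        have r3 := rel_tm (G := G) (a := a) (N0 := N0) hX w3
        rw [h2] at r1
        rw [h3] at r2
        rw [h4] at r3
        exact forall₂_append (forall₂_append (forall₂_append (forall₂_append r1
          (rel_nt hX A K')) r2) (rel_nt hX A K'')) r3
      have hseg : Seg (G := G) (X := X) (N0 := N0)
          (tm _ w1 ++ [Symbol.nonterminal (A, K')] ++ tm _ w2 ++
            [Symbol.nonterminal (A, K'')] ++ tm _ w3) := by
        refine seg_of (b := max B0 b + 1) ?_ ?_
        · intro s hs
          simp only [List.mem_append, List.mem_singleton] at hs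
          rcases hs with (((hs | hs) | hs) | hs) | hs
          · exact wt_tm hB hs (by omega)
          · subst hs
            exact ⟨σ', h8, by omega, rfl⟩
          · exact wt_tm hB hs (by omega)
          · subst hs
            exact ⟨σ'', h9, by omega, rfl⟩
          · exact wt_tm hB hs (by omega)
        · have : (tm (NTL G X N0) w1 ++ [Symbol.nonterminal (A, K')] ++ tm _ w2 ++
            [Symbol.nonterminal (A, K'')] ++ tm _ w3).length = i + j + k + 2 := by
            simp [h2, h3, h4]
            omega
          rw [this]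
          omega
      have hder : Dr (LR G a X N0 hX) [Symbol.nonterminal (A, K)]
          (tm _ w1 ++ [Symbol.nonterminal (A, K')] ++ tm _ w2 ++
            [Symbol.nonterminal (A, K'')] ++ tm _ w3) := by
        refine (lift hX n _ _ hA' _ hrel hseg).2 A rfl hn K ?_
        intro z hz
        rw [strL_append, strL_append, strL_append, strL_append, strL_tm, strL_tm, strL_tm,
          strL_singleton, strL_singleton] at hz
        obtain ⟨z1, hz1, z2, hz2, rfl⟩ := hz
        obtain ⟨z3, hz3, z4, hz4, rfl⟩ := hz1
        obtain ⟨z5, hz5, z6, hz6, rfl⟩ := hz3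
        obtain ⟨z7, hz7, z8, hz8, rfl⟩ := hz5
        have e1 : z2 = w3 := hz2
        have e2 : z6 = w2 := hz6
        have e3 : z7 = w1 := hz7
        subst e1
        subst e2
        subst e3
        exact hK (h14 z8 hz8 z4 hz4)
      have hlt : D ∣ w'.length + (i + j + k) := h5
      have hd1 := ih w'.length (by omega) w' rfl σ' h8 h10 h12 (by omega) (Or.inl h5) K'
        (le_refl _)
      have hd2 : Dr (LR G a X N0 hX) [Symbol.nonterminal (A, K'')] (tm _ w'') := by
        refine ih w''.length (by omega) w'' rfl σ'' h9 h11 h13 (by omega) ?_ K'' (le_refl _)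
        obtain ⟨c, hc⟩ := h5
        rcases hres with hres | hres
        · left
          have e1 : w.length + (i + j + k) = D * c + (w''.length + (i + j + k)) := by omega
          rw [e1] at hres
          exact (Nat.dvd_add_right (Dvd.intro _ rfl)).1 hres
        · right
          have e1 : w.length = D * c + w''.length := by omega
          rw [e1] at hres
          rw [← hres]
          simp
      have h15 := (((((Dr.refl (R := LR G a X N0 hX) (tm _ w1)).append hd1).append
        (Dr.refl (tm _ w2))).append hd2).append (Dr.refl (tm _ w3)))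
      have h16 := hder.trans h15
      rw [h1]
      simpa using h16

theorem res_dvd {D n n' e : ℕ} (h1 : D ∣ n + e) (h2 : D ∣ n' + e) (h : n' ≤ n) :
    ∃ t, n = n' + D * t := by
  have h3 : D ∣ (n + e) - (n' + e) := Nat.dvd_sub h1 h2
  obtain ⟨t, ht⟩ := h3
  exact ⟨t, by omega⟩

theorem res_mod {D n n' : ℕ} (h1 : n % D = n' % D) (h : n' ≤ n) : ∃ t, n = n' + D * t := by
  have h2 : n' ≡ n [MOD D] := h1.symm
  obtain ⟨t, ht⟩ := (Nat.modEq_iff_dvd' h).1 h2
  exact ⟨t, by omega⟩

/-- long words of one residue class -/
theorem big_words [Finite T₁] (hX : X.Finite) {l : ℕ} (hB : Basic X l)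
    {D : ℕ} (hD : 1 ≤ D)
    (hper : ∀ A : G.NT, Expansive G a A → ∀ m, G.Derives [Symbol.nonterminal A] (rep G.NT a m) →
      ∀ t, G.Derives [Symbol.nonterminal A] (rep G.NT a (m + D * t)))
    {n₀ : ℕ} (hn : ThroughExpansive G a n₀) {L : Language T₁} (hL : L ∈ X) :
    ∃ M, ∀ N0, M ≤ N0 → ∀ w ∈ L, M ≤ w.length → w.length % D = n₀ % D →
      ∀ K : KK X N0, L ≤ K.1 →
        Dr (LR G a X N0 hX) [Symbol.nonterminal (G.initial, K)] (tm _ w) := by
  obtain ⟨A, s, m, t, hsum, hexp, hctx, hm⟩ := hn
  have hexp' := hexp
  obtain ⟨⟨i, j, k, hA⟩, p, hp, hAp⟩ := hexp'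
  have h1 : ∀ r, Dr (G.rules : Set (ContextFreeRule T G.NT)) [Symbol.nonterminal A]
      (rep G.NT a (p + (i + j + p + k) * r)) := by
    intro r
    induction r with
    | zero =>
      rw [← dr_iff]
      simpa using hAp
    | succ r ih =>
      refine ((dr_iff _ _ _).1 hA).trans ?_
      have h3 := ((((Dr.refl (R := (G.rules : Set (ContextFreeRule T G.NT)))
        (rep G.NT a i)).append ih).append (Dr.refl (rep G.NT a j))).append
        ((dr_iff _ _ _).1 hAp)).append (Dr.refl (rep G.NT a k))
      have h4 : rep G.NT a i ++ rep G.NT a (p + (i + j + p + k) * r) ++ rep G.NT a j ++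
          rep G.NT a p ++ rep G.NT a k = rep G.NT a (p + (i + j + p + k) * (r + 1)) := by
        rw [rep_append, rep_append, rep_append, rep_append]
        congr 1
        ring
      rw [h4] at h3
      exact h3
  set ns := p + (i + j + p + k) * (D - 1) with hns
  have hnsd : D ∣ ns + (i + j + k) := by
    obtain ⟨D', rfl⟩ : ∃ D', D = D' + 1 := ⟨D - 1, by omega⟩
    refine ⟨i + j + p + k, ?_⟩
    rw [hns, Nat.add_sub_cancel]
    ring
  have hN : ∀ n ≥ max ns m, (D ∣ n + (i + j + k) ∨ n % D = m % D) →
      Dr (G.rules : Set (ContextFreeRule T G.NT)) [Symbol.nonterminal A] (rep G.NT a n) := by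
    intro n hn hres
    rcases hres with hres | hres
    · obtain ⟨r, rfl⟩ := res_dvd hres hnsd (by omega)
      rw [← dr_iff]
      exact hper A hexp ns ((dr_iff _ _ _).2 (h1 _)) r
    · obtain ⟨r, rfl⟩ := res_mod hres (by omega)
      rw [← dr_iff]
      exact hper A hexp m hm r
  obtain ⟨B, M, hbB, hnf⟩ := normal_form hX hB ((dr_iff _ _ _).1 hA) hD hN
    (1 + l * (s + t))
  refine ⟨M + (s + t + 1) * (B + 1) + max ns m, ?_⟩
  intro N0 hM w hw hlen hres K hK
  have hM' : M ≤ N0 := by omega
  have hBN : B ≤ N0 := by
    have : B + 1 ≤ (s + t + 1) * (B + 1) := Nat.le_mul_of_pos_left _ (by omega)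
    omega
  have hst : s + t + max ns m ≤ w.length := by
    have : s + t + 1 ≤ (s + t + 1) * (B + 1) := Nat.le_mul_of_pos_right _ (by omega)
    omega
  have hwL : w ∈ [L].prod := by
    rw [List.prod_singleton]
    exact hw
  -- remove the context
  have e1 : w = w.take s ++ w.drop s := (List.take_append_drop s w).symm
  obtain ⟨τ0, a1, a2, a3, a4⟩ := peelLs hB (w.take s) [L]
    (by
      intro ξ hξ
      rw [List.mem_singleton] at hξ
      subst hξ
      exact hL) (w.drop s) (by rw [← e1]; exact hwL)
  have hs : (w.take s).length = s := by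
    rw [List.length_take]
    omega
  rw [hs, List.length_singleton] at a2
  set w0 := w.drop s with hw0
  have hw0l : w0.length = w.length - s := List.length_drop
  have e2 : w0 = w0.take (w0.length - t) ++ w0.drop (w0.length - t) :=
    (List.take_append_drop _ w0).symm
  have ht : (w0.drop (w0.length - t)).length = t := by
    rw [List.length_drop]
    omega
  obtain ⟨τ, b1, b2, b3, b4⟩ := peelRs hB (w0.drop (w0.length - t)) τ0 a1
    (w0.take (w0.length - t)) (by rw [← e2]; exact a3)
  rw [ht] at b2
  set w00 := w0.take (w0.length - t) with hw00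
  have hw00l : w00.length = w.length - s - t := by
    rw [hw00, List.length_take]
    omega
  have hτB : τ.length ≤ B := by
    have : l * (s + t) = l * s + l * t := by ring
    omega
  have hres' : w00.length % D = m % D := by
    have h2 : w00.length + (s + t) ≡ m + (s + t) [MOD D] := by
      have e3 : w00.length + (s + t) = w.length := by omega
      have e4 : m + (s + t) = n₀ := by omega
      rw [e3, e4]
      exact hres
    exact Nat.ModEq.add_right_cancel' _ h2
  have e5 : w = w.take s ++ w00 ++ w0.drop (w0.length - t) := by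
    calc w = w.take s ++ w0 := e1
      _ = w.take s ++ (w00 ++ w0.drop (w0.length - t)) := by rw [← e2]
      _ = _ := by rw [List.append_assoc]
  obtain ⟨n, hctx'⟩ := (dr_iff _ _ _).1 hctx
  cases n with
  | zero =>
    -- the expansive nonterminal is the initial one
    generalize hv : rep G.NT a s ++ [Symbol.nonterminal A] ++ rep G.NT a t = v at hctx'
    cases hctx'
    have hl := congrArg List.length hv
    simp only [List.length_append, rep, List.length_replicate, List.length_singleton] at hl
    have hs0 : s = 0 := by omega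
    have ht0 : t = 0 := by omega
    subst hs0
    subst ht0
    simp only [rep, List.replicate_zero, List.nil_append, List.append_nil] at hv
    injection hv with hv1 _
    injection hv1 with hv2
    rw [← hv2]
    refine hnf N0 hM' w [L] ?_ (by simp; omega) hwL (by omega) (Or.inr ?_) K ?_
    · intro ξ hξ
      rw [List.mem_singleton] at hξ
      subst hξ
      exact hL
    · rw [hw00l, Nat.sub_zero, Nat.sub_zero] at hres'
      exact hres'
    · rw [List.prod_singleton]
      exact hK
  | succ n =>
    set Kσ : KK X N0 := ⟨τ.prod, τ, b1, hτB.trans hBN, rfl⟩ with hKσ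
    have hd0 := hnf N0 hM' w00 τ b1 hτB b3 (by omega) (Or.inr hres') Kσ (le_refl _)
    have hrel : List.Forall₂ (SymRel (muT (T₁ := T₁) a) (muN G X N0 hX))
        (tm _ (w.take s) ++ [Symbol.nonterminal (A, Kσ)] ++ tm _ (w0.drop (w0.length - t)))
        (rep G.NT a s ++ [Symbol.nonterminal A] ++ rep G.NT a t) := by
      have r1 := rel_tm (G := G) (a := a) (N0 := N0) hX (w.take s)
      have r2 := rel_tm (G := G) (a := a) (N0 := N0) hX (w0.drop (w0.length - t))
      rw [hs] at r1
      rw [ht] at r2
      exact forall₂_append (forall₂_append r1 (rel_nt hX A Kσ)) r2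
    have hseg : Seg (G := G) (X := X) (N0 := N0)
        (tm _ (w.take s) ++ [Symbol.nonterminal (A, Kσ)] ++
          tm _ (w0.drop (w0.length - t))) := by
      refine seg_of (b := B + 1) ?_ ?_
      · intro s' hs'
        simp only [List.mem_append, List.mem_singleton] at hs'
        rcases hs' with (hs' | hs') | hs'
        · exact wt_tm hB hs' (by omega)
        · subst hs'
          exact ⟨τ, b1, by omega, rfl⟩
        · exact wt_tm hB hs' (by omega)
      · have : (tm (NTL G X N0) (w.take s) ++ [Symbol.nonterminal (A, Kσ)] ++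
            tm _ (w0.drop (w0.length - t))).length = s + t + 1 := by
          rw [List.length_append, List.length_append, List.length_map, List.length_map, hs, ht,
            List.length_singleton]
          omega
        rw [this]
        omega
    have hder := (lift hX (n + 1) _ _ hctx' _ hrel hseg).2 G.initial rfl (by omega) K (by
      intro z hz
      rw [strL_append, strL_append, strL_tm, strL_tm, strL_singleton] at hz
      obtain ⟨z1, hz1, z2, hz2, rfl⟩ := hz
      obtain ⟨z3, hz3, z4, hz4, rfl⟩ := hz1
      have e6 : z2 = w0.drop (w0.length - t) := hz2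
      have e7 : z3 = w.take s := hz3
      subst e6
      subst e7
      have h5 := a4 _ (b4 z4 hz4)
      rw [List.prod_singleton] at h5
      refine hK ?_
      have e8 : w.take s ++ z4 ++ w0.drop (w0.length - t) =
          w.take s ++ (z4 ++ w0.drop (w0.length - t)) := List.append_assoc _ _ _
      show w.take s ++ z4 ++ w0.drop (w0.length - t) ∈ L
      rw [e8]
      exact h5)
    have h15 := (((Dr.refl (R := LR G a X N0 hX) (tm _ (w.take s))).append hd0).append
      (Dr.refl (tm _ (w0.drop (w0.length - t)))))
    have h16 := hder.trans h15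
    rw [e5]
    simpa using h16

theorem sufficiency (G : ContextFreeGrammar T) (a : T)
    (h1 : ∀ n, 1 ≤ n → List.replicate n a ∈ G.language)
    (h2 : ∃ n₀, ∀ n ≥ n₀, ThroughExpansive G a n) : IsCFSComplete G := by
  intro T₁ _
  constructor
  · rintro L ⟨G₁, -, rfl⟩
    exact ⟨_, ⟨G₁, rfl⟩, fun w _ => Iff.rfl⟩
  · rintro L ⟨H, rfl⟩
    obtain ⟨l0, hl0⟩ := (H.rules.finite_toSet.image (fun r => r.output.length)).bddAbove
    have hl : ∀ r ∈ (H.rules : Set (ContextFreeRule T₁ H.NT)),
        r.output.length + 3 ≤ l0 + 3 := by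
      intro r hr
      have := hl0 ⟨r, hr, rfl⟩
      simp only at this
      omega
    set R : Set (ContextFreeRule T₁ H.NT) := (H.rules : Set (ContextFreeRule T₁ H.NT)) with hR
    set X := Xi R H.initial with hXdef
    have hX : X.Finite := finite_Xi H.rules.finite_toSet H.initial
    have hB : Basic X (l0 + 3) :=
      { peelL := fun K hK => (peel_Xi hl (by omega) hK).1
        peelR := fun K hK => (peel_Xi hl (by omega) hK).2
        one := fun c => Or.inl ⟨Symbol.terminal c, sy_tm c, (Lg_terminal R c).symm⟩
        pos := by omega }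
    have hLX : Lg R (Symbol.nonterminal H.initial) ∈ X :=
      Or.inl ⟨_, Or.inr (Or.inl rfl), rfl⟩
    obtain ⟨D, hD, hper⟩ := uniform_period G a
    obtain ⟨n₀, hn₀⟩ := h2
    have hbig : ∀ ρ, ∃ M, ∀ N0, M ≤ N0 → ∀ w ∈ Lg R (Symbol.nonterminal H.initial),
        M ≤ w.length → w.length % D = (ρ + D * n₀) % D →
        ∀ K : KK X N0, Lg R (Symbol.nonterminal H.initial) ≤ K.1 →
        Dr (LR G a X N0 hX) [Symbol.nonterminal (G.initial, K)] (tm _ w) := by
      intro ρ
      refine big_words hX hB hD hper (hn₀ _ ?_) hLX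
      have : n₀ ≤ D * n₀ := Nat.le_mul_of_pos_left _ (by omega)
      show n₀ ≤ ρ + D * n₀
      omega
    choose M hM using hbig
    set N0 := (Finset.range D).sup M + 1 with hN0
    set K : KK X N0 := ⟨Lg R (Symbol.nonterminal H.initial),
      [Lg R (Symbol.nonterminal H.initial)], by
        intro ξ hξ
        rw [List.mem_singleton] at hξ
        subst hξ
        exact hLX, by simp; omega, by rw [List.prod_singleton]⟩ with hK
    refine ⟨(LabG G a X N0 hX K).language, ⟨LabG G a X N0 hX K, ⟨_, _, LabG_interp hX K⟩, rfl⟩,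
      fun w hw => ?_⟩
    rw [ContextFreeGrammar.mem_language_iff, ContextFreeGrammar.mem_language_iff, dr_iff, dr_iff,
      LabG_rules]
    constructor
    · intro h
      have hwL : w ∈ Lg R (Symbol.nonterminal H.initial) := h
      rcases le_or_gt ((Finset.range D).sup M) w.length with hlen | hlen
      · have hρ : w.length % D < D := Nat.mod_lt _ (by omega)
        have hle : M (w.length % D) ≤ (Finset.range D).sup M :=
          Finset.le_sup (Finset.mem_range.2 hρ)
        exact hM (w.length % D) N0 (by omega) w hwL (by omega) (by simp) K (le_refl _)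
      · have hpos : 1 ≤ w.length := List.length_pos_of_ne_nil hw
        have h3 := h1 w.length hpos
        rw [ContextFreeGrammar.mem_language_iff, dr_iff] at h3
        refine lift_word hX hB ?_ (by omega) K hwL
        rw [rep_eq]
        exact h3
    · intro h
      exact LabG_sound hX h

end suf

end Pool.Agent.K9h77.GF
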